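import Pool.Agent.Work.MP_b5407d_nb.NBP2
import Pool.Agent.Work.MP_b5407d_g1.Pl_MIXD
import Pool.Agent.Work.MP_b5407d_g1.Pl_HI
import Pool.Agent.Work.MP_b5407d_g1.Pl_MID

/-!
# the planar statement `Stmt_PL`
-/

set_option autoImplicit false

namespace Pool.G1.NB

open Pool.G1 Pool.G1.Gap

/-- the planar target, complete -/
theorem PL_done : Stmt_PL := PL_of_parts P2_all PB.MID_all PB.HI_all

end Pool.G1.NB
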