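import Pool.Agent.Work.MP_b5407d_nb.NBsound

/-!
# soundness of the leaf tests, charts `K`
-/

set_option autoImplicit false

namespace Pool.G1.NB

section
variable (g : Gc ℤ) (l : Lc ℤ)

lemma chKa_w (r P Q T : ℝ) :
    (chKa NR GG CC0 (cG g) GG GG (1024 * r) (1024 * P) (1024 * Q) 0 (cL l)).wo =
      1024 * 1024 * 65536 * (chKa NR 1 1 (gR g) 1 1 r P Q T (lR l)).wo ∧
    (chKa NR GG CC0 (cG g) GG GG (1024 * r) (1024 * P) (1024 * Q) 0 (cL l)).wm =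
      1024 * 65536 * (chKa NR 1 1 (gR g) 1 1 r P Q T (lR l)).wm ∧
    (chKa NR GG CC0 (cG g) GG GG (1024 * r) (1024 * P) (1024 * Q) 0 (cL l)).wf =
      1024 * 65536 * (chKa NR 1 1 (gR g) 1 1 r P Q T (lR l)).wf := by
  rw [gR_s, lR_s]
  simp only [chKa, chain, NR, GG, CC0, sG, sL]
  push_cast
  refine ⟨?_, ?_, ?_⟩ <;> ring

lemma chKb_w (r P Q T : ℝ) :
    (chKb NR GG CC0 (cG g) GG GG (1024 * r) (1024 * P) (1024 * Q) 0 (cL l)).wo =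
      1024 * 1024 * 65536 * (chKb NR 1 1 (gR g) 1 1 r P Q T (lR l)).wo ∧
    (chKb NR GG CC0 (cG g) GG GG (1024 * r) (1024 * P) (1024 * Q) 0 (cL l)).wm =
      1024 * 65536 * (chKb NR 1 1 (gR g) 1 1 r P Q T (lR l)).wm ∧
    (chKb NR GG CC0 (cG g) GG GG (1024 * r) (1024 * P) (1024 * Q) 0 (cL l)).wf =
      1024 * 65536 * (chKb NR 1 1 (gR g) 1 1 r P Q T (lR l)).wf := by
  rw [gR_s, lR_s]
  simp only [chKb, chain, NR, GG, CC0, sG, sL]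
  push_cast
  refine ⟨?_, ?_, ?_⟩ <;> ring

lemma chKa_c (r P Q : ℤ) :
    (((chKa NI GG CC0 g GG GG r P Q 0 l).wo : ℤ) : ℝ) =
      (chKa NR GG CC0 (cG g) GG GG r P Q 0 (cL l)).wo ∧
    (((chKa NI GG CC0 g GG GG r P Q 0 l).wm : ℤ) : ℝ) =
      (chKa NR GG CC0 (cG g) GG GG r P Q 0 (cL l)).wm ∧
    (((chKa NI GG CC0 g GG GG r P Q 0 l).wf : ℤ) : ℝ) =
      (chKa NR GG CC0 (cG g) GG GG r P Q 0 (cL l)).wf := by
  simp only [chKa, chain, NR, NI, cG, cL, Int.ofNat_eq_natCast]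
  push_cast
  exact ⟨rfl, rfl, rfl⟩

lemma chKb_c (r P Q : ℤ) :
    (((chKb NI GG CC0 g GG GG r P Q 0 l).wo : ℤ) : ℝ) =
      (chKb NR GG CC0 (cG g) GG GG r P Q 0 (cL l)).wo ∧
    (((chKb NI GG CC0 g GG GG r P Q 0 l).wm : ℤ) : ℝ) =
      (chKb NR GG CC0 (cG g) GG GG r P Q 0 (cL l)).wm ∧
    (((chKb NI GG CC0 g GG GG r P Q 0 l).wf : ℤ) : ℝ) =
      (chKb NR GG CC0 (cG g) GG GG r P Q 0 (cL l)).wf := by
  simp only [chKb, chain, NR, NI, cG, cL, Int.ofNat_eq_natCast]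
  push_cast
  refine ⟨?_, ?_, ?_⟩ <;> ring

end

/-- a chain of a chart `K` with `P = p0 + p1 u`, `Q = q0 + q1 u`, `p1 q1 = 0` and so on: bilinear -/
lemma bil_chKa (g : Gc ℝ) (U C : ℝ) (l : Lc ℝ) (T p0 p1 q0 q1 : ℝ) :
    Bil (fun r u => (chKa NR U C g U U r (p0 + p1 * u) (q0 + q1 * u) T l).wo) ∧
    Bil (fun r u => (chKa NR U C g U U r (p0 + p1 * u) (q0 + q1 * u) T l).wm) ∧
    Bil (fun r u => (chKa NR U C g U U r (p0 + p1 * u) (q0 + q1 * u) T l).wf) := by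
  refine ⟨?_, ?_, ?_⟩
  · refine ⟨4 * (U * U) * C + 8 * (U * U) * l.t0,
      -(p0 + q0) * C + (q0 - p0) * (g.cE0 - g.cE1), 0,
      -(p1 + q1) * C + (q1 - p1) * (g.cE0 - g.cE1), fun x y => ?_⟩
    simp only [chKa, chain, NR]; push_cast; ring
  · refine ⟨(p0 + q0) * C + 8 * U * l.t1 + (q0 - p0) * (g.cE0 - g.cE1), 0,
      (p1 + q1) * C + (q1 - p1) * (g.cE0 - g.cE1), 0, fun x y => ?_⟩
    simp only [chKa, chain, NR]; push_cast; ring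
  · refine ⟨(p0 + q0) * C + 8 * U * l.t2 + (q0 - p0) * (g.cE0 + g.cE1), 0,
      (p1 + q1) * C + (q1 - p1) * (g.cE0 + g.cE1), 0, fun x y => ?_⟩
    simp only [chKa, chain, NR]; push_cast; ring

lemma bil_chKb (g : Gc ℝ) (U C : ℝ) (l : Lc ℝ) (T p0 p1 q0 q1 : ℝ) :
    Bil (fun r u => (chKb NR U C g U U r (p0 + p1 * u) (q0 + q1 * u) T l).wo) ∧
    Bil (fun r u => (chKb NR U C g U U r (p0 + p1 * u) (q0 + q1 * u) T l).wm) ∧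
    Bil (fun r u => (chKb NR U C g U U r (p0 + p1 * u) (q0 + q1 * u) T l).wf) := by
  refine ⟨?_, ?_, ?_⟩
  · refine ⟨4 * (U * U) * C + 8 * (U * U) * l.t0,
      -(p0 + q0) * C + (q0 - p0) * (g.cE0 + g.cE1), 0,
      -(p1 + q1) * C + (q1 - p1) * (g.cE0 + g.cE1), fun x y => ?_⟩
    simp only [chKb, chain, NR]; push_cast; ring
  · refine ⟨(p0 + q0) * C + 8 * U * l.t1 + (q0 - p0) * (g.cE0 + g.cE1), 0,
      (p1 + q1) * C + (q1 - p1) * (g.cE0 + g.cE1), 0, fun x y => ?_⟩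
    simp only [chKb, chain, NR]; push_cast; ring
  · refine ⟨(p0 + q0) * C + 8 * U * l.t2 + (q0 - p0) * (g.cE0 - g.cE1), 0,
      (p1 + q1) * C + (q1 - p1) * (g.cE0 - g.cE1), 0, fun x y => ?_⟩
    simp only [chKb, chain, NR]; push_cast; ring

lemma kap_real1 {l : Lc ℤ} {x0 x1 : ℤ} (h0 : kchk CC0 GG (2 * GG - x0) l = true)
    (h1 : kchk CC0 GG (2 * GG - x1) l = true) (hk : 0 ≤ l.k1) {x : ℝ} (a1 : (x0 : ℝ) ≤ 1024 * x)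
    (a2 : 1024 * x ≤ (x1 : ℝ)) :
    1 ≤ ((lR l).k0 - (lR l).k1 * (2 - x)) * (2 - x) := by
  have e := kchk_sound (Y := 1024 * (2 - x)) h0 h1 hk (by simp only [GG]; push_cast; linarith)
    (by simp only [GG]; push_cast; linarith)
  simp only [CC0, GG] at e
  push_cast at e
  simp only [lR, sL, cL]
  nlinarith

lemma kap_real2 {l : Lc ℤ} {r0 r1 u0 u1 : ℤ}
    (h0 : kchk CC0 (GG * GG) (2 * (GG * GG) - r0 * u0) l = true)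
    (h1 : kchk CC0 (GG * GG) (2 * (GG * GG) - r1 * u1) l = true) (hk : 0 ≤ l.k1) (hr : 0 ≤ r0)
    (hu : 0 ≤ u0) {r u : ℝ} (a1 : (r0 : ℝ) ≤ 1024 * r) (a2 : 1024 * r ≤ (r1 : ℝ))
    (b1 : (u0 : ℝ) ≤ 1024 * u) (b2 : 1024 * u ≤ (u1 : ℝ)) :
    1 ≤ ((lR l).k0 - (lR l).k1 * (2 - r * u)) * (2 - r * u) := by
  have hr' : (0 : ℝ) ≤ (r0 : ℝ) := by exact_mod_cast hr
  have hu' : (0 : ℝ) ≤ (u0 : ℝ) := by exact_mod_cast hu
  have m1 : (r0 : ℝ) * u0 ≤ (1024 * r) * (1024 * u) := mul_le_mul a1 b1 hu' (hr'.trans a1)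
  have m2 : (1024 * r) * (1024 * u) ≤ (r1 : ℝ) * u1 :=
    mul_le_mul a2 b2 (hu'.trans b1) ((hr'.trans a1).trans a2)
  have e := kchk_sound (Y := 1024 * 1024 * (2 - r * u)) h0 h1 hk
    (by simp only [GG]; push_cast; linarith) (by simp only [GG]; push_cast; linarith)
  simp only [CC0, GG] at e
  push_cast at e
  simp only [lR, sL, cL]
  nlinarith

theorem leafK1_sound {g : Gc ℤ} {l l' : Lc ℤ} {tb r0 r1 u0 u1 t0 t1 : ℤ} (hl : Lnn l)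
    (hl' : Lnn l') (htb : 0 ≤ tb) (hr : 0 ≤ r0) (hu : 0 ≤ u0)
    (h : leafK1 g l l' tb r0 r1 u0 u1 t0 t1 = true) {r u T : ℝ}
    (a1 : (r0 : ℝ) ≤ 1024 * r) (a2 : 1024 * r ≤ (r1 : ℝ)) (b1 : (u0 : ℝ) ≤ 1024 * u)
    (b2 : 1024 * u ≤ (u1 : ℝ)) (c1 : (t0 : ℝ) ≤ 1024 * T) (c2 : 1024 * T ≤ (t1 : ℝ)) :
    GoodK (gR g) r 1 u T := by
  simp only [leafK1, Bool.and_eq_true] at h
  obtain ⟨⟨⟨⟨⟨⟨⟨⟨⟨⟨⟨⟨⟨k1, k2⟩, k3⟩, k4⟩, w1⟩, w2⟩, w3⟩, w4⟩, w5⟩, w6⟩, w7⟩, w8⟩, p0⟩, p1⟩ := h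
  obtain ⟨s1, s2, s3, s4⟩ := hl
  obtain ⟨s1', s2', s3', s4'⟩ := hl'
  have nnR : ∀ z : ℤ, 0 ≤ z → (0 : ℝ) ≤ 1 / 65536 * (z : ℝ) := fun z hz =>
    mul_nonneg (by norm_num) (by exact_mod_cast hz)
  have W1 := wchk_sound w1
  have W2 := wchk_sound w2
  have W3 := wchk_sound w3
  have W4 := wchk_sound w4
  have W5 := wchk_sound w5
  have W6 := wchk_sound w6
  have W7 := wchk_sound w7
  have W8 := wchk_sound w8
  simp only [chKa_c] at W1 W2 W3 W4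
  simp only [chKb_c] at W5 W6 W7 W8
  have pos : (0 : ℝ) < 1024 * 65536 := by norm_num
  have pos2 : (0 : ℝ) < 1024 * 1024 * 65536 := by norm_num
  have ee : ∀ z : ℝ, z = 0 + 1 * z := fun z => by ring
  have e1 : ∀ z : ℝ, ((GG : ℤ) : ℝ) = ((GG : ℤ) : ℝ) + 0 * z := fun z => by ring
  have B := bil_chKa (cG g) GG CC0 (cL l) 0 ((GG : ℤ) : ℝ) 0 0 1
  have B' := bil_chKb (cG g) GG CC0 (cL l') 0 ((GG : ℤ) : ℝ) 0 0 1
  simp only [zero_mul, add_zero, one_mul, zero_add] at B B'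
  have V1 := B.1.nn W1.1 W2.1 W3.1 W4.1 a1 a2 b1 b2
  have V2 := B.2.1.nn W1.2.1 W2.2.1 W3.2.1 W4.2.1 a1 a2 b1 b2
  have V3 := B.2.2.nn W1.2.2 W2.2.2 W3.2.2 W4.2.2 a1 a2 b1 b2
  have V4 := B'.1.nn W5.1 W6.1 W7.1 W8.1 a1 a2 b1 b2
  have V5 := B'.2.1.nn W5.2.1 W6.2.1 W7.2.1 W8.2.1 a1 a2 b1 b2
  have V6 := B'.2.2.nn W5.2.2 W6.2.2 W7.2.2 W8.2.2 a1 a2 b1 b2
  have hG : ((GG : ℤ) : ℝ) = 1024 * 1 := by simp only [GG]; norm_num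
  have za := chKa_w g l r 1 u T
  have zb := chKb_w g l' r 1 u T
  rw [← hG] at za zb
  rw [za.1] at V1
  rw [za.2.1] at V2
  rw [za.2.2] at V3
  rw [zb.1] at V4
  rw [zb.2.1] at V5
  rw [zb.2.2] at V6
  refine ⟨lR l, lR l', 1 / 65536 * (tb : ℝ), nnR _ s1, nnR _ s2, nnR _ s3, nnR _ s1', nnR _ s2',
    nnR _ s3', nnR _ htb, by rw [mul_one]; exact kap_real1 k1 k2 s4 a1 a2,
    kap_real2 k3 k4 s4' hr hu a1 a2 b1 b2,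
    nonneg_of_mul_nonneg_right V1 pos2, nonneg_of_mul_nonneg_right V2 pos,
    nonneg_of_mul_nonneg_right V3 pos, nonneg_of_mul_nonneg_right V4 pos2,
    nonneg_of_mul_nonneg_right V5 pos, nonneg_of_mul_nonneg_right V6 pos, fun v => ?_⟩
  -- the form
  have q : ∀ t : ℤ, chk2 (fun f => bern3 f r0 r1)
      (fun r u => matK NI GG CC0 g (2 * GG) (3 * GG) l l' tb r (3 * GG) u t) u0 u1 = true →
      0 ≤ dotL (matK NR ((GG : ℤ) : ℝ) ((CC0 : ℤ) : ℝ) (cG g) ((2 * GG : ℤ) : ℝ) ((3 * GG : ℤ) : ℝ)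
        (cL l) (cL l') tb (2 * (1024 * r)) ((3 * GG : ℤ) : ℝ) (3 * (1024 * u)) t) (mono v) := by
    intro t ht
    refine chk2_sound3 (n := 21) v (fr := fun X Y => dotL (matK NR ((GG : ℤ) : ℝ) ((CC0 : ℤ) : ℝ)
      (cG g) ((2 * GG : ℤ) : ℝ) ((3 * GG : ℤ) : ℝ) (cL l) (cL l') tb X ((3 * GG : ℤ) : ℝ) Y t)
      (mono v)) (fun _ _ => rfl) ?_ ?_ ?_ ht (by linarith) (by linarith) (by linarith) (by linarith)
    · intro X Y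
      rw [matK_cast]
    · intro Y
      exact Qua.dot _ 21 (fun X => matK NR _ _ _ _ _ _ _ _ X _ Y _) (fun _ => rfl)
        (fun i hi => matK_quar _ _ _ _ _ _ _ _ _ Y _ i hi)
    · intro X
      exact Cub.dot _ 21 (fun Y => matK NR _ _ _ _ _ _ _ _ X _ Y _) (fun _ => rfl)
        (fun i hi => matK_cubQ _ _ _ _ _ _ _ _ X _ _ i hi)
  have q0 := q t0 p0
  have q1 := q t1 p1
  have q2 : 0 ≤ dotL (matK NR ((GG : ℤ) : ℝ) ((CC0 : ℤ) : ℝ) (cG g) ((2 * GG : ℤ) : ℝ)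
      ((3 * GG : ℤ) : ℝ) (cL l) (cL l') tb (2 * (1024 * r)) ((3 * GG : ℤ) : ℝ) (3 * (1024 * u))
      (1024 * T)) (mono v) :=
    (Aff.dot (mono v) 21 (fun T => matK NR _ _ _ _ _ _ _ _ _ _ _ T) (fun _ => rfl)
      (fun i hi => matK_aff _ _ _ _ _ _ _ _ _ _ _ i hi)).nn q0 q1 c1 c2
  have e : matK NR ((GG : ℤ) : ℝ) ((CC0 : ℤ) : ℝ) (cG g) ((2 * GG : ℤ) : ℝ)
      ((3 * GG : ℤ) : ℝ) (cL l) (cL l') tb (2 * (1024 * r)) ((3 * GG : ℤ) : ℝ) (3 * (1024 * u))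
      (1024 * T) =
      (matK NR 1 1 (gR g) 1 1 (lR l) (lR l') (1 / 65536 * (tb : ℝ)) r 1 u T).map
        (fun z => (2048 : ℝ) ^ 2 * 3072 ^ 3 * 1024 * 65536 ^ 3 * z) := by
    rw [← matK_scale, gR_s, lR_s, lR_s]
    simp only [GG, CC0]
    push_cast
    congr 1 <;> ring
  rw [e, dotL_map] at q2
  exact nonneg_of_mul_nonneg_right q2 (by positivity)

theorem leafK2_sound {g : Gc ℤ} {l l' : Lc ℤ} {tb r0 r1 u0 u1 t0 t1 : ℤ} (hl : Lnn l)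
    (hl' : Lnn l') (htb : 0 ≤ tb) (hr : 0 ≤ r0) (hu : 0 ≤ u0)
    (h : leafK2 g l l' tb r0 r1 u0 u1 t0 t1 = true) {r u T : ℝ}
    (a1 : (r0 : ℝ) ≤ 1024 * r) (a2 : 1024 * r ≤ (r1 : ℝ)) (b1 : (u0 : ℝ) ≤ 1024 * u)
    (b2 : 1024 * u ≤ (u1 : ℝ)) (c1 : (t0 : ℝ) ≤ 1024 * T) (c2 : 1024 * T ≤ (t1 : ℝ)) :
    GoodK (gR g) r u 1 T := by
  simp only [leafK2, Bool.and_eq_true] at h
  obtain ⟨⟨⟨⟨⟨⟨⟨⟨⟨⟨⟨⟨⟨k1, k2⟩, k3⟩, k4⟩, w1⟩, w2⟩, w3⟩, w4⟩, w5⟩, w6⟩, w7⟩, w8⟩, p0⟩, p1⟩ := h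
  obtain ⟨s1, s2, s3, s4⟩ := hl
  obtain ⟨s1', s2', s3', s4'⟩ := hl'
  have nnR : ∀ z : ℤ, 0 ≤ z → (0 : ℝ) ≤ 1 / 65536 * (z : ℝ) := fun z hz =>
    mul_nonneg (by norm_num) (by exact_mod_cast hz)
  have W1 := wchk_sound w1
  have W2 := wchk_sound w2
  have W3 := wchk_sound w3
  have W4 := wchk_sound w4
  have W5 := wchk_sound w5
  have W6 := wchk_sound w6
  have W7 := wchk_sound w7
  have W8 := wchk_sound w8
  simp only [chKa_c] at W1 W2 W3 W4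
  simp only [chKb_c] at W5 W6 W7 W8
  have pos : (0 : ℝ) < 1024 * 65536 := by norm_num
  have pos2 : (0 : ℝ) < 1024 * 1024 * 65536 := by norm_num
  have B := bil_chKa (cG g) GG CC0 (cL l) 0 0 1 ((GG : ℤ) : ℝ) 0
  have B' := bil_chKb (cG g) GG CC0 (cL l') 0 0 1 ((GG : ℤ) : ℝ) 0
  simp only [zero_mul, add_zero, one_mul, zero_add] at B B'
  have V1 := B.1.nn W1.1 W2.1 W3.1 W4.1 a1 a2 b1 b2
  have V2 := B.2.1.nn W1.2.1 W2.2.1 W3.2.1 W4.2.1 a1 a2 b1 b2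
  have V3 := B.2.2.nn W1.2.2 W2.2.2 W3.2.2 W4.2.2 a1 a2 b1 b2
  have V4 := B'.1.nn W5.1 W6.1 W7.1 W8.1 a1 a2 b1 b2
  have V5 := B'.2.1.nn W5.2.1 W6.2.1 W7.2.1 W8.2.1 a1 a2 b1 b2
  have V6 := B'.2.2.nn W5.2.2 W6.2.2 W7.2.2 W8.2.2 a1 a2 b1 b2
  have hG : ((GG : ℤ) : ℝ) = 1024 * 1 := by simp only [GG]; norm_num
  have za := chKa_w g l r u 1 T
  have zb := chKb_w g l' r u 1 T
  rw [← hG] at za zb
  rw [za.1] at V1
  rw [za.2.1] at V2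
  rw [za.2.2] at V3
  rw [zb.1] at V4
  rw [zb.2.1] at V5
  rw [zb.2.2] at V6
  refine ⟨lR l, lR l', 1 / 65536 * (tb : ℝ), nnR _ s1, nnR _ s2, nnR _ s3, nnR _ s1', nnR _ s2',
    nnR _ s3', nnR _ htb, kap_real2 k1 k2 s4 hr hu a1 a2 b1 b2,
    by rw [mul_one]; exact kap_real1 k3 k4 s4' a1 a2,
    nonneg_of_mul_nonneg_right V1 pos2, nonneg_of_mul_nonneg_right V2 pos,
    nonneg_of_mul_nonneg_right V3 pos, nonneg_of_mul_nonneg_right V4 pos2,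
    nonneg_of_mul_nonneg_right V5 pos, nonneg_of_mul_nonneg_right V6 pos, fun v => ?_⟩
  -- the form
  have q : ∀ t : ℤ, chk2 (fun f => bern3 f r0 r1)
      (fun r u => matK NI GG CC0 g (2 * GG) (3 * GG) l l' tb r u (3 * GG) t) u0 u1 = true →
      0 ≤ dotL (matK NR ((GG : ℤ) : ℝ) ((CC0 : ℤ) : ℝ) (cG g) ((2 * GG : ℤ) : ℝ) ((3 * GG : ℤ) : ℝ)
        (cL l) (cL l') tb (2 * (1024 * r)) (3 * (1024 * u)) ((3 * GG : ℤ) : ℝ) t) (mono v) := by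
    intro t ht
    refine chk2_sound3 (n := 21) v (fr := fun X Y => dotL (matK NR ((GG : ℤ) : ℝ) ((CC0 : ℤ) : ℝ)
      (cG g) ((2 * GG : ℤ) : ℝ) ((3 * GG : ℤ) : ℝ) (cL l) (cL l') tb X Y ((3 * GG : ℤ) : ℝ) t)
      (mono v)) (fun _ _ => rfl) ?_ ?_ ?_ ht (by linarith) (by linarith) (by linarith) (by linarith)
    · intro X Y
      rw [matK_cast]
    · intro Y
      exact Qua.dot _ 21 (fun X => matK NR _ _ _ _ _ _ _ _ X Y _ _) (fun _ => rfl)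
        (fun i hi => matK_quar _ _ _ _ _ _ _ _ Y _ _ i hi)
    · intro X
      exact Cub.dot _ 21 (fun Y => matK NR _ _ _ _ _ _ _ _ X Y _ _) (fun _ => rfl)
        (fun i hi => matK_cubP _ _ _ _ _ _ _ _ X _ _ i hi)
  have q0 := q t0 p0
  have q1 := q t1 p1
  have q2 : 0 ≤ dotL (matK NR ((GG : ℤ) : ℝ) ((CC0 : ℤ) : ℝ) (cG g) ((2 * GG : ℤ) : ℝ)
      ((3 * GG : ℤ) : ℝ) (cL l) (cL l') tb (2 * (1024 * r)) (3 * (1024 * u)) ((3 * GG : ℤ) : ℝ)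
      (1024 * T)) (mono v) :=
    (Aff.dot (mono v) 21 (fun T => matK NR _ _ _ _ _ _ _ _ _ _ _ T) (fun _ => rfl)
      (fun i hi => matK_aff _ _ _ _ _ _ _ _ _ _ _ i hi)).nn q0 q1 c1 c2
  have e : matK NR ((GG : ℤ) : ℝ) ((CC0 : ℤ) : ℝ) (cG g) ((2 * GG : ℤ) : ℝ)
      ((3 * GG : ℤ) : ℝ) (cL l) (cL l') tb (2 * (1024 * r)) (3 * (1024 * u)) ((3 * GG : ℤ) : ℝ)
      (1024 * T) =
      (matK NR 1 1 (gR g) 1 1 (lR l) (lR l') (1 / 65536 * (tb : ℝ)) r u 1 T).map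
        (fun z => (2048 : ℝ) ^ 2 * 3072 ^ 3 * 1024 * 65536 ^ 3 * z) := by
    rw [← matK_scale, gR_s, lR_s, lR_s]
    simp only [GG, CC0]
    push_cast
    congr 1 <;> ring
  rw [e, dotL_map] at q2
  exact nonneg_of_mul_nonneg_right q2 (by positivity)

end Pool.G1.NB
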