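import Pool.Agent.Work.MP_b5407d_nb.NBleaf
import Pool.Agent.Work.MP_b5407d_nb.NBleafK

/-!
# soundness of the trees
-/

set_option autoImplicit false

namespace Pool.G1.NB

theorem Chk_sound {lf : List ℕ → ℕ → ℕ → ℕ → ℕ → ℕ → ℕ → Bool} {sk : Bool}
    {P : ℝ → ℝ → ℝ → Prop}
    (hlf : ∀ (ls : List ℕ) (x0 x1 y0 y1 t0 t1 : ℕ), lf ls x0 x1 y0 y1 t0 t1 = true →
      ∀ x y T : ℝ, (x0 : ℝ) ≤ 1024 * x → 1024 * x ≤ (x1 : ℝ) → (y0 : ℝ) ≤ 1024 * y →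
      1024 * y ≤ (y1 : ℝ) → (t0 : ℝ) ≤ 1024 * T → 1024 * T ≤ (t1 : ℝ) → P x y T) :
    ∀ (t : Tr) (x0 x1 y0 y1 t0 t1 : ℕ), Chk lf sk t x0 x1 y0 y1 t0 t1 →
      ∀ x y T : ℝ, (x0 : ℝ) ≤ 1024 * x → 1024 * x ≤ (x1 : ℝ) → (y0 : ℝ) ≤ 1024 * y →
      1024 * y ≤ (y1 : ℝ) → (t0 : ℝ) ≤ 1024 * T → 1024 * T ≤ (t1 : ℝ) →
      (sk = true → x ≤ y ∧ ((x0 : ℝ) < 1024 * x ∨ x0 = 0) ∧ (1024 * y < (y1 : ℝ) ∨ y1 = 1024)) →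
      P x y T
  | Tr.S, x0, x1, y0, y1, t0, t1, h, x, y, T, a1, a2, b1, b2, c1, c2, hs => by
    obtain ⟨h1, h2⟩ := h
    obtain ⟨e1, e2, e3⟩ := hs h1
    have h2' : (y1 : ℝ) ≤ (x0 : ℝ) := by exact_mod_cast h2
    exfalso
    rcases e2 with e2 | e2
    · linarith
    · rw [e2] at h2' h2
      rcases e3 with e3 | e3
      · have : (0 : ℝ) ≤ (y0 : ℝ) := Nat.cast_nonneg _
        push_cast at h2'
        linarith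
      · rw [e3] at h2; omega
  | Tr.L ls, x0, x1, y0, y1, t0, t1, h, x, y, T, a1, a2, b1, b2, c1, c2, hs =>
    hlf ls x0 x1 y0 y1 t0 t1 h x y T a1 a2 b1 b2 c1 c2
  | Tr.N 0 m a b, x0, x1, y0, y1, t0, t1, h, x, y, T, a1, a2, b1, b2, c1, c2, hs => by
    obtain ⟨h1, h2⟩ := h
    rcases le_or_gt (1024 * x) (m : ℝ) with hm | hm
    · exact Chk_sound hlf a x0 m y0 y1 t0 t1 h1 x y T a1 hm b1 b2 c1 c2 hs
    · exact Chk_sound hlf b m x1 y0 y1 t0 t1 h2 x y T hm.le a2 b1 b2 c1 c2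
        (fun hk => ⟨(hs hk).1, Or.inl hm, (hs hk).2.2⟩)
  | Tr.N 1 m a b, x0, x1, y0, y1, t0, t1, h, x, y, T, a1, a2, b1, b2, c1, c2, hs => by
    obtain ⟨h1, h2⟩ := h
    rcases lt_or_ge (1024 * y) (m : ℝ) with hm | hm
    · exact Chk_sound hlf a x0 x1 y0 m t0 t1 h1 x y T a1 a2 b1 hm.le c1 c2
        (fun hk => ⟨(hs hk).1, (hs hk).2.1, Or.inl hm⟩)
    · exact Chk_sound hlf b x0 x1 m y1 t0 t1 h2 x y T a1 a2 hm b2 c1 c2 hs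
  | Tr.N (k + 2) m a b, x0, x1, y0, y1, t0, t1, h, x, y, T, a1, a2, b1, b2, c1, c2, hs => by
    obtain ⟨h1, h2⟩ := h
    rcases le_total (1024 * T) (m : ℝ) with hm | hm
    · exact Chk_sound hlf a x0 x1 y0 y1 t0 m h1 x y T a1 a2 b1 b2 c1 hm hs
    · exact Chk_sound hlf b x0 x1 y0 y1 m t1 h2 x y T a1 a2 b1 b2 hm c2 hs

lemma NI_nn (n : ℕ) : 0 ≤ NI n := by simp [NI]

lemma NI_cast (n : ℕ) : ((NI n : ℤ) : ℝ) = (n : ℝ) := by simp [NI]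

theorem leafL_sound {c : ℕ} {g : Gc ℤ} {ls : List ℕ} {x0 x1 y0 y1 t0 t1 : ℕ}
    (h : leafL c g ls x0 x1 y0 y1 t0 t1 = true) {x y T : ℝ} (a1 : (x0 : ℝ) ≤ 1024 * x)
    (a2 : 1024 * x ≤ (x1 : ℝ)) (b1 : (y0 : ℝ) ≤ 1024 * y) (b2 : 1024 * y ≤ (y1 : ℝ))
    (c1 : (t0 : ℝ) ≤ 1024 * T) (c2 : 1024 * T ≤ (t1 : ℝ)) :
    (c = 0 → GoodB (gR g) 1 x y T) ∧ (c = 1 → GoodB (gR g) (-1) y x T) ∧
    (c = 2 → GoodK (gR g) x 1 y T) ∧ (c = 3 → GoodK (gR g) x y 1 T) := by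
  unfold leafL at h
  match ls, h with
  | [d0, d1, d2, d3, d4, d5, d6, d7, e0, e1, e2, e3, e4, e5, e6, e7, tb], h =>
    simp only at h
    have a1' : ((NI x0 : ℤ) : ℝ) ≤ 1024 * x := by rw [NI_cast]; exact a1
    have a2' : 1024 * x ≤ ((NI x1 : ℤ) : ℝ) := by rw [NI_cast]; exact a2
    have b1' : ((NI y0 : ℤ) : ℝ) ≤ 1024 * y := by rw [NI_cast]; exact b1
    have b2' : 1024 * y ≤ ((NI y1 : ℤ) : ℝ) := by rw [NI_cast]; exact b2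
    have c1' : ((NI t0 : ℤ) : ℝ) ≤ 1024 * T := by rw [NI_cast]; exact c1
    have c2' : 1024 * T ≤ ((NI t1 : ℤ) : ℝ) := by rw [NI_cast]; exact c2
    have L1 : Lnn ⟨NI d0, NI d1, NI d2, NI d3, NI d4, NI d5, NI d6, NI d7⟩ :=
      ⟨NI_nn _, NI_nn _, NI_nn _, NI_nn _⟩
    have L2 : Lnn ⟨NI e0, NI e1, NI e2, NI e3, NI e4, NI e5, NI e6, NI e7⟩ :=
      ⟨NI_nn _, NI_nn _, NI_nn _, NI_nn _⟩
    refine ⟨?_, ?_, ?_, ?_⟩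
    · rintro rfl
      have := leafB_sound L1 L2 (NI_nn tb) h a1' a2' b1' b2' c1' c2'
      simpa using this
    · rintro rfl
      have := leafB_sound L1 L2 (NI_nn tb) h b1' b2' a1' a2' c1' c2'
      simpa using this
    · rintro rfl
      exact leafK1_sound L1 L2 (NI_nn tb) (NI_nn _) (NI_nn _) h a1' a2' b1' b2' c1' c2'
    · rintro rfl
      exact leafK2_sound L1 L2 (NI_nn tb) (NI_nn _) (NI_nn _) h a1' a2' b1' b2' c1' c2'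

/-- the four charts of one `(τ, β)` cell are certified -/
def Zone (g : Gc ℤ) (t0 t1 : ℕ) : Prop :=
  (∃ t, Chk (leafL 0 g) true t 0 1024 0 1024 t0 t1) ∧
  (∃ t, Chk (leafL 1 g) true t 0 1024 0 1024 t0 t1) ∧
  (∃ t, Chk (leafL 2 g) false t 0 1024 0 1024 t0 t1) ∧
  (∃ t, Chk (leafL 3 g) false t 0 1024 0 1024 t0 t1)

theorem Zone.good {g : Gc ℤ} {t0 t1 : ℕ} (h : Zone g t0 t1) {T : ℝ} (c1 : (t0 : ℝ) ≤ 1024 * T)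
    (c2 : 1024 * T ≤ (t1 : ℝ)) :
    (∀ x y : ℝ, 0 ≤ x → x ≤ y → y ≤ 1 → GoodB (gR g) 1 x y T) ∧
    (∀ x y : ℝ, 0 ≤ x → x ≤ y → y ≤ 1 → GoodB (gR g) (-1) y x T) ∧
    (∀ x y : ℝ, 0 ≤ x → x ≤ 1 → 0 ≤ y → y ≤ 1 → GoodK (gR g) x 1 y T) ∧
    (∀ x y : ℝ, 0 ≤ x → x ≤ 1 → 0 ≤ y → y ≤ 1 → GoodK (gR g) x y 1 T) := by
  obtain ⟨⟨t, h0⟩, ⟨t', h1⟩, ⟨t'', h2⟩, ⟨t''', h3⟩⟩ := h
  have fin : ∀ x y : ℝ, 0 ≤ x → x ≤ y → y ≤ 1 → x ≤ y ∧ (((0 : ℕ) : ℝ) < 1024 * x ∨ (0 : ℕ) = 0) ∧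
      (1024 * y < ((1024 : ℕ) : ℝ) ∨ (1024 : ℕ) = 1024) :=
    fun x y _ hxy _ => ⟨hxy, Or.inr rfl, Or.inr rfl⟩
  have k0 : ∀ x : ℝ, 0 ≤ x → ((0 : ℕ) : ℝ) ≤ 1024 * x := fun x hx => by push_cast; linarith
  have k1 : ∀ x : ℝ, x ≤ 1 → 1024 * x ≤ ((1024 : ℕ) : ℝ) := fun x hx => by push_cast; linarith
  refine ⟨fun x y hx hxy hy => ?_, fun x y hx hxy hy => ?_, fun x y hx hx' hy hy' => ?_,
    fun x y hx hx' hy hy' => ?_⟩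
  · exact Chk_sound (P := fun x y T => GoodB (gR g) 1 x y T)
      (fun ls x0 x1 y0 y1 t0 t1 h x y T q1 q2 q3 q4 q5 q6 => (leafL_sound h q1 q2 q3 q4 q5 q6).1 rfl)
      t 0 1024 0 1024 t0 t1 h0 x y T (k0 x hx) (k1 x (hxy.trans hy)) (k0 y (hx.trans hxy)) (k1 y hy)
      c1 c2 (fun _ => fin x y hx hxy hy)
  · exact Chk_sound (P := fun x y T => GoodB (gR g) (-1) y x T)
      (fun ls x0 x1 y0 y1 t0 t1 h x y T q1 q2 q3 q4 q5 q6 =>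
        (leafL_sound h q1 q2 q3 q4 q5 q6).2.1 rfl)
      t' 0 1024 0 1024 t0 t1 h1 x y T (k0 x hx) (k1 x (hxy.trans hy)) (k0 y (hx.trans hxy)) (k1 y hy)
      c1 c2 (fun _ => fin x y hx hxy hy)
  · exact Chk_sound (P := fun x y T => GoodK (gR g) x 1 y T)
      (fun ls x0 x1 y0 y1 t0 t1 h x y T q1 q2 q3 q4 q5 q6 =>
        (leafL_sound h q1 q2 q3 q4 q5 q6).2.2.1 rfl)
      t'' 0 1024 0 1024 t0 t1 h2 x y T (k0 x hx) (k1 x hx') (k0 y hy) (k1 y hy')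
      c1 c2 (fun hk => by simp at hk)
  · exact Chk_sound (P := fun x y T => GoodK (gR g) x y 1 T)
      (fun ls x0 x1 y0 y1 t0 t1 h x y T q1 q2 q3 q4 q5 q6 =>
        (leafL_sound h q1 q2 q3 q4 q5 q6).2.2.2 rfl)
      t''' 0 1024 0 1024 t0 t1 h3 x y T (k0 x hx) (k1 x hx') (k0 y hy) (k1 y hy')
      c1 c2 (fun hk => by simp at hk)

end Pool.G1.NB
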