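import Pool.Agent.Work.MP_b5407d_nb.P2A_g

/-! leaves of the zone P2A -/

set_option autoImplicit false

namespace Pool.G1.NB.P2A

theorem lf16 : leafL 1 g [58662, 76174, 69905, 72403, 19973, 16183, 47, 5, 58254, 65536, 69905, 67723, 17477, 16884, 36, 4, 15585] 0 128 128 256 0 256 = true := by decide +kernel

theorem lf17 : leafL 1 g [58662, 76174, 69905, 72403, 19973, 15192, 40, 5, 58662, 76174, 69905, 72403, 19973, 15192, 40, 5, 401] 128 256 128 256 0 256 = true := by decide +kernel

theorem lf18 : leafL 1 g [59075, 90688, 69905, 77781, 23046, 13492, 26, 5, 58254, 69905, 69905, 70219, 18725, 14654, 18, 4, 138] 0 256 256 384 0 256 = true := by decide +kernel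

theorem lf19 : leafL 1 g [59494, 111662, 69905, 84022, 26887, 11270, 21, 6, 58254, 69905, 69905, 70219, 18725, 12131, 12, 4, 1226] 0 256 384 512 0 256 = true := by decide +kernel

theorem lf20 : leafL 1 g [62138, 92949, 67650, 77781, 23046, 11372, 15, 4, 62138, 92949, 67650, 77781, 23046, 11372, 15, 4, 626] 256 384 256 384 0 128 = true := by decide +kernel

theorem lf21 : leafL 1 g [62369, 114034, 67650, 84022, 26887, 9911, 19, 5, 62138, 92949, 67650, 77781, 23046, 10445, 15, 4, 17813] 256 384 384 512 0 128 = true := by decide +kernel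

theorem lf22 : leafL 1 g [62369, 114034, 67650, 84022, 26887, 9117, 19, 5, 62369, 114034, 67650, 84022, 26887, 9117, 19, 5, 35404] 384 512 384 512 0 128 = true := by decide +kernel

theorem lf23 : leafL 1 g [56680, 98112, 72316, 81142, 24967, 9049, 17, 5, 56680, 98112, 72316, 81142, 24967, 9049, 17, 5, 18166] 256 512 256 512 128 256 = true := by decide +kernel

theorem lf24 : leafL 1 g [59919, 167772, 69905, 96121, 34953, 9570, 33, 7, 58254, 69905, 69905, 70219, 18725, 11555, 12, 4, 25596] 0 256 512 768 0 256 = true := by decide +kernel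

theorem lf25 : leafL 1 g [60787, 363143, 69905, 117966, 52429, 128, 8572, 5679, 58254, 69905, 69905, 70219, 18725, 14685, 68, 19, 167441] 0 256 768 1024 0 256 = true := by decide +kernel

theorem lf26 : leafL 1 g [59919, 176231, 69905, 109228, 43691, 7715, 8, 2, 59075, 99273, 69905, 81142, 24967, 8867, 4, 1, 54282] 256 512 512 1024 0 256 = true := by decide +kernel

theorem lf27 : leafL 1 g [59919, 176231, 69905, 109228, 43691, 7793, 3388, 12, 59919, 176231, 69905, 109228, 43691, 7793, 3388, 12, 183169] 512 1024 512 1024 0 256 = true := by decide +kernel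

theorem lf28 : leafL 2 g [69905, 71736, 63550, 67723, 17477, 5769, 6, 5, 61681, 67650, 67650, 67723, 17477, 4766, 5, 5, 37255] 0 128 0 1024 0 128 = true := by decide +kernel

theorem lf29 : leafL 2 g [69615, 82443, 63550, 72403, 19973, 6826, 48, 25, 61681, 72316, 67650, 70219, 18725, 7616, 27, 31, 90188] 128 256 0 1024 0 128 = true := by decide +kernel

theorem lf30 : leafL 2 g [79892, 81049, 59919, 70219, 18725, 7926, 33, 22, 55554, 68618, 72316, 70219, 18725, 5817, 23, 28, 80960] 0 256 0 1024 128 256 = true := by decide +kernel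

theorem lf31 : leafL 2 g [73584, 107546, 61681, 81142, 24967, 6849, 276, 26, 58254, 69905, 69905, 70219, 18725, 9526, 27, 33, 95295] 256 512 0 512 0 256 = true := by decide +kernel

end Pool.G1.NB.P2A
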