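import Pool.Agent.Work.MP_b5407d_nb.P2A_g

/-! leaves of the zone P2A -/

set_option autoImplicit false

namespace Pool.G1.NB.P2A

theorem lf32 : leafL 2 g [73584, 107546, 61681, 81142, 24967, 5807, 9, 6, 58662, 89122, 69905, 78645, 23302, 7129, 8, 6, 75279] 256 512 512 1024 0 256 = true := by decide +kernel

theorem lf33 : leafL 2 g [72316, 187246, 61681, 109228, 43691, 5729, 9661, 91, 58254, 80660, 69905, 76461, 21846, 13412, 93, 78, 183623] 512 1024 0 512 0 256 = true := by decide +kernel

theorem lf34 : leafL 2 g [72316, 187246, 61681, 109228, 43691, 6727, 4062, 211, 59075, 114131, 69905, 102988, 37450, 11835, 333, 111, 193623] 512 1024 512 1024 0 256 = true := by decide +kernel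

theorem lf35 : leafL 3 g [69905, 71736, 63550, 67723, 17477, 5141, 5, 6, 61681, 67650, 67650, 67723, 17477, 5750, 6, 5, 39314] 0 128 0 1024 0 128 = true := by decide +kernel

theorem lf36 : leafL 3 g [69905, 76434, 63550, 70219, 18725, 8149, 28, 32, 61909, 78352, 67650, 72403, 19973, 6450, 50, 26, 91958] 128 256 0 1024 0 128 = true := by decide +kernel

theorem lf37 : leafL 3 g [79892, 81049, 59919, 70219, 18725, 9728, 5, 7, 55554, 68618, 72316, 70219, 18725, 5552, 7, 5, 51693] 0 256 0 1024 128 256 = true := by decide +kernel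

theorem lf38 : leafL 3 g [74898, 78034, 61681, 70219, 18725, 9312, 13, 15, 59075, 99273, 69905, 81142, 24967, 6962, 446, 13, 103534] 256 512 0 512 0 256 = true := by decide +kernel

theorem lf39 : leafL 3 g [74235, 97542, 61681, 78645, 23302, 7382, 8, 6, 59075, 99273, 69905, 81142, 24967, 5622, 9, 6, 75656] 256 512 512 1024 0 256 = true := by decide +kernel

theorem lf40 : leafL 3 g [74898, 83158, 61681, 73099, 20165, 14725, 87, 94, 59919, 167772, 69905, 96121, 34953, 3405, 8292, 144, 167068] 512 768 0 512 0 256 = true := by decide +kernel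

theorem lf41 : leafL 3 g [73584, 124830, 61681, 89880, 29960, 10595, 64, 37, 59919, 167772, 69905, 96121, 34953, 5824, 408, 47, 137630] 512 768 512 1024 0 256 = true := by decide +kernel

theorem lf42 : leafL 3 g [74898, 89241, 61681, 76461, 21846, 17085, 178, 37, 60787, 363143, 69905, 117966, 52429, 5362, 21900, 76, 206967] 768 1024 0 512 0 256 = true := by decide +kernel

theorem lf43 : leafL 3 g [72944, 149797, 61681, 105867, 40330, 12462, 1250, 119, 60787, 363143, 69905, 117966, 52429, 153, 13578, 4296, 255794] 768 1024 512 1024 0 256 = true := by decide +kernel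

end Pool.G1.NB.P2A
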