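import Pool.Agent.Work.MP_b5407d_nb.P2A_0
import Pool.Agent.Work.MP_b5407d_nb.P2A_1
import Pool.Agent.Work.MP_b5407d_nb.P2A_2
import Pool.Agent.Work.MP_b5407d_nb.NBcov

/-! the zone P2A -/

set_option autoImplicit false

namespace Pool.G1.NB.P2A

theorem ch0 : ∃ t, Chk (leafL 0 g) true t 0 1024 0 1024 0 256 := ⟨_,
  (Chk.n0 (Chk.n1 (Chk.n0 (Chk.n1 (Chk.n2 (Chk.n0 (Chk.l lf0) (Chk.l lf1)) (Chk.l lf2)) (Chk.n2 (Chk.l lf3) (Chk.l lf4))) (Chk.n1 (Chk.s rfl) (Chk.n2 (Chk.n0 (Chk.n1 (Chk.l lf5) (Chk.l lf6)) (Chk.n1 (Chk.s rfl) (Chk.l lf7))) (Chk.l lf8)))) (Chk.n0 (Chk.n1 (Chk.n0 (Chk.l lf9) (Chk.l lf10)) (Chk.l lf11)) (Chk.n2 (Chk.l lf12) (Chk.l lf13)))) (Chk.n1 (Chk.s rfl) (Chk.l lf14)))⟩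

theorem ch1 : ∃ t, Chk (leafL 1 g) true t 0 1024 0 1024 0 256 := ⟨_,
  (Chk.n1 (Chk.n0 (Chk.n1 (Chk.n0 (Chk.n1 (Chk.n0 (Chk.l lf15) (Chk.s rfl)) (Chk.n0 (Chk.l lf16) (Chk.l lf17))) (Chk.s rfl)) (Chk.n0 (Chk.n1 (Chk.l lf18) (Chk.l lf19)) (Chk.n2 (Chk.n0 (Chk.n1 (Chk.l lf20) (Chk.l lf21)) (Chk.n1 (Chk.s rfl) (Chk.l lf22))) (Chk.l lf23)))) (Chk.s rfl)) (Chk.n0 (Chk.n0 (Chk.n1 (Chk.l lf24) (Chk.l lf25)) (Chk.l lf26)) (Chk.l lf27)))⟩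

theorem ch2 : ∃ t, Chk (leafL 2 g) false t 0 1024 0 1024 0 256 := ⟨_,
  (Chk.n0 (Chk.n0 (Chk.n2 (Chk.n0 (Chk.l lf28) (Chk.l lf29)) (Chk.l lf30)) (Chk.n1 (Chk.l lf31) (Chk.l lf32))) (Chk.n1 (Chk.l lf33) (Chk.l lf34)))⟩

theorem ch3 : ∃ t, Chk (leafL 3 g) false t 0 1024 0 1024 0 256 := ⟨_,
  (Chk.n0 (Chk.n0 (Chk.n2 (Chk.n0 (Chk.l lf35) (Chk.l lf36)) (Chk.l lf37)) (Chk.n1 (Chk.l lf38) (Chk.l lf39))) (Chk.n0 (Chk.n1 (Chk.l lf40) (Chk.l lf41)) (Chk.n1 (Chk.l lf42) (Chk.l lf43))))⟩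

theorem zone : Zone g 0 256 := ⟨ch0, ch1, ch2, ch3⟩

end Pool.G1.NB.P2A
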