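import Pool.Agent.Work.MP_b5407d_nb.P2B_g

/-! leaves of the zone P2B -/

set_option autoImplicit false

namespace Pool.G1.NB.P2B

theorem lf16 : leafL 3 g [97542, 106998, 55188, 85199, 26215, 17049, 1057, 1095, 51782, 159783, 80660, 96121, 34953, 2135, 16980, 1322, 295173] 512 768 0 1024 256 512 = true := by decide +kernel

theorem lf17 : leafL 3 g [96421, 106998, 55188, 91025, 29128, 20401, 1345, 830, 53431, 333875, 80660, 110685, 46604, 1756, 30019, 578, 274550] 768 896 0 1024 256 512 = true := by decide +kernel

theorem lf18 : leafL 3 g [95325, 106998, 55188, 98305, 32768, 20703, 99, 373, 54471, 726286, 80660, 123792, 58255, 3254, 36075, 204, 194425] 896 1024 0 1024 256 512 = true := by decide +kernel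

end Pool.G1.NB.P2B
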