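import Pool.Agent.Work.MP_b5407d_nb.P2B_0
import Pool.Agent.Work.MP_b5407d_nb.P2B_1
import Pool.Agent.Work.MP_b5407d_nb.NBcov

/-! the zone P2B -/

set_option autoImplicit false

namespace Pool.G1.NB.P2B

theorem ch0 : ∃ t, Chk (leafL 0 g) true t 0 1024 0 1024 256 512 := ⟨_,
  (Chk.n1 (Chk.n0 (Chk.n0 (Chk.l lf0) (Chk.l lf1)) (Chk.s rfl)) (Chk.n0 (Chk.l lf2) (Chk.l lf3)))⟩

theorem ch1 : ∃ t, Chk (leafL 1 g) true t 0 1024 0 1024 256 512 := ⟨_,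
  (Chk.n1 (Chk.n0 (Chk.n0 (Chk.n0 (Chk.l lf4) (Chk.l lf5)) (Chk.n0 (Chk.l lf6) (Chk.l lf7))) (Chk.s rfl)) (Chk.n0 (Chk.l lf8) (Chk.l lf9)))⟩

theorem ch2 : ∃ t, Chk (leafL 2 g) false t 0 1024 0 1024 256 512 := ⟨_,
  (Chk.n0 (Chk.n0 (Chk.l lf10) (Chk.l lf11)) (Chk.n1 (Chk.l lf12) (Chk.l lf13)))⟩

theorem ch3 : ∃ t, Chk (leafL 3 g) false t 0 1024 0 1024 256 512 := ⟨_,
  (Chk.n0 (Chk.n0 (Chk.l lf14) (Chk.l lf15)) (Chk.n0 (Chk.l lf16) (Chk.n0 (Chk.l lf17) (Chk.l lf18))))⟩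

theorem zone : Zone g 256 512 := ⟨ch0, ch1, ch2, ch3⟩

end Pool.G1.NB.P2B
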