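import Pool.Agent.Work.MP_b5407d_nb.P2C_g

/-! leaves of the zone P2C -/

set_option autoImplicit false

namespace Pool.G1.NB.P2C

theorem lf16 : leafL 2 g [149797, 116508, 47663, 76461, 21846, 15242, 547, 66, 38836, 62415, 104858, 76461, 21846, 908, 114, 110, 138900] 0 512 512 1024 512 1024 = true := by decide +kernel

theorem lf17 : leafL 2 g [124830, 213995, 47663, 109228, 43691, 10520, 4935, 30, 41943, 90786, 104858, 102988, 37450, 9134, 4377, 921, 247092] 512 1024 512 1024 512 1024 = true := by decide +kernel

theorem lf18 : leafL 3 g [166441, 107546, 47663, 70219, 18725, 33273, 44, 5049, 38130, 54828, 104858, 70219, 18725, 3669, 6039, 39, 116044] 0 256 0 1024 512 1024 = true := by decide +kernel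

theorem lf19 : leafL 3 g [149797, 116508, 47663, 76461, 21846, 19536, 4352, 745, 40330, 82241, 104858, 81142, 24967, 3390, 15605, 300, 370343] 256 512 0 1024 512 1024 = true := by decide +kernel

theorem lf20 : leafL 3 g [136179, 124830, 47663, 85199, 26215, 11717, 145, 100, 42799, 147169, 104858, 96121, 34953, 9929, 25311, 29, 240095] 512 768 0 1024 512 1024 = true := by decide +kernel

theorem lf21 : leafL 3 g [130258, 124830, 47663, 91025, 29128, 16277, 612, 204, 45100, 319566, 104858, 110685, 46604, 10555, 28547, 135, 249278] 768 896 0 1024 512 1024 = true := by decide +kernel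

theorem lf22 : leafL 3 g [124830, 124830, 47663, 98305, 32768, 16726, 59, 131, 46603, 704925, 104858, 123792, 58255, 8291, 36706, 114, 190564] 896 1024 0 1024 512 1024 = true := by decide +kernel

end Pool.G1.NB.P2C
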