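import Pool.Agent.Work.MP_b5407d_nb.P2C_0
import Pool.Agent.Work.MP_b5407d_nb.P2C_1
import Pool.Agent.Work.MP_b5407d_nb.NBcov

/-! the zone P2C -/

set_option autoImplicit false

namespace Pool.G1.NB.P2C

theorem ch0 : ∃ t, Chk (leafL 0 g) true t 0 1024 0 1024 512 1024 := ⟨_,
  (Chk.n2 (Chk.n2 (Chk.n2 (Chk.n0 (Chk.l lf0) (Chk.l lf1)) (Chk.l lf2)) (Chk.n2 (Chk.n0 (Chk.l lf3) (Chk.l lf4)) (Chk.n1 (Chk.n0 (Chk.l lf5) (Chk.s rfl)) (Chk.l lf6)))) (Chk.n0 (Chk.n1 (Chk.l lf7) (Chk.n1 (Chk.l lf8) (Chk.l lf9))) (Chk.n0 (Chk.l lf10) (Chk.l lf11))))⟩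

theorem ch1 : ∃ t, Chk (leafL 1 g) true t 0 1024 0 1024 512 1024 := ⟨_,
  (Chk.n0 (Chk.n1 (Chk.l lf12) (Chk.l lf13)) (Chk.n1 (Chk.s rfl) (Chk.l lf14)))⟩

theorem ch2 : ∃ t, Chk (leafL 2 g) false t 0 1024 0 1024 512 1024 := ⟨_,
  (Chk.n1 (Chk.l lf15) (Chk.n0 (Chk.l lf16) (Chk.l lf17)))⟩

theorem ch3 : ∃ t, Chk (leafL 3 g) false t 0 1024 0 1024 512 1024 := ⟨_,
  (Chk.n0 (Chk.n0 (Chk.l lf18) (Chk.l lf19)) (Chk.n0 (Chk.l lf20) (Chk.n0 (Chk.l lf21) (Chk.l lf22))))⟩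

theorem zone : Zone g 512 1024 := ⟨ch0, ch1, ch2, ch3⟩

end Pool.G1.NB.P2C
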