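import Pool.Agent.Work.MP_b5407d_nb.NBfin
import Pool.Agent.Work.MP_b5407d_nb.P2A_z
import Pool.Agent.Work.MP_b5407d_nb.P2B_z
import Pool.Agent.Work.MP_b5407d_nb.P2C_z

/-!
# `FIN6at 0 τ β` for `1/8 ≤ β ≤ 1/4`, all `τ` in `(0,1)`
-/

set_option autoImplicit false

namespace Pool.G1.NB

open Pool.G1.Gap

/-- the complete zone `1/8 ≤ β ≤ 1/4` -/
theorem fin6_P2 {τ β : ℝ} (hτ0 : 0 < τ) (hτ1 : τ < 1) (h1 : 1 / 8 ≤ β) (h2 : β ≤ 1 / 4) :
    FIN6at 0 τ β := by
  have b1 : (8192 : ℝ) ≤ 65536 * β := by linarith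
  have b2 : 65536 * β ≤ (16384 : ℝ) := by linarith
  rcases le_total (1024 * τ) 256 with c1 | c1
  · refine P2A.zone.fin6 hτ0 hτ1 (by push_cast; linarith) (by push_cast; linarith) ?_ ?_
      (by linarith) (by linarith)
    · simpa [P2A.g] using b1
    · simpa [P2A.g] using b2
  · rcases le_total (1024 * τ) 512 with c2 | c2
    · refine P2B.zone.fin6 hτ0 hτ1 (by push_cast; linarith) (by push_cast; linarith) ?_ ?_
        (by linarith) (by linarith)
      · simpa [P2B.g] using b1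
      · simpa [P2B.g] using b2
    · refine P2C.zone.fin6 hτ0 hτ1 (by push_cast; linarith) (by push_cast; linarith) ?_ ?_
        (by linarith) (by linarith)
      · simpa [P2C.g] using b1
      · simpa [P2C.g] using b2

/-- the zone in the shape used by the assembly -/
theorem P2_all : ∀ τ th : ℝ, 0 < τ → τ < 1 → 1 / 8 ≤ th → th ≤ 1 / 4 → FIN6at 0 τ th :=
  fun _ _ h0 h1 h2 h3 => fin6_P2 h0 h1 h2 h3

end Pool.G1.NB
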