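import Pool.Agent.Work.MP_b5407d_nb.NBqf

/-!
# Bernstein coefficients from nodal values
-/

set_option autoImplicit false

namespace Pool.G1.NB

def Cub (f : ℝ → ℝ) : Prop := ∃ c0 c1 c2 c3 : ℝ, ∀ x, f x = c0 + c1 * x + c2 * x ^ 2 + c3 * x ^ 3
def Qua (f : ℝ → ℝ) : Prop := ∃ c0 c1 c2 : ℝ, ∀ x, f x = c0 + c1 * x + c2 * x ^ 2

theorem bern4_nn {f : ℝ → ℝ} (hf : Cub f) {a b : ℝ} (h0 : 0 ≤ f (3 * a))
    (h1 : 0 ≤ 18 * f (2 * a + b) + 2 * f (3 * b) - 5 * f (3 * a) - 9 * f (a + 2 * b))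
    (h2 : 0 ≤ 2 * f (3 * a) + 18 * f (a + 2 * b) - 9 * f (2 * a + b) - 5 * f (3 * b))
    (h3 : 0 ≤ f (3 * b)) {X : ℝ} (hX : 3 * a ≤ X) (hX' : X ≤ 3 * b) : 0 ≤ f X := by
  rcases (show a ≤ b by linarith).eq_or_lt with rfl | hab
  · have : X = 3 * a := le_antisymm hX' hX
    rw [this]; exact h0
  obtain ⟨t, ht⟩ : ∃ t, t = (X - 3 * a) / (3 * (b - a)) := ⟨_, rfl⟩
  have hd : 0 < 3 * (b - a) := by linarith
  have hXt : X = 3 * a + 3 * (b - a) * t := by rw [ht]; field_simp; ring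
  have t0 : 0 ≤ t := by rw [ht]; exact div_nonneg (by linarith) hd.le
  have t1 : 0 ≤ 1 - t := by
    rw [ht, sub_nonneg, div_le_one hd]; linarith
  have key : f X = (1 - t) ^ 3 * f (3 * a) +
      t * (1 - t) ^ 2 / 2 * (18 * f (2 * a + b) + 2 * f (3 * b) - 5 * f (3 * a) - 9 * f (a + 2 * b)) +
      t ^ 2 * (1 - t) / 2 *
        (2 * f (3 * a) + 18 * f (a + 2 * b) - 9 * f (2 * a + b) - 5 * f (3 * b)) +
      t ^ 3 * f (3 * b) := by
    obtain ⟨c0, c1, c2, c3, hc⟩ := hf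
    rw [hXt, hc, hc, hc, hc, hc]
    ring
  rw [key]
  have e1 := mul_nonneg (pow_nonneg t1 3) h0
  have e2 : 0 ≤ t * (1 - t) ^ 2 / 2 := by positivity
  have e3 : 0 ≤ t ^ 2 * (1 - t) / 2 := by positivity
  have e4 := mul_nonneg (pow_nonneg t0 3) h3
  have e5 := mul_nonneg e2 h1
  have e6 := mul_nonneg e3 h2
  linarith

theorem bern3_nn {f : ℝ → ℝ} (hf : Qua f) {a b : ℝ} (h0 : 0 ≤ f (2 * a))
    (h1 : 0 ≤ 4 * f (a + b) - f (2 * a) - f (2 * b))
    (h3 : 0 ≤ f (2 * b)) {X : ℝ} (hX : 2 * a ≤ X) (hX' : X ≤ 2 * b) : 0 ≤ f X := by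
  rcases (show a ≤ b by linarith).eq_or_lt with rfl | hab
  · have : X = 2 * a := le_antisymm hX' hX
    rw [this]; exact h0
  obtain ⟨t, ht⟩ : ∃ t, t = (X - 2 * a) / (2 * (b - a)) := ⟨_, rfl⟩
  have hd : 0 < 2 * (b - a) := by linarith
  have hXt : X = 2 * a + 2 * (b - a) * t := by rw [ht]; field_simp; ring
  have t0 : 0 ≤ t := by rw [ht]; exact div_nonneg (by linarith) hd.le
  have t1 : 0 ≤ 1 - t := by
    rw [ht, sub_nonneg, div_le_one hd]; linarith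
  have key : f X = (1 - t) ^ 2 * f (2 * a) +
      t * (1 - t) * (4 * f (a + b) - f (2 * a) - f (2 * b)) + t ^ 2 * f (2 * b) := by
    obtain ⟨c0, c1, c2, hc⟩ := hf
    rw [hXt, hc, hc, hc, hc]
    ring
  rw [key]
  have e1 := mul_nonneg (pow_nonneg t1 2) h0
  have e2 : 0 ≤ t * (1 - t) := by positivity
  have e4 := mul_nonneg (pow_nonneg t0 2) h3
  have e5 := mul_nonneg e2 h1
  linarith

lemma Cub.comb {f1 f2 f3 f4 : ℝ → ℝ} (h1 : Cub f1) (h2 : Cub f2) (h3 : Cub f3) (h4 : Cub f4)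
    (a1 a2 a3 a4 : ℝ) : Cub (fun x => a1 * f1 x + a2 * f2 x + a3 * f3 x + a4 * f4 x) := by
  obtain ⟨a, b, c, d, ha⟩ := h1
  obtain ⟨a', b', c', d', hb⟩ := h2
  obtain ⟨a'', b'', c'', d'', hc⟩ := h3
  obtain ⟨a₃, b₃, c₃, d₃, hd⟩ := h4
  refine ⟨a1 * a + a2 * a' + a3 * a'' + a4 * a₃, a1 * b + a2 * b' + a3 * b'' + a4 * b₃,
    a1 * c + a2 * c' + a3 * c'' + a4 * c₃, a1 * d + a2 * d' + a3 * d'' + a4 * d₃, fun x => ?_⟩
  simp only [ha, hb, hc, hd]
  ring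

lemma Qua.comb {f1 f2 f3 f4 : ℝ → ℝ} (h1 : Qua f1) (h2 : Qua f2) (h3 : Qua f3) (h4 : Qua f4)
    (a1 a2 a3 a4 : ℝ) : Qua (fun x => a1 * f1 x + a2 * f2 x + a3 * f3 x + a4 * f4 x) := by
  obtain ⟨a, b, c, ha⟩ := h1
  obtain ⟨a', b', c', hb⟩ := h2
  obtain ⟨a'', b'', c'', hc⟩ := h3
  obtain ⟨a₃, b₃, c₃, hd⟩ := h4
  refine ⟨a1 * a + a2 * a' + a3 * a'' + a4 * a₃, a1 * b + a2 * b' + a3 * b'' + a4 * b₃,
    a1 * c + a2 * c' + a3 * c'' + a4 * c₃, fun x => ?_⟩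
  simp only [ha, hb, hc, hd]
  ring

lemma len_zip4 (f : ℤ → ℤ → ℤ → ℤ → ℤ) : ∀ (A B C D : List ℤ), B.length = A.length →
    C.length = A.length → D.length = A.length → (zip4 f A B C D).length = A.length
  | [], [], [], [], _, _, _ => rfl
  | a :: A, b :: B, c :: C, d :: D, h1, h2, h3 => by
    simp only [zip4, List.length_cons]
    rw [len_zip4 f A B C D (by simpa using h1) (by simpa using h2) (by simpa using h3)]
  | [], b :: B, _, _, h, _, _ => by simp at h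
  | [], [], c :: C, _, _, h, _ => by simp at h
  | [], [], [], d :: D, _, _, h => by simp at h
  | a :: A, [], _, _, h, _, _ => by simp at h
  | a :: A, b :: B, [], _, _, h, _ => by simp at h
  | a :: A, b :: B, c :: C, [], _, _, h => by simp at h

lemma len_zip3 (f : ℤ → ℤ → ℤ → ℤ) : ∀ (A B C : List ℤ), B.length = A.length →
    C.length = A.length → (zip3 f A B C).length = A.length
  | [], [], [], _, _ => rfl
  | a :: A, b :: B, c :: C, h1, h2 => by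
    simp only [zip3, List.length_cons]
    rw [len_zip3 f A B C (by simpa using h1) (by simpa using h2)]
  | [], b :: B, _, h, _ => by simp at h
  | [], [], c :: C, _, h => by simp at h
  | a :: A, [], _, h, _ => by simp at h
  | a :: A, b :: B, [], _, h => by simp at h

lemma dot_zip4 (f : ℤ → ℤ → ℤ → ℤ → ℤ) (a1 a2 a3 a4 : ℝ)
    (hf : ∀ a b c d : ℤ, ((f a b c d : ℤ) : ℝ) = a1 * a + a2 * b + a3 * c + a4 * d) :
    ∀ (A B C D : List ℤ) (w : List ℝ), B.length = A.length →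
    C.length = A.length → D.length = A.length → dotL (rc (zip4 f A B C D)) w =
      a1 * dotL (rc A) w + a2 * dotL (rc B) w + a3 * dotL (rc C) w + a4 * dotL (rc D) w
  | [], [], [], [], w, _, _, _ => by simp [zip4, rc, dotL]
  | a :: A, b :: B, c :: C, d :: D, [], h1, h2, h3 => by simp [zip4, rc, dotL]
  | a :: A, b :: B, c :: C, d :: D, x :: w, h1, h2, h3 => by
    have ih := dot_zip4 f a1 a2 a3 a4 hf A B C D w (by simpa using h1) (by simpa using h2)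
      (by simpa using h3)
    simp only [rc] at ih
    simp only [zip4, rc, List.map_cons, dotL]
    rw [ih, hf]
    ring
  | [], b :: B, _, _, _, h, _, _ => by simp at h
  | [], [], c :: C, _, _, _, h, _ => by simp at h
  | [], [], [], d :: D, _, _, _, h => by simp at h
  | a :: A, [], _, _, _, h, _, _ => by simp at h
  | a :: A, b :: B, [], _, _, _, h, _ => by simp at h
  | a :: A, b :: B, c :: C, [], _, _, _, h => by simp at h

lemma dot_zip3 (f : ℤ → ℤ → ℤ → ℤ) (a1 a2 a3 : ℝ)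
    (hf : ∀ a b c : ℤ, ((f a b c : ℤ) : ℝ) = a1 * a + a2 * b + a3 * c) :
    ∀ (A B C : List ℤ) (w : List ℝ), B.length = A.length →
    C.length = A.length → dotL (rc (zip3 f A B C)) w =
      a1 * dotL (rc A) w + a2 * dotL (rc B) w + a3 * dotL (rc C) w
  | [], [], [], w, _, _ => by simp [zip3, rc, dotL]
  | a :: A, b :: B, c :: C, [], h1, h2 => by simp [zip3, rc, dotL]
  | a :: A, b :: B, c :: C, x :: w, h1, h2 => by
    have ih := dot_zip3 f a1 a2 a3 hf A B C w (by simpa using h1) (by simpa using h2)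
    simp only [rc] at ih
    simp only [zip3, rc, List.map_cons, dotL]
    rw [ih, hf]
    ring
  | [], b :: B, _, _, h, _ => by simp at h
  | [], [], c :: C, _, _, h => by simp at h
  | a :: A, [], _, _, h, _ => by simp at h
  | a :: A, b :: B, [], _, _, h => by simp at h

lemma bq1_lin (a b c d : ℤ) : ((bq1 a b c d : ℤ) : ℝ) = (-5) * a + 18 * b + (-9) * c + 2 * d := by
  unfold bq1; push_cast; ring
lemma bq2_lin (a b c d : ℤ) : ((bq2 a b c d : ℤ) : ℝ) = 2 * a + (-9) * b + 18 * c + (-5) * d := by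
  unfold bq2; push_cast; ring
lemma bm_lin (a b c : ℤ) : ((bm a b c : ℤ) : ℝ) = (-1) * a + 4 * b + (-1) * c := by
  unfold bm; push_cast; ring

lemma allPsd_cons {m : List ℤ} {ms : List (List ℤ)} (h : allPsd (m :: ms) = true) :
    psd21 m = true ∧ allPsd ms = true := by
  simpa [allPsd, Bool.and_eq_true] using h

/-- soundness of the two-dimensional test, cubic in both variables -/
theorem chk2_sound4 {F : ℤ → ℤ → List ℤ} (v : Fin 6 → ℝ) {fr : ℝ → ℝ → ℝ} {n : ℕ}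
    (hlen : ∀ x y, (F x y).length = n) (hF : ∀ x y : ℤ, dotL (rc (F x y)) (mono v) = fr x y)
    (hx : ∀ y, Cub (fun x => fr x y)) (hy : ∀ x, Cub (fun y => fr x y)) {x0 x1 y0 y1 : ℤ}
    (h : chk2 (fun f => bern4 f x0 x1) F y0 y1 = true) {X Y : ℝ} (h1 : 3 * (x0 : ℝ) ≤ X)
    (h2 : X ≤ 3 * (x1 : ℝ)) (h3 : 3 * (y0 : ℝ) ≤ Y) (h4 : Y ≤ 3 * (y1 : ℝ)) : 0 ≤ fr X Y := by
  unfold chk2 at h
  simp only [Bool.and_eq_true] at h
  obtain ⟨⟨⟨p0, p1⟩, p2⟩, p3⟩ := h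
  simp only [bern4, comb4] at p0 p1 p2 p3
  have L : ∀ x y, (F x y).length = n := hlen
  have z1 : ∀ (y : ℤ), (zip4 bq1 (F (3 * x0) y) (F (2 * x0 + x1) y) (F (x0 + 2 * x1) y)
      (F (3 * x1) y)).length = n := fun y => by
    rw [len_zip4 _ _ _ _ _ (by rw [L, L]) (by rw [L, L]) (by rw [L, L]), L]
  have z2 : ∀ (y : ℤ), (zip4 bq2 (F (3 * x0) y) (F (2 * x0 + x1) y) (F (x0 + 2 * x1) y)
      (F (3 * x1) y)).length = n := fun y => by
    rw [len_zip4 _ _ _ _ _ (by rw [L, L]) (by rw [L, L]) (by rw [L, L]), L]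
  have d1 : ∀ (y : ℤ), dotL (rc (zip4 bq1 (F (3 * x0) y) (F (2 * x0 + x1) y) (F (x0 + 2 * x1) y)
      (F (3 * x1) y))) (mono v) = (-5) * fr (3 * x0) y + 18 * fr (2 * x0 + x1) y +
      (-9) * fr (x0 + 2 * x1) y + 2 * fr (3 * x1) y := fun y => by
    rw [dot_zip4 bq1 _ _ _ _ bq1_lin _ _ _ _ _ (by rw [L, L]) (by rw [L, L]) (by rw [L, L]), hF, hF,
      hF, hF]
    push_cast; ring
  have d2 : ∀ (y : ℤ), dotL (rc (zip4 bq2 (F (3 * x0) y) (F (2 * x0 + x1) y) (F (x0 + 2 * x1) y)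
      (F (3 * x1) y))) (mono v) = 2 * fr (3 * x0) y + (-9) * fr (2 * x0 + x1) y +
      18 * fr (x0 + 2 * x1) y + (-5) * fr (3 * x1) y := fun y => by
    rw [dot_zip4 bq2 _ _ _ _ bq2_lin _ _ _ _ _ (by rw [L, L]) (by rw [L, L]) (by rw [L, L]), hF, hF,
      hF, hF]
    push_cast; ring
  -- the four functions of X
  have q0 : 0 ≤ fr X (3 * y0) := by
    obtain ⟨a0, p0⟩ := allPsd_cons p0
    obtain ⟨a1, p0⟩ := allPsd_cons p0
    obtain ⟨a2, p0⟩ := allPsd_cons p0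
    obtain ⟨a3, p0⟩ := allPsd_cons p0
    have b0 := psd21_sound _ a0 v
    have b1 := psd21_sound _ a1 v
    have b2 := psd21_sound _ a2 v
    have b3 := psd21_sound _ a3 v
    rw [hF] at b0 b3
    rw [d1] at b1
    rw [d2] at b2
    push_cast at b0 b1 b2 b3
    exact bern4_nn (f := fun x => fr x (3 * y0)) (hx _) (a := x0) (b := x1) b0 (by linarith)
      (by linarith) b3 h1 h2
  have q3 : 0 ≤ fr X (3 * y1) := by
    obtain ⟨a0, p3⟩ := allPsd_cons p3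
    obtain ⟨a1, p3⟩ := allPsd_cons p3
    obtain ⟨a2, p3⟩ := allPsd_cons p3
    obtain ⟨a3, p3⟩ := allPsd_cons p3
    have b0 := psd21_sound _ a0 v
    have b1 := psd21_sound _ a1 v
    have b2 := psd21_sound _ a2 v
    have b3 := psd21_sound _ a3 v
    rw [hF] at b0 b3
    rw [d1] at b1
    rw [d2] at b2
    push_cast at b0 b1 b2 b3
    exact bern4_nn (f := fun x => fr x (3 * y1)) (hx _) (a := x0) (b := x1) b0 (by linarith)
      (by linarith) b3 h1 h2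
  have q1 : 0 ≤ (-5) * fr X (3 * y0) + 18 * fr X (2 * y0 + y1) + (-9) * fr X (y0 + 2 * y1) +
      2 * fr X (3 * y1) := by
    obtain ⟨a0, p1⟩ := allPsd_cons p1
    obtain ⟨a1, p1⟩ := allPsd_cons p1
    obtain ⟨a2, p1⟩ := allPsd_cons p1
    obtain ⟨a3, p1⟩ := allPsd_cons p1
    have b0 := psd21_sound _ a0 v
    have b1 := psd21_sound _ a1 v
    have b2 := psd21_sound _ a2 v
    have b3 := psd21_sound _ a3 v
    rw [dot_zip4 bq1 _ _ _ _ bq1_lin _ _ _ _ _ (by rw [L, L]) (by rw [L, L]) (by rw [L, L]), hF, hF,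
      hF, hF] at b0 b3
    rw [dot_zip4 bq1 _ _ _ _ bq1_lin _ _ _ _ _ (by rw [z1, z1]) (by rw [z1, z1]) (by rw [z1, z1]),
      d1, d1, d1, d1] at b1
    rw [dot_zip4 bq1 _ _ _ _ bq1_lin _ _ _ _ _ (by rw [z2, z2]) (by rw [z2, z2]) (by rw [z2, z2]),
      d2, d2, d2, d2] at b2
    push_cast at b0 b1 b2 b3
    exact bern4_nn (f := fun x => (-5) * fr x (3 * y0) + 18 * fr x (2 * y0 + y1) +
      (-9) * fr x (y0 + 2 * y1) + 2 * fr x (3 * y1)) ((hx _).comb (hx _) (hx _) (hx _) _ _ _ _)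
      (a := x0) (b := x1) b0 (by linarith) (by linarith) b3 h1 h2
  have q2 : 0 ≤ 2 * fr X (3 * y0) + (-9) * fr X (2 * y0 + y1) + 18 * fr X (y0 + 2 * y1) +
      (-5) * fr X (3 * y1) := by
    obtain ⟨a0, p2⟩ := allPsd_cons p2
    obtain ⟨a1, p2⟩ := allPsd_cons p2
    obtain ⟨a2, p2⟩ := allPsd_cons p2
    obtain ⟨a3, p2⟩ := allPsd_cons p2
    have b0 := psd21_sound _ a0 v
    have b1 := psd21_sound _ a1 v
    have b2 := psd21_sound _ a2 v
    have b3 := psd21_sound _ a3 v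
    rw [dot_zip4 bq2 _ _ _ _ bq2_lin _ _ _ _ _ (by rw [L, L]) (by rw [L, L]) (by rw [L, L]), hF, hF,
      hF, hF] at b0 b3
    rw [dot_zip4 bq2 _ _ _ _ bq2_lin _ _ _ _ _ (by rw [z1, z1]) (by rw [z1, z1]) (by rw [z1, z1]),
      d1, d1, d1, d1] at b1
    rw [dot_zip4 bq2 _ _ _ _ bq2_lin _ _ _ _ _ (by rw [z2, z2]) (by rw [z2, z2]) (by rw [z2, z2]),
      d2, d2, d2, d2] at b2
    push_cast at b0 b1 b2 b3
    exact bern4_nn (f := fun x => 2 * fr x (3 * y0) + (-9) * fr x (2 * y0 + y1) +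
      18 * fr x (y0 + 2 * y1) + (-5) * fr x (3 * y1)) ((hx _).comb (hx _) (hx _) (hx _) _ _ _ _)
      (a := x0) (b := x1) b0 (by linarith) (by linarith) b3 h1 h2
  exact bern4_nn (f := fun y => fr X y) (hy _) (a := y0) (b := y1) q0 (by linarith) (by linarith) q3
    h3 h4

/-- soundness of the two-dimensional test, quadratic in the first and cubic in the second variable -/
theorem chk2_sound3 {F : ℤ → ℤ → List ℤ} (v : Fin 6 → ℝ) {fr : ℝ → ℝ → ℝ} {n : ℕ}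
    (hlen : ∀ x y, (F x y).length = n) (hF : ∀ x y : ℤ, dotL (rc (F x y)) (mono v) = fr x y)
    (hx : ∀ y, Qua (fun x => fr x y)) (hy : ∀ x, Cub (fun y => fr x y)) {x0 x1 y0 y1 : ℤ}
    (h : chk2 (fun f => bern3 f x0 x1) F y0 y1 = true) {X Y : ℝ} (h1 : 2 * (x0 : ℝ) ≤ X)
    (h2 : X ≤ 2 * (x1 : ℝ)) (h3 : 3 * (y0 : ℝ) ≤ Y) (h4 : Y ≤ 3 * (y1 : ℝ)) : 0 ≤ fr X Y := by
  unfold chk2 at h
  simp only [Bool.and_eq_true] at h
  obtain ⟨⟨⟨p0, p1⟩, p2⟩, p3⟩ := h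
  simp only [bern3, comb4] at p0 p1 p2 p3
  have L : ∀ x y, (F x y).length = n := hlen
  have z1 : ∀ (y : ℤ), (zip3 bm (F (2 * x0) y) (F (x0 + x1) y) (F (2 * x1) y)).length = n := fun y => by
    rw [len_zip3 _ _ _ _ (by rw [L, L]) (by rw [L, L]), L]
  have d1 : ∀ (y : ℤ), dotL (rc (zip3 bm (F (2 * x0) y) (F (x0 + x1) y) (F (2 * x1) y))) (mono v) =
      (-1) * fr (2 * x0) y + 4 * fr (x0 + x1) y + (-1) * fr (2 * x1) y := fun y => by
    rw [dot_zip3 bm _ _ _ bm_lin _ _ _ _ (by rw [L, L]) (by rw [L, L]), hF, hF, hF]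
    push_cast; ring
  have q0 : 0 ≤ fr X (3 * y0) := by
    obtain ⟨a0, p0⟩ := allPsd_cons p0
    obtain ⟨a1, p0⟩ := allPsd_cons p0
    obtain ⟨a3, p0⟩ := allPsd_cons p0
    have b0 := psd21_sound _ a0 v
    have b1 := psd21_sound _ a1 v
    have b3 := psd21_sound _ a3 v
    rw [hF] at b0 b3
    rw [d1] at b1
    push_cast at b0 b1 b3
    exact bern3_nn (f := fun x => fr x (3 * y0)) (hx _) (a := x0) (b := x1) b0 (by linarith)
      b3 h1 h2
  have q3 : 0 ≤ fr X (3 * y1) := by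
    obtain ⟨a0, p3⟩ := allPsd_cons p3
    obtain ⟨a1, p3⟩ := allPsd_cons p3
    obtain ⟨a3, p3⟩ := allPsd_cons p3
    have b0 := psd21_sound _ a0 v
    have b1 := psd21_sound _ a1 v
    have b3 := psd21_sound _ a3 v
    rw [hF] at b0 b3
    rw [d1] at b1
    push_cast at b0 b1 b3
    exact bern3_nn (f := fun x => fr x (3 * y1)) (hx _) (a := x0) (b := x1) b0 (by linarith)
      b3 h1 h2
  have q1 : 0 ≤ (-5) * fr X (3 * y0) + 18 * fr X (2 * y0 + y1) + (-9) * fr X (y0 + 2 * y1) +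
      2 * fr X (3 * y1) := by
    obtain ⟨a0, p1⟩ := allPsd_cons p1
    obtain ⟨a1, p1⟩ := allPsd_cons p1
    obtain ⟨a3, p1⟩ := allPsd_cons p1
    have b0 := psd21_sound _ a0 v
    have b1 := psd21_sound _ a1 v
    have b3 := psd21_sound _ a3 v
    rw [dot_zip4 bq1 _ _ _ _ bq1_lin _ _ _ _ _ (by rw [L, L]) (by rw [L, L]) (by rw [L, L]), hF, hF,
      hF, hF] at b0 b3
    rw [dot_zip4 bq1 _ _ _ _ bq1_lin _ _ _ _ _ (by rw [z1, z1]) (by rw [z1, z1]) (by rw [z1, z1]),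
      d1, d1, d1, d1] at b1
    push_cast at b0 b1 b3
    exact bern3_nn (f := fun x => (-5) * fr x (3 * y0) + 18 * fr x (2 * y0 + y1) +
      (-9) * fr x (y0 + 2 * y1) + 2 * fr x (3 * y1)) ((hx _).comb (hx _) (hx _) (hx _) _ _ _ _)
      (a := x0) (b := x1) b0 (by linarith) b3 h1 h2
  have q2 : 0 ≤ 2 * fr X (3 * y0) + (-9) * fr X (2 * y0 + y1) + 18 * fr X (y0 + 2 * y1) +
      (-5) * fr X (3 * y1) := by
    obtain ⟨a0, p2⟩ := allPsd_cons p2
    obtain ⟨a1, p2⟩ := allPsd_cons p2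
    obtain ⟨a3, p2⟩ := allPsd_cons p2
    have b0 := psd21_sound _ a0 v
    have b1 := psd21_sound _ a1 v
    have b3 := psd21_sound _ a3 v
    rw [dot_zip4 bq2 _ _ _ _ bq2_lin _ _ _ _ _ (by rw [L, L]) (by rw [L, L]) (by rw [L, L]), hF, hF,
      hF, hF] at b0 b3
    rw [dot_zip4 bq2 _ _ _ _ bq2_lin _ _ _ _ _ (by rw [z1, z1]) (by rw [z1, z1]) (by rw [z1, z1]),
      d1, d1, d1, d1] at b1
    push_cast at b0 b1 b3
    exact bern3_nn (f := fun x => 2 * fr x (3 * y0) + (-9) * fr x (2 * y0 + y1) +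
      18 * fr x (y0 + 2 * y1) + (-5) * fr x (3 * y1)) ((hx _).comb (hx _) (hx _) (hx _) _ _ _ _)
      (a := x0) (b := x1) b0 (by linarith) b3 h1 h2
  exact bern4_nn (f := fun y => fr X y) (hy _) (a := y0) (b := y1) q0 (by linarith) (by linarith) q3
    h3 h4

end Pool.G1.NB
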