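import Pool.Agent.Work.MP_b5407d_nb.NBdeg
import Mathlib.Data.Fin.VecNotation

/-!
# the form `N` in natural form, and its matrix
-/

set_option autoImplicit false
set_option maxRecDepth 4000

namespace Pool.G1.NB

/-- the part of one chain: energies (tangent bounds), fluxes times local multipliers, potential -/
noncomputable def ChN (σ τ n Wo Wm Wf q0 q1 q2 k0 k1 t0 t1 t2 β φ F : ℝ) : ℝ :=
  Wo * n * (2 * q0 - (1 - σ * τ * (2 - n) / 2) * q0 ^ 2) * φ ^ 2 +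
  Wm * (2 * q1 - (1 - n) * (1 - σ * τ * (1 - n) / 2) * q1 ^ 2) * F ^ 2 +
  Wf * (2 * q2 - (1 + σ * τ / 2) * q2 ^ 2) * (2 * β - n * φ - F) ^ 2 -
  2 / 3 * (t0 * (n * φ) + t1 * F + t2 * (2 * β - n * φ - F)) -
  (1 + σ * τ * (1 - n)) * n * (k0 - k1 * (2 - n)) * (φ - β) ^ 2 / 2

/-- the full form; `a = σ (1 - n)`, `b = σ' (1 - n')` -/
noncomputable def NF (g : Gc ℝ) (τ a b p q r E E' tb β : ℝ) : ℝ :=
  E + E' + (2 - a ^ 2 - b ^ 2) / 8 - (2 - a ^ 2 - b ^ 2) * β / 2 -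
    τ * (a * (1 - a ^ 2) + b * (1 - b ^ 2)) / 24 - (a * p + b * q) -
    τ / 3 * (p + q) * (1 + 2 * β) + τ / 6 * (a + b) * β ^ 2 +
    (g.e1 + g.eb * β + g.er * r) * (p + q - (a + b) * β / 2) +
    (a + b) * (g.c11 + g.c1b * β + g.cbb * β ^ 2 + (g.c1r + g.cbr * β) * r + g.crr * r ^ 2 -
      g.cE0 * β ^ 2 / 2 + g.cE1 * (τ * β ^ 2 / 4 - β * r)) -
    tb * ((β - g.b0) * (g.b1 - β))

noncomputable def vec (β φ F φ' F' : ℝ) : Fin 6 → ℝ := ![1, β, φ, F, φ', F']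

lemma dot_mono (m : List ℝ) (β φ F φ' F' : ℝ) (a0 a1 a2 a3 a4 a5 b1 b2 b3 b4 b5 c2 c3 c4 c5 d3 d4 d5
    e4 e5 f5 : ℝ) (h : m = [a0, a1, a2, a3, a4, a5, b1, b2, b3, b4, b5, c2, c3, c4, c5, d3, d4, d5, e4,
    e5, f5]) : dotL m (mono (vec β φ F φ' F')) =
    a0 + 2 * β * a1 + 2 * φ * a2 + 2 * F * a3 + 2 * φ' * a4 + 2 * F' * a5 +
    β ^ 2 * b1 + 2 * β * φ * b2 + 2 * β * F * b3 + 2 * β * φ' * b4 + 2 * β * F' * b5 +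
    φ ^ 2 * c2 + 2 * φ * F * c3 + 2 * φ * φ' * c4 + 2 * φ * F' * c5 +
    F ^ 2 * d3 + 2 * F * φ' * d4 + 2 * F * F' * d5 + φ' ^ 2 * e4 + 2 * φ' * F' * e5 + F' ^ 2 * f5 := by
  rw [h]
  have v0 : vec β φ F φ' F' 0 = 1 := rfl
  have v1 : vec β φ F φ' F' 1 = β := rfl
  have v2 : vec β φ F φ' F' 2 = φ := rfl
  have v3 : vec β φ F φ' F' 3 = F := rfl
  have v4 : vec β φ F φ' F' 4 = φ' := rfl
  have v5 : vec β φ F φ' F' 5 = F' := rfl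
  simp only [mono, dotL, v0, v1, v2, v3, v4, v5]
  ring

/-- chart `B`, sign `1` -/
theorem NF_B1 (g : Gc ℝ) (l l' : Lc ℝ) (tb n n' τ β φ F φ' F' : ℝ) :
    48 * NF g τ (1 - n) (1 - n') (n * (φ - β) / 2) (n' * (φ' - β) / 2)
      ((β - n * φ - F) / 2 + (β - n' * φ' - F') / 2)
      (ChN 1 τ n ((chBa NR 1 1 g 1 1 n n' τ l).wo / 8) ((chBa NR 1 1 g 1 1 n n' τ l).wm / 8)
        ((chBa NR 1 1 g 1 1 n n' τ l).wf / 8) l.q0 l.q1 l.q2 l.k0 l.k1 l.t0 l.t1 l.t2 β φ F)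
      (ChN 1 τ n' ((chBb NR 1 1 g 1 1 n n' τ l').wo / 8) ((chBb NR 1 1 g 1 1 n n' τ l').wm / 8)
        ((chBb NR 1 1 g 1 1 n n' τ l').wf / 8) l'.q0 l'.q1 l'.q2 l'.k0 l'.k1 l'.t0 l'.t1 l'.t2 β φ' F')
      tb β =
    dotL (matB NR 1 1 g 1 1 l l' tb n n' τ) (mono (vec β φ F φ' F')) := by
  rw [dot_mono (matB NR 1 1 g 1 1 l l' tb n n' τ) β φ F φ' F' _ _ _ _ _ _ _ _ _ _ _ _ _ _ _ _ _ _ _ _ _
    rfl]
  simp only [mat, chBa, chBb, chain, mo1, mo2, mb1, mb2, dd1, dd2, dd3, NF, ChN, NR]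
  push_cast
  ring

/-- chart `B`, sign `-1` -/
theorem NF_B2 (g : Gc ℝ) (l l' : Lc ℝ) (tb n n' τ β φ F φ' F' : ℝ) :
    48 * NF g τ (-(1 - n)) (-(1 - n')) (-(n * (φ - β) / 2)) (-(n' * (φ' - β) / 2))
      (-((β - n * φ - F) / 2) - (β - n' * φ' - F') / 2)
      (ChN (-1) τ n ((chBa NR 1 1 g 1 (-1) n n' τ l).wo / 8) ((chBa NR 1 1 g 1 (-1) n n' τ l).wm / 8)
        ((chBa NR 1 1 g 1 (-1) n n' τ l).wf / 8) l.q0 l.q1 l.q2 l.k0 l.k1 l.t0 l.t1 l.t2 β φ F)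
      (ChN (-1) τ n' ((chBb NR 1 1 g 1 (-1) n n' τ l').wo / 8)
        ((chBb NR 1 1 g 1 (-1) n n' τ l').wm / 8)
        ((chBb NR 1 1 g 1 (-1) n n' τ l').wf / 8) l'.q0 l'.q1 l'.q2 l'.k0 l'.k1 l'.t0 l'.t1 l'.t2
        β φ' F') tb β =
    dotL (matB NR 1 1 g 1 (-1) l l' tb n n' τ) (mono (vec β φ F φ' F')) := by
  rw [dot_mono (matB NR 1 1 g 1 (-1) l l' tb n n' τ) β φ F φ' F' _ _ _ _ _ _ _ _ _ _ _ _ _ _ _ _ _ _ _ _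
    _ rfl]
  simp only [mat, chBa, chBb, chain, mo1, mo2, mb1, mb2, dd1, dd2, dd3, NF, ChN, NR]
  push_cast
  ring

/-- charts `K` -/
theorem NF_K (g : Gc ℝ) (l l' : Lc ℝ) (tb r P Q τ β φ F φ' F' : ℝ) :
    48 * NF g τ (1 - r * P) (-(1 - r * Q)) ((r * P) * (φ - β) / 2) (-((r * Q) * (φ' - β) / 2))
      ((β - (r * P) * φ - F) / 2 - (β - (r * Q) * φ' - F') / 2)
      (ChN 1 τ (r * P) ((chKa NR 1 1 g 1 1 r P Q τ l).wo / 8)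
        (r * (chKa NR 1 1 g 1 1 r P Q τ l).wm / 8)
        (r * (chKa NR 1 1 g 1 1 r P Q τ l).wf / 8) l.q0 l.q1 l.q2 l.k0 l.k1 l.t0 (r * l.t1) (r * l.t2)
        β φ F)
      (ChN (-1) τ (r * Q) ((chKb NR 1 1 g 1 1 r P Q τ l').wo / 8)
        (r * (chKb NR 1 1 g 1 1 r P Q τ l').wm / 8)
        (r * (chKb NR 1 1 g 1 1 r P Q τ l').wf / 8) l'.q0 l'.q1 l'.q2 l'.k0 l'.k1 l'.t0 (r * l'.t1)
        (r * l'.t2) β φ' F') (r * tb) β =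
    r * dotL (matK NR 1 1 g 1 1 l l' tb r P Q τ) (mono (vec β φ F φ' F')) := by
  rw [dot_mono (matK NR 1 1 g 1 1 l l' tb r P Q τ) β φ F φ' F' _ _ _ _ _ _ _ _ _ _ _ _ _ _ _ _ _ _ _ _
    _ rfl]
  simp only [mat, chKa, chKb, chain, mo1, mo2, mb1, mb2, dd1, dd2, dd3, NF, ChN, NR]
  push_cast
  ring

end Pool.G1.NB
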