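import Pool.Agent.Work.MP_b5407d_nb.NBcov
import Pool.Agent.Work.MP_b5407d_nb.NBform
import Pool.Agent.Work.MP_b5407d_g1.Pl_FORMX

/-!
# from the certified charts to `CERTat`
-/

set_option autoImplicit false

namespace Pool.G1.NB

open Pool.G1.Gap

noncomputable def cfOf (g : Gc ℝ) : Cf :=
  ⟨0, g.e1, g.eb, 0, g.er, g.c11, g.c1b, g.cbb, 0, 0, 0, 0, 0, 0, 0, g.c1r, g.cbr, g.crr, 0, 0, g.cE0,
    g.cE1⟩

lemma tan_le {W N x h q : ℝ} (hW : 0 ≤ W) (hN : 0 ≤ N) :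
    W * (2 * q - N * q ^ 2) * (N * x) ^ 2 ≤ W * N * (x ^ 2 + 3 * h ^ 2) := by
  have h1 : 0 ≤ W * N * (x * (1 - q * N)) ^ 2 := mul_nonneg (mul_nonneg hW hN) (sq_nonneg _)
  have h2 : 0 ≤ W * N * (3 * h ^ 2) := mul_nonneg (mul_nonneg hW hN) (by positivity)
  linarith

lemma tan_le_o {W n y x h q : ℝ} (hW : 0 ≤ W) (hn : 0 ≤ n) (hy : 0 ≤ y) :
    W * n * (2 * q - y * q ^ 2) * (y * x) ^ 2 ≤ W * (n * y) * (x ^ 2 + 3 * h ^ 2) := by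
  have h1 : 0 ≤ W * (n * y) * (x * (1 - q * y)) ^ 2 :=
    mul_nonneg (mul_nonneg hW (mul_nonneg hn hy)) (sq_nonneg _)
  have h2 : 0 ≤ W * (n * y) * (3 * h ^ 2) :=
    mul_nonneg (mul_nonneg hW (mul_nonneg hn hy)) (by positivity)
  linarith

/-- the `V` part of a chain, `a = 1 - n` -/
lemma V_pos {τ n δ K k0 k1 : ℝ} (h0 : 0 < τ) (h1 : τ < 1) (hn0 : 0 ≤ n) (hn1 : n ≤ 1)
    (hk : 1 ≤ (k0 - k1 * (2 - n)) * (2 - n)) :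
    -((1 + 1 * τ * (1 - n)) * n * (k0 - k1 * (2 - n)) * δ ^ 2 / 2) ≤
      -(2 / (1 - τ * (1 - n)) * (n * δ / 2 + (1 - n) * K / 2) ^ 2) +
        K ^ 2 * (1 + τ * (1 - n)) / (2 * (1 - τ ^ 2)) := by
  have h2 : 0 < 2 - n := by linarith
  have e := VX_le (τ := τ) (a := 1 - n) (p := δ / (2 * (2 - n))) (K := K) h0 h1 (by linarith)
    (by linarith)
  have e1 : (1 - (1 - n) ^ 2) * (δ / (2 * (2 - n))) = n * δ / 2 := by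
    field_simp; ring
  rw [e1] at e
  refine le_trans ?_ e
  have e2 : 2 * (1 - (1 - n) ^ 2) * (1 + τ * (1 - n)) * (δ / (2 * (2 - n))) ^ 2 =
      (1 + 1 * τ * (1 - n)) * n * (1 / (2 - n)) * δ ^ 2 / 2 := by
    field_simp; ring
  rw [e2]
  have e3 : 1 / (2 - n) ≤ k0 - k1 * (2 - n) := by
    rw [div_le_iff₀ h2]; exact hk
  have e4 : 0 ≤ (1 + 1 * τ * (1 - n)) * n := by
    refine mul_nonneg ?_ hn0
    nlinarith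
  have e5 := mul_le_mul_of_nonneg_left e3 e4
  have e6 := mul_le_mul_of_nonneg_right e5 (sq_nonneg δ)
  linarith

/-- the `V` part of a chain, `a = -(1 - n)` -/
lemma V_neg {τ n δ K k0 k1 : ℝ} (h0 : 0 < τ) (h1 : τ < 1) (hn0 : 0 ≤ n) (hn1 : n ≤ 1)
    (hk : 1 ≤ (k0 - k1 * (2 - n)) * (2 - n)) :
    -((1 + (-1) * τ * (1 - n)) * n * (k0 - k1 * (2 - n)) * δ ^ 2 / 2) ≤
      -(2 / (1 - τ * (-(1 - n))) * (-(n * δ / 2) + (-(1 - n)) * K / 2) ^ 2) +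
        K ^ 2 * (1 + τ * (-(1 - n))) / (2 * (1 - τ ^ 2)) := by
  have h2 : 0 < 2 - n := by linarith
  have e := VX_le (τ := τ) (a := -(1 - n)) (p := -(δ / (2 * (2 - n)))) (K := K) h0 h1 (by linarith)
    (by linarith)
  have e1 : (1 - (-(1 - n)) ^ 2) * (-(δ / (2 * (2 - n)))) = -(n * δ / 2) := by
    field_simp; ring
  rw [e1] at e
  refine le_trans ?_ e
  have e2 : 2 * (1 - (-(1 - n)) ^ 2) * (1 + τ * (-(1 - n))) * (-(δ / (2 * (2 - n)))) ^ 2 =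
      (1 + (-1) * τ * (1 - n)) * n * (1 / (2 - n)) * δ ^ 2 / 2 := by
    field_simp; ring
  rw [e2]
  have e3 : 1 / (2 - n) ≤ k0 - k1 * (2 - n) := by
    rw [div_le_iff₀ h2]; exact hk
  have e4 : 0 ≤ (1 + (-1) * τ * (1 - n)) * n := by
    refine mul_nonneg ?_ hn0
    nlinarith
  have e5 := mul_le_mul_of_nonneg_left e3 e4
  have e6 := mul_le_mul_of_nonneg_right e5 (sq_nonneg δ)
  linarith

/-- one chain, state `a = 1 - n ≥ 0` -/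
lemma chain_pos {τ n K β N1 N2 N3 g1 g2 g3 h1 h2 h3 W1 W2 W3 t1 t2 t3 k0 k1 : ℝ} (q0 q1 q2 : ℝ)
    (hτ0 : 0 < τ) (hτ1 : τ < 1) (hn0 : 0 ≤ n) (hn1 : n ≤ 1)
    (e1 : N1 = n * (1 - τ * (2 - n) / 2)) (e2 : N2 = (1 - n) * (1 - τ * (1 - n) / 2))
    (e3 : N3 = 1 + τ / 2) (hs : N1 * g1 + N2 * g2 + N3 * g3 = 2 * β) (w1 : 0 ≤ W1) (w2 : 0 ≤ W2)
    (w3 : 0 ≤ W3) (hk : 1 ≤ (k0 - k1 * (2 - n)) * (2 - n)) :
    ChN 1 τ n W1 W2 W3 q0 q1 q2 k0 k1 t1 t2 t3 β ((1 - τ * (2 - n) / 2) * g1) (N2 * g2) ≤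
      W1 * N1 * (g1 ^ 2 + 3 * h1 ^ 2) + W2 * N2 * (g2 ^ 2 + 3 * h2 ^ 2) +
        W3 * N3 * (g3 ^ 2 + 3 * h3 ^ 2) - 2 / 3 * (t1 * N1 * g1 + t2 * N2 * g2 + t3 * N3 * g3) -
      2 / (1 - τ * (1 - n)) *
        (n * ((1 - τ * (2 - n) / 2) * g1 - β) / 2 + (1 - n) * K / 2) ^ 2 +
      K ^ 2 * (1 + τ * (1 - n)) / (2 * (1 - τ ^ 2)) := by
  have y1 : 0 ≤ 1 - τ * (2 - n) / 2 := by nlinarith
  have y2 : 0 ≤ N2 := by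
    rw [e2]; exact mul_nonneg (by linarith) (by nlinarith)
  have y3 : 0 ≤ N3 := by rw [e3]; linarith
  have v := V_pos (δ := (1 - τ * (2 - n) / 2) * g1 - β) (K := K) hτ0 hτ1 hn0 hn1 hk
  have f1 := tan_le_o (x := g1) (h := h1) (q := q0) w1 hn0 y1
  have f2 := tan_le (x := g2) (h := h2) (q := q1) w2 y2
  have f3 := tan_le (x := g3) (h := h3) (q := q2) w3 y3
  have hf : 2 * β - n * ((1 - τ * (2 - n) / 2) * g1) - N2 * g2 = N3 * g3 := by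
    rw [← hs, e1]; ring
  unfold ChN
  rw [hf]
  have g1' : W1 * N1 * (g1 ^ 2 + 3 * h1 ^ 2) =
      W1 * (n * (1 - τ * (2 - n) / 2)) * (g1 ^ 2 + 3 * h1 ^ 2) := by rw [e1]
  have g2' : 1 - 1 * τ * (2 - n) / 2 = 1 - τ * (2 - n) / 2 := by ring
  have g3' : (1 - n) * (1 - 1 * τ * (1 - n) / 2) = N2 := by rw [e2]; ring
  have g4' : 1 + 1 * τ / 2 = N3 := by rw [e3]; ring
  have g5' : t1 * N1 * g1 = t1 * (n * ((1 - τ * (2 - n) / 2) * g1)) := by rw [e1]; ring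
  rw [g1', g2', g3', g4', g5']
  linarith

/-- one chain, state `a = -(1 - n) ≤ 0` -/
lemma chain_neg {τ n K β N1 N2 N3 g1 g2 g3 h1 h2 h3 W1 W2 W3 t1 t2 t3 k0 k1 : ℝ} (q0 q1 q2 : ℝ)
    (hτ0 : 0 < τ) (hτ1 : τ < 1) (hn0 : 0 ≤ n) (hn1 : n ≤ 1)
    (e1 : N1 = 1 - τ / 2) (e2 : N2 = (1 - n) * (1 + τ * (1 - n) / 2))
    (e3 : N3 = n * (1 + τ * (2 - n) / 2)) (hs : N1 * g1 + N2 * g2 + N3 * g3 = 2 * β) (w1 : 0 ≤ W1)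
    (w2 : 0 ≤ W2) (w3 : 0 ≤ W3) (hk : 1 ≤ (k0 - k1 * (2 - n)) * (2 - n)) :
    ChN (-1) τ n W3 W2 W1 q0 q1 q2 k0 k1 t3 t2 t1 β ((1 + τ * (2 - n) / 2) * g3) (N2 * g2) ≤
      W1 * N1 * (g1 ^ 2 + 3 * h1 ^ 2) + W2 * N2 * (g2 ^ 2 + 3 * h2 ^ 2) +
        W3 * N3 * (g3 ^ 2 + 3 * h3 ^ 2) - 2 / 3 * (t1 * N1 * g1 + t2 * N2 * g2 + t3 * N3 * g3) -
      2 / (1 - τ * (-(1 - n))) *
        (-(n * ((1 + τ * (2 - n) / 2) * g3 - β) / 2) + (-(1 - n)) * K / 2) ^ 2 +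
      K ^ 2 * (1 + τ * (-(1 - n))) / (2 * (1 - τ ^ 2)) := by
  have y1 : 0 ≤ 1 + τ * (2 - n) / 2 := by nlinarith
  have y2 : 0 ≤ N2 := by
    rw [e2]; exact mul_nonneg (by linarith) (by nlinarith)
  have y3 : 0 ≤ N1 := by rw [e1]; linarith
  have v := V_neg (δ := (1 + τ * (2 - n) / 2) * g3 - β) (K := K) hτ0 hτ1 hn0 hn1 hk
  have f1 := tan_le_o (x := g3) (h := h3) (q := q0) w3 hn0 y1
  have f2 := tan_le (x := g2) (h := h2) (q := q1) w2 y2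
  have f3 := tan_le (x := g1) (h := h1) (q := q2) w1 y3
  have hf : 2 * β - n * ((1 + τ * (2 - n) / 2) * g3) - N2 * g2 = N1 * g1 := by
    rw [← hs, e3]; ring
  unfold ChN
  rw [hf]
  have g1' : W3 * N3 * (g3 ^ 2 + 3 * h3 ^ 2) =
      W3 * (n * (1 + τ * (2 - n) / 2)) * (g3 ^ 2 + 3 * h3 ^ 2) := by rw [e3]
  have g2' : 1 - (-1) * τ * (2 - n) / 2 = 1 + τ * (2 - n) / 2 := by ring
  have g3' : (1 - n) * (1 - (-1) * τ * (1 - n) / 2) = N2 := by rw [e2]; ring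
  have g4' : 1 + (-1) * τ / 2 = N1 := by rw [e1]; ring
  have g5' : t3 * N3 * g3 = t3 * (n * ((1 + τ * (2 - n) / 2) * g3)) := by rw [e3]; ring
  rw [g1', g2', g3', g4', g5']
  linarith

/-- the comparison of the form of `CERTat` with the form `N` -/
lemma FQ_ge {g : Gc ℝ} {τ a b N1 N2 N3 k2 N1' N2' N3' k2' t1 t2 t3 t1' t2' t3' tb β V g1 g2 g3 h1 h2 h3
    g1' g2' g3' h1' h2' h3' p q r E E' : ℝ}
    (hp : (N1 * g1 + k2 * (N2 * g2) - (1 - a) * β) / 2 = p)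
    (hq : (N1' * g1' + k2' * (N2' * g2') - (1 - b) * β) / 2 = q)
    (hr : rC N1 N2 N3 k2 g1 g2 g3 + rC N1' N2' N3' k2' g1' g2' g3' = r)
    (hE : E ≤ ((2 + (a - b)) / 8 + (a + b) * (g.cE0 - g.cE1) / 8 + t1) * N1 * (g1 ^ 2 + 3 * h1 ^ 2) +
      ((2 - (a - b) + 2 * (a - b) * k2) / 8 + (a + b) * (g.cE0 + (2 * k2 - 1) * g.cE1) / 8 + t2) * N2 *
        (g2 ^ 2 + 3 * h2 ^ 2) +
      ((2 - (a - b)) / 8 + (a + b) * (g.cE0 + g.cE1) / 8 + t3) * N3 * (g3 ^ 2 + 3 * h3 ^ 2) -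
      2 / 3 * (t1 * N1 * g1 + t2 * N2 * g2 + t3 * N3 * g3) -
      2 / (1 - τ * a) * (p + a * (V - β) / 2) ^ 2 +
      (V - β) ^ 2 * (1 + τ * a) / (2 * (1 - τ ^ 2)))
    (hE' : E' ≤ ((2 - (a - b)) / 8 + (a + b) * (g.cE0 - g.cE1) / 8 + t1') * N1' *
        (g1' ^ 2 + 3 * h1' ^ 2) +
      ((2 + (a - b) - 2 * (a - b) * k2') / 8 + (a + b) * (g.cE0 + (2 * k2' - 1) * g.cE1) / 8 + t2') *
        N2' * (g2' ^ 2 + 3 * h2' ^ 2) +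
      ((2 + (a - b)) / 8 + (a + b) * (g.cE0 + g.cE1) / 8 + t3') * N3' * (g3' ^ 2 + 3 * h3' ^ 2) -
      2 / 3 * (t1' * N1' * g1' + t2' * N2' * g2' + t3' * N3' * g3') -
      2 / (1 - τ * b) * (q + b * (V - β) / 2) ^ 2 +
      (V - β) ^ 2 * (1 + τ * b) / (2 * (1 - τ ^ 2))) :
    NF g τ a b p q r E E' tb β ≤ FQ (cfOf g) τ a b g.b0 g.b1 N1 N2 N3 k2 N1' N2' N3' k2' t1 t2 t3 t1' t2'
      t3' tb 0 β V g1 g2 g3 h1 h2 h3 g1' g2' g3' h1' h2' h3' := by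
  unfold FQ NF LH MH PHI cfOf
  simp only
  rw [hp, hq, hr]
  have e : (V - β) ^ 2 * (2 + τ * (a + b)) / (2 * (1 - τ ^ 2)) =
      (V - β) ^ 2 * (1 + τ * a) / (2 * (1 - τ ^ 2)) + (V - β) ^ 2 * (1 + τ * b) / (2 * (1 - τ ^ 2)) := by
    ring
  rw [e]
  generalize (V - β) ^ 2 * (1 + τ * a) / (2 * (1 - τ ^ 2)) = X1 at *
  generalize (V - β) ^ 2 * (1 + τ * b) / (2 * (1 - τ ^ 2)) = X2 at *
  generalize 2 / (1 - τ * a) * (p + a * (V - β) / 2) ^ 2 = X3 at *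
  generalize 2 / (1 - τ * b) * (q + b * (V - β) / 2) ^ 2 = X4 at *
  linarith

end Pool.G1.NB
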