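import Pool.Agent.Work.MP_b5407d_nb.NBdef

/-!
# G1, balanced case: the kernel checker for the form `N` (integer arithmetic)
-/

set_option autoImplicit false

namespace Pool.G1.NB

def NI : ℕ → ℤ := Int.ofNat

/-- entrywise combination of four lists -/
def zip4 (f : ℤ → ℤ → ℤ → ℤ → ℤ) : List ℤ → List ℤ → List ℤ → List ℤ → List ℤ
  | a :: as, b :: bs, c :: cs, d :: ds => f a b c d :: zip4 f as bs cs ds
  | _, _, _, _ => []

def zip3 (f : ℤ → ℤ → ℤ → ℤ) : List ℤ → List ℤ → List ℤ → List ℤ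
  | a :: as, b :: bs, c :: cs => f a b c :: zip3 f as bs cs
  | _, _, _ => []

def bq1 (a b c d : ℤ) : ℤ := 18 * b + 2 * d - 5 * a - 9 * c
def bq2 (a b c d : ℤ) : ℤ := 2 * a + 18 * c - 9 * b - 5 * d
def bm (a b c : ℤ) : ℤ := 4 * b - a - c

/-- rows of the upper triangle -/
def toRows {R : Type} : List R → List (List R)
  | [a0, a1, a2, a3, a4, a5, b1, b2, b3, b4, b5, c2, c3, c4, c5, d3, d4, d5, e4, e5, f5] =>
    [[a0, a1, a2, a3, a4, a5], [b1, b2, b3, b4, b5], [c2, c3, c4, c5], [d3, d4, d5], [e4, e5], [f5]]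
  | _ => []

def allZero : List ℤ → Bool
  | [] => true
  | x :: xs => match x with
    | Int.ofNat 0 => allZero xs
    | _ => false

def elimR (d ri : ℤ) : List ℤ → List ℤ → List ℤ
  | m :: ms, rj :: rs => (d * m - ri * rj) :: elimR d ri ms rs
  | _, _ => []

def elim (d : ℤ) : List ℤ → List (List ℤ) → List (List ℤ)
  | ri :: r, row :: rest => elimR d ri row (ri :: r) :: elim d r rest
  | _, _ => []

/-- positive semidefiniteness of a symmetric matrix given by the rows of its upper triangle -/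
def psd : ℕ → List (List ℤ) → Bool
  | 0, [] => true
  | n + 1, (d :: r) :: rest => match d with
    | Int.ofNat 0 => allZero r && psd n rest
    | Int.ofNat (k + 1) => psd n (elim (Int.ofNat (k + 1)) r rest)
    | Int.negSucc _ => false
  | _, _ => false

def psd21 (m : List ℤ) : Bool := psd 6 (toRows m)

def allPsd : List (List ℤ) → Bool
  | [] => true
  | m :: ms => psd21 m && allPsd ms

/-- Bernstein coefficients (up to positive factors) of a cubic family on `[x0, x1] / G`, nodes with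
denominator `3 G` -/
def bern4 (f : ℤ → List ℤ) (x0 x1 : ℤ) : List (List ℤ) :=
  [f (3 * x0), zip4 bq1 (f (3 * x0)) (f (2 * x0 + x1)) (f (x0 + 2 * x1)) (f (3 * x1)),
    zip4 bq2 (f (3 * x0)) (f (2 * x0 + x1)) (f (x0 + 2 * x1)) (f (3 * x1)), f (3 * x1)]

/-- the same for a quadratic family, nodes with denominator `2 G` -/
def bern3 (f : ℤ → List ℤ) (x0 x1 : ℤ) : List (List ℤ) :=
  [f (2 * x0), zip3 bm (f (2 * x0)) (f (x0 + x1)) (f (2 * x1)), f (2 * x1)]

def comb4 (g : List ℤ → List ℤ → List ℤ → List ℤ → List ℤ) :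
    List (List ℤ) → List (List ℤ) → List (List ℤ) → List (List ℤ) → List (List ℤ)
  | a :: as, b :: bs, c :: cs, d :: ds => g a b c d :: comb4 g as bs cs ds
  | _, _, _, _ => []

/-- all Bernstein coefficients in two variables are positive semidefinite -/
def chk2 (B : (ℤ → List ℤ) → List (List ℤ)) (f : ℤ → ℤ → List ℤ) (y0 y1 : ℤ) : Bool :=
  allPsd (B (fun x => f x (3 * y0))) &&
  allPsd (comb4 (zip4 bq1) (B (fun x => f x (3 * y0))) (B (fun x => f x (2 * y0 + y1)))
    (B (fun x => f x (y0 + 2 * y1))) (B (fun x => f x (3 * y1)))) &&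
  allPsd (comb4 (zip4 bq2) (B (fun x => f x (3 * y0))) (B (fun x => f x (2 * y0 + y1)))
    (B (fun x => f x (y0 + 2 * y1))) (B (fun x => f x (3 * y1)))) &&
  allPsd (B (fun x => f x (3 * y1)))

def nn (x : ℤ) : Bool := match x with
  | Int.ofNat _ => true
  | Int.negSucc _ => false

/-- the chord of `1 / (1 + |a|)` -/
def kchk (C U Y : ℤ) (l : Lc ℤ) : Bool := nn ((l.k0 * U - l.k1 * Y) * Y - C * U * U)

def wchk (c : Ch ℤ) : Bool := nn c.wo && nn c.wm && nn c.wf

def GG : ℤ := 1024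
def CC0 : ℤ := 65536

/-- leaf test, chart `B` with sign `s`, `x = 1 - |a|`, `y = 1 - |b|` -/
def leafB (g : Gc ℤ) (s : ℤ) (l l' : Lc ℤ) (tb x0 x1 y0 y1 t0 t1 : ℤ) : Bool :=
  kchk CC0 GG (2 * GG - x0) l && kchk CC0 GG (2 * GG - x1) l &&
  kchk CC0 GG (2 * GG - y0) l' && kchk CC0 GG (2 * GG - y1) l' &&
  wchk (chBa NI GG CC0 g GG s x0 y0 0 l) && wchk (chBa NI GG CC0 g GG s x0 y1 0 l) &&
  wchk (chBa NI GG CC0 g GG s x1 y0 0 l) && wchk (chBa NI GG CC0 g GG s x1 y1 0 l) &&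
  wchk (chBb NI GG CC0 g GG s x0 y0 0 l') && wchk (chBb NI GG CC0 g GG s x0 y1 0 l') &&
  wchk (chBb NI GG CC0 g GG s x1 y0 0 l') && wchk (chBb NI GG CC0 g GG s x1 y1 0 l') &&
  chk2 (fun f => bern4 f x0 x1) (fun x y => matB NI GG CC0 g (3 * GG) s l l' tb x y t0) y0 y1 &&
  chk2 (fun f => bern4 f x0 x1) (fun x y => matB NI GG CC0 g (3 * GG) s l l' tb x y t1) y0 y1

end Pool.G1.NB
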