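import Mathlib.Data.Real.Basic

/-!
# G1, balanced case: the form `N` as an integer matrix (definitions, evaluated by the kernel)

`v = (1, β, φ, F, φ', F')`; six arcs, four charts.
-/

set_option autoImplicit false

namespace Pool.G1.NB

/-- global constants -/
structure Gc (R : Type) where
  e1 : R
  eb : R
  er : R
  c11 : R
  c1b : R
  cbb : R
  c1r : R
  cbr : R
  crr : R
  cE0 : R
  cE1 : R
  b0 : R
  b1 : R

/-- local constants of one chain -/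
structure Lc (R : Type) where
  q0 : R
  q1 : R
  q2 : R
  k0 : R
  k1 : R
  t0 : R
  t1 : R
  t2 : R

/-- the data of one chain -/
structure Ch (R : Type) where
  n1 : R
  n : R
  M : R
  wo : R
  wm : R
  wf : R
  E0 : R
  E1 : R
  E2 : R
  D : R
  X : R

section
variable {R : Type} [Add R] [Mul R] [Sub R]

def chain (N : ℕ → R) (V C : R) (g : Gc R) (Ur Uu r T sN s n1 bo bi : R) (l : Lc R) : Ch R :=
  ⟨n1, r * n1, Ur * Uu - r * n1,
    bo * C + N 8 * (Ur * Uu) * l.t0 + r * sN * (g.cE0 - s * g.cE1),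
    bi * C + N 8 * Uu * l.t1 + sN * (g.cE0 - s * g.cE1),
    bi * C + N 8 * Uu * l.t2 + sN * (g.cE0 + s * g.cE1),
    N 3 * (bo * C + N 8 * (Ur * Uu) * l.t0 + r * sN * (g.cE0 - s * g.cE1)) * n1 * l.q0 *
      (N 4 * (Ur * Uu) * V * C -
        (N 2 * (Ur * Uu) * V - s * T * (Ur * Uu + (Ur * Uu - r * n1))) * l.q0),
    N 3 * (bi * C + N 8 * Uu * l.t1 + sN * (g.cE0 - s * g.cE1)) * l.q1 *
      (N 4 * ((Ur * Uu) * (Ur * Uu)) * V * C -
        (Ur * Uu - r * n1) * (N 2 * (Ur * Uu) * V - s * T * (Ur * Uu - r * n1)) * l.q1),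
    N 3 * (bi * C + N 8 * Uu * l.t2 + sN * (g.cE0 + s * g.cE1)) * l.q2 *
      (N 4 * V * C - (N 2 * V + s * T) * l.q2),
    N 24 * C * C * ((Ur * Uu) * V + s * T * (Ur * Uu - r * n1)) * n1 *
      (l.k0 * (Ur * Uu) - l.k1 * (Ur * Uu + (Ur * Uu - r * n1))),
    n1 * (N 2 * (Ur * Uu) - r * n1)⟩

/-- entries `(o, φ)`, `(o, F)` -/
def mo1 (N : ℕ → R) (V C : R) (g : Gc R) (Ur Uu T sN s : R) (c : Ch R) (l : Lc R) : R :=
  N 16 * (V * C * C) * (Ur * Uu) * (l.t2 * c.n * Uu - l.t0 * c.n1 * (Ur * Uu)) -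
    N 12 * (c.M * c.n1 * ((Ur * Uu) * V * C * C * C)) -
    N 4 * (s * T * c.n1 * ((Ur * Uu) * (Ur * Uu) * C * C * C)) +
    N 12 * (s * g.e1 * c.n1 * ((Ur * Uu) * (Ur * Uu) * V * C * C)) -
    N 12 * (sN * g.c1r * s * c.n * ((Ur * Uu) * V * C * C))

def mo2 (N : ℕ → R) (V C : R) (g : Gc R) (Ur Uu sN s : R) (l : Lc R) : R :=
  N 16 * ((l.t2 - l.t1) * (Ur * Ur * Uu * Uu * Uu * V * C * C)) -
    N 12 * (sN * g.c1r * s * ((Ur * Uu) * (Ur * Uu) * V * C * C))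

/-- entries `(β, φ)`, `(β, F)` -/
def mb1 (N : ℕ → R) (V C : R) (g : Gc R) (Ur Uu T sN s S : R) (c : Ch R) : R :=
  c.D - N 2 * (c.E2 * c.n * (Ur * Uu)) - N 8 * (s * T * c.n1 * ((Ur * Uu) * (Ur * Uu) * C * C * C)) +
    N 12 * (s * c.n1 * ((Ur * Uu) * (Ur * Uu) * V * C * C) * (g.eb + g.er * S)) -
    N 12 * (sN * s * c.n * ((Ur * Uu) * V * C * C) * (g.cbr - g.cE1 + S * g.crr))

def mb2 (N : ℕ → R) (V C : R) (g : Gc R) (Ur Uu sN s S : R) (c : Ch R) : R :=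
  N 6 * (g.er * S * s * (Ur * Ur * Uu * Uu * Uu * V * C * C)) -
    N 2 * (c.E2 * ((Ur * Uu) * (Ur * Uu))) -
    N 12 * (sN * s * ((Ur * Uu) * (Ur * Uu) * V * C * C) * (g.cbr - g.cE1 + S * g.crr))

/-- entries `(φ, φ)`, `(φ, F)`, `(F, F)` -/
def dd1 (N : ℕ → R) (V C : R) (g : Gc R) (Ur Uu sN : R) (c : Ch R) : R :=
  c.E0 + c.E2 * c.n * c.n - c.D - N 12 * (g.er * c.n * c.n1 * ((Ur * Uu) * V * C * C)) +
    N 12 * (g.crr * sN * c.n * c.n * (V * C * C))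

def dd2 (N : ℕ → R) (V C : R) (g : Gc R) (Ur Uu sN : R) (c : Ch R) : R :=
  c.E2 * c.n * (Ur * Uu) - N 6 * (g.er * c.n1 * ((Ur * Uu) * (Ur * Uu) * V * C * C)) +
    N 12 * (g.crr * sN * c.n * ((Ur * Uu) * V * C * C))

def dd3 (N : ℕ → R) (V C : R) (g : Gc R) (Ur Uu sN : R) (c : Ch R) : R :=
  c.E1 + c.E2 * ((Ur * Uu) * (Ur * Uu)) + N 12 * (g.crr * sN * ((Ur * Uu) * (Ur * Uu) * V * C * C))

/-- the upper triangle, 21 entries -/
def mat (N : ℕ → R) (V C : R) (g : Gc R) (Ur Uu T sN sa sb S : R) (a b : Ch R) (l l' : Lc R)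
    (tb : R) : List R :=
  [ N 6 * ((a.X + b.X) * ((Ur * Uu) * V * C * C * C)) -
      N 2 * (T * (C * C * C) * (sa * a.M * a.X + sb * b.M * b.X)) +
      N 48 * (sN * g.c11 * ((Ur * Uu) * (Ur * Uu) * V * C * C)) +
      N 48 * (Ur * Ur * Uu * Uu * Uu * V * tb * g.b0 * g.b1),
    N 12 * ((a.M * a.n1 + b.M * b.n1 - a.X - b.X) * ((Ur * Uu) * V * C * C * C)) -
      N 32 * (Ur * Ur * Uu * Uu * Uu * V * C * C * (l.t2 + l'.t2)) +
      N 4 * (T * ((Ur * Uu) * (Ur * Uu) * C * C * C) * (sa * a.n1 + sb * b.n1)) -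
      N 12 * (S * g.e1 * (Ur * Ur * Uu * Uu * Uu * V * C * C)) +
      sN * ((Ur * Uu) * (Ur * Uu) * V * C * C) * (N 24 * g.c1b + N 12 * g.c1r * S) -
      N 24 * (Ur * Ur * Uu * Uu * Uu * V * C * tb * (g.b0 + g.b1)),
    mo1 N V C g Ur Uu T sN sa a l,
    mo2 N V C g Ur Uu sN sa l,
    mo1 N V C g Ur Uu T sN sb b l',
    mo2 N V C g Ur Uu sN sb l',
    N 4 * ((Ur * Uu) * (Ur * Uu) * (a.E2 + b.E2)) - a.D - b.D +
      N 16 * (T * ((Ur * Uu) * (Ur * Uu) * C * C * C) * (sa * a.n1 + sb * b.n1)) +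
      N 8 * (T * sN * ((Ur * Uu) * (Ur * Uu) * C * C * C)) -
      N 24 * (S * g.eb * (Ur * Ur * Uu * Uu * Uu * V * C * C)) -
      N 12 * (g.er * S * S * (Ur * Ur * Uu * Uu * Uu * V * C * C)) +
      sN * ((Ur * Uu) * (Ur * Uu) * V * C * C) *
        (N 48 * g.cbb + N 24 * (g.cbr - g.cE1) * S + N 12 * g.crr * S * S - N 24 * g.cE0) +
      N 12 * (sN * g.cE1 * T * ((Ur * Uu) * (Ur * Uu) * C * C)) +
      N 48 * (tb * (Ur * Ur * Uu * Uu * Uu * V * C * C)),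
    mb1 N V C g Ur Uu T sN sa S a,
    mb2 N V C g Ur Uu sN sa S a,
    mb1 N V C g Ur Uu T sN sb S b,
    mb2 N V C g Ur Uu sN sb S b,
    dd1 N V C g Ur Uu sN a,
    dd2 N V C g Ur Uu sN a,
    sa * sb * (N 12 * (g.crr * sN * a.n * b.n * (V * C * C)) -
      N 12 * (g.er * a.n * b.n1 * ((Ur * Uu) * V * C * C))),
    sa * sb * (N 12 * (g.crr * sN * a.n * ((Ur * Uu) * V * C * C)) -
      N 6 * (g.er * a.n1 * ((Ur * Uu) * (Ur * Uu) * V * C * C))),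
    dd3 N V C g Ur Uu sN a,
    sa * sb * (N 12 * (g.crr * sN * b.n * ((Ur * Uu) * V * C * C)) -
      N 6 * (g.er * b.n1 * ((Ur * Uu) * (Ur * Uu) * V * C * C))),
    sa * sb * (N 12 * (g.crr * sN * ((Ur * Uu) * (Ur * Uu) * V * C * C))),
    dd1 N V C g Ur Uu sN b,
    dd2 N V C g Ur Uu sN b,
    dd3 N V C g Ur Uu sN b]

/-- chart `B`: both states have the sign `s` (`s = 1` or `-1`), `x = 1 - |a|`, `y = 1 - |b|` -/
def chBa (N : ℕ → R) (V C : R) (g : Gc R) (U s x y T : R) (l : Lc R) : Ch R :=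
  chain N V C g (N 1) U (N 1) T (s * (N 2 * U - x - y)) s x (N 2 * U + y - x) (N 2 * U + x - y) l

def chBb (N : ℕ → R) (V C : R) (g : Gc R) (U s x y T : R) (l : Lc R) : Ch R :=
  chain N V C g (N 1) U (N 1) T (s * (N 2 * U - x - y)) s y (N 2 * U + x - y) (N 2 * U + y - x) l

def matB (N : ℕ → R) (V C : R) (g : Gc R) (U s : R) (l l' : Lc R) (tb x y T : R) : List R :=
  mat N V C g (N 1) U T (s * (N 2 * U - x - y)) s s (N 2 * s) (chBa N V C g U s x y T l)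
    (chBb N V C g U s x y T l') l l' tb

/-- charts `K`: `a = 1 - r P`, `b = -1 + r Q` -/
def chKa (N : ℕ → R) (V C : R) (g : Gc R) (Ur Uu r P Q T : R) (l : Lc R) : Ch R :=
  chain N V C g Ur Uu r T (Q - P) (N 1) P (N 4 * (Ur * Uu) - r * (P + Q)) (P + Q) l

def chKb (N : ℕ → R) (V C : R) (g : Gc R) (Ur Uu r P Q T : R) (l : Lc R) : Ch R :=
  chain N V C g Ur Uu r T (Q - P) (N 0 - N 1) Q (N 4 * (Ur * Uu) - r * (P + Q)) (P + Q) l

def matK (N : ℕ → R) (V C : R) (g : Gc R) (Ur Uu : R) (l l' : Lc R) (tb r P Q T : R) : List R :=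
  mat N V C g Ur Uu T (Q - P) (N 1) (N 0 - N 1) (N 0) (chKa N V C g Ur Uu r P Q T l)
    (chKb N V C g Ur Uu r P Q T l') l l' tb

end

end Pool.G1.NB
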