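import Pool.Agent.Work.MP_b5407d_nb.NBbern

/-!
# degrees, casts and scaling of the form `N`
-/

set_option autoImplicit false

namespace Pool.G1.NB

def NR : ℕ → ℝ := fun n => (n : ℝ)

def cG (g : Gc ℤ) : Gc ℝ :=
  ⟨g.e1, g.eb, g.er, g.c11, g.c1b, g.cbb, g.c1r, g.cbr, g.crr, g.cE0, g.cE1, g.b0, g.b1⟩
def cL (l : Lc ℤ) : Lc ℝ := ⟨l.q0, l.q1, l.q2, l.k0, l.k1, l.t0, l.t1, l.t2⟩

def sG (C : ℝ) (g : Gc ℝ) : Gc ℝ :=
  ⟨C * g.e1, C * g.eb, C * g.er, C * g.c11, C * g.c1b, C * g.cbb, C * g.c1r, C * g.cbr, C * g.crr,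
    C * g.cE0, C * g.cE1, C * g.b0, C * g.b1⟩
def sL (C : ℝ) (l : Lc ℝ) : Lc ℝ :=
  ⟨C * l.q0, C * l.q1, C * l.q2, C * l.k0, C * l.k1, C * l.t0, C * l.t1, C * l.t2⟩

def Aff (f : ℝ → ℝ) : Prop := ∀ x, f x = f 0 + (f 1 - f 0) * x

lemma Cub.of {f : ℝ → ℝ} (h : ∀ x, f x = f 0 + (-f (-1) / 3 - f 0 / 2 + f 1 - f 2 / 6) * x +
    ((f (-1) + f 1) / 2 - f 0) * x ^ 2 + (-f (-1) / 6 + f 0 / 2 - f 1 / 2 + f 2 / 6) * x ^ 3) :
    Cub f := ⟨_, _, _, _, h⟩

lemma Qua.of {f : ℝ → ℝ} (h : ∀ x, f x = f 0 + (f 1 - f (-1)) / 2 * x +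
    ((f (-1) + f 1) / 2 - f 0) * x ^ 2) : Qua f := ⟨_, _, _, h⟩

lemma Cub.dot : ∀ (w : List ℝ) (n : ℕ) (F : ℝ → List ℝ), (∀ x, (F x).length = n) →
    (∀ i < n, Cub (fun x => (F x).getD i 0)) → Cub (fun x => dotL (F x) w)
  | [], n, F, _, _ => ⟨0, 0, 0, 0, fun x => by cases F x <;> simp [dotL]⟩
  | b :: w, 0, F, h, _ => ⟨0, 0, 0, 0, fun x => by
      have : F x = [] := List.length_eq_zero_iff.1 (h x)
      simp [this, dotL]⟩
  | b :: w, n + 1, F, h, hc => by
    have hd : ∀ x, F x = (F x).getD 0 0 :: (F x).tail := fun x => by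
      match hF : F x, h x with
      | a :: t, _ => rfl
    have h1 := hc 0 (Nat.succ_pos n)
    have h2 := Cub.dot w n (fun x => (F x).tail) (fun x => by
      rw [List.length_tail, h x]; rfl) (fun i hi => by
      have := hc (i + 1) (by omega)
      have e : (fun x => (F x).getD (i + 1) 0) = fun x => (F x).tail.getD i 0 := by
        funext x
        rw [hd x]; simp
      rw [e] at this; exact this)
    obtain ⟨a, b', c, d, ha⟩ := h1
    obtain ⟨a', b'', c', d', hb⟩ := h2
    refine ⟨a * b + a', b' * b + b'', c * b + c', d * b + d', fun x => ?_⟩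
    have e : dotL (F x) (b :: w) = (F x).getD 0 0 * b + dotL (F x).tail w := by
      rw [hd x]; simp [dotL]
    simp only at ha hb ⊢
    rw [e, ha, hb]
    ring

lemma Qua.dot : ∀ (w : List ℝ) (n : ℕ) (F : ℝ → List ℝ), (∀ x, (F x).length = n) →
    (∀ i < n, Qua (fun x => (F x).getD i 0)) → Qua (fun x => dotL (F x) w)
  | [], n, F, _, _ => ⟨0, 0, 0, fun x => by cases F x <;> simp [dotL]⟩
  | b :: w, 0, F, h, _ => ⟨0, 0, 0, fun x => by
      have : F x = [] := List.length_eq_zero_iff.1 (h x)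
      simp [this, dotL]⟩
  | b :: w, n + 1, F, h, hc => by
    have hd : ∀ x, F x = (F x).getD 0 0 :: (F x).tail := fun x => by
      match hF : F x, h x with
      | a :: t, _ => rfl
    have h1 := hc 0 (Nat.succ_pos n)
    have h2 := Qua.dot w n (fun x => (F x).tail) (fun x => by
      rw [List.length_tail, h x]; rfl) (fun i hi => by
      have := hc (i + 1) (by omega)
      have e : (fun x => (F x).getD (i + 1) 0) = fun x => (F x).tail.getD i 0 := by
        funext x
        rw [hd x]; simp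
      rw [e] at this; exact this)
    obtain ⟨a, b', c, ha⟩ := h1
    obtain ⟨a', b'', c', hb⟩ := h2
    refine ⟨a * b + a', b' * b + b'', c * b + c', fun x => ?_⟩
    have e : dotL (F x) (b :: w) = (F x).getD 0 0 * b + dotL (F x).tail w := by
      rw [hd x]; simp [dotL]
    simp only at ha hb ⊢
    rw [e, ha, hb]
    ring

lemma Aff.dot : ∀ (w : List ℝ) (n : ℕ) (F : ℝ → List ℝ), (∀ x, (F x).length = n) →
    (∀ i < n, Aff (fun x => (F x).getD i 0)) → Aff (fun x => dotL (F x) w)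
  | [], n, F, _, _ => fun x => by
      have : ∀ l : List ℝ, dotL l [] = 0 := fun l => by cases l <;> simp [dotL]
      simp [this]
  | b :: w, 0, F, h, _ => fun x => by
      have : ∀ x, F x = [] := fun x => List.length_eq_zero_iff.1 (h x)
      simp [this, dotL]
  | b :: w, n + 1, F, h, hc => by
    have hd : ∀ x, F x = (F x).getD 0 0 :: (F x).tail := fun x => by
      match hF : F x, h x with
      | a :: t, _ => rfl
    have h1 := hc 0 (Nat.succ_pos n)
    have h2 := Aff.dot w n (fun x => (F x).tail) (fun x => by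
      rw [List.length_tail, h x]; rfl) (fun i hi => by
      have := hc (i + 1) (by omega)
      have e : (fun x => (F x).getD (i + 1) 0) = fun x => (F x).tail.getD i 0 := by
        funext x
        rw [hd x]; simp
      rw [e] at this; exact this)
    intro x
    have e : ∀ x, dotL (F x) (b :: w) = (F x).getD 0 0 * b + dotL (F x).tail w := fun x => by
      rw [hd x]; simp [dotL]
    have e1 := h1 x
    have e2 := h2 x
    simp only at e1 e2 ⊢
    rw [e x, e 0, e 1, e1, e2]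
    ring

lemma dotL_map (κ : ℝ) : ∀ (m w : List ℝ), dotL (m.map (fun z => κ * z)) w = κ * dotL m w
  | [], w => by simp [dotL]
  | a :: m, [] => by simp [dotL]
  | a :: m, b :: w => by
    simp only [List.map_cons, dotL]
    rw [dotL_map κ m w]; ring

lemma Aff.nn {f : ℝ → ℝ} (hf : Aff f) {a b : ℝ} (h0 : 0 ≤ f a) (h1 : 0 ≤ f b) {T : ℝ} (ha : a ≤ T)
    (hb : T ≤ b) : 0 ≤ f T := by
  rcases (ha.trans hb).eq_or_lt with rfl | hab
  · rw [le_antisymm hb ha]; exact h0
  have e : (b - a) * f T = (b - T) * f a + (T - a) * f b := by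
    rw [hf T, hf a, hf b]; ring
  have : 0 ≤ (b - a) * f T := by
    rw [e]
    exact add_nonneg (mul_nonneg (by linarith) h0) (mul_nonneg (by linarith) h1)
  exact nonneg_of_mul_nonneg_right this (by linarith)

end Pool.G1.NB
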