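import Pool.Agent.Work.MP_b5407d_nb.NBdeg
import Mathlib.Tactic.IntervalCases

/-!
# degrees, cast and scaling of `matB`
-/

set_option autoImplicit false
set_option maxRecDepth 4000

namespace Pool.G1.NB

section
variable (V C : ℝ) (g : Gc ℝ) (U s : ℝ) (l l' : Lc ℝ) (tb : ℝ)

lemma matB_cubx (y T : ℝ) (i : ℕ) (hi : i < 21) :
    Cub (fun x => (matB NR V C g U s l l' tb x y T).getD i 0) := by
  apply Cub.of
  intro x
  simp only [matB, mat, chBa, chBb, chain, mo1, mo2, mb1, mb2, dd1, dd2, dd3]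
  interval_cases i <;> simp only [List.getD_cons_zero, List.getD_cons_succ] <;> ring

lemma matB_cuby (x T : ℝ) (i : ℕ) (hi : i < 21) :
    Cub (fun y => (matB NR V C g U s l l' tb x y T).getD i 0) := by
  apply Cub.of
  intro y
  simp only [matB, mat, chBa, chBb, chain, mo1, mo2, mb1, mb2, dd1, dd2, dd3]
  interval_cases i <;> simp only [List.getD_cons_zero, List.getD_cons_succ] <;> ring

lemma matB_aff (x y : ℝ) (i : ℕ) (hi : i < 21) :
    Aff (fun T => (matB NR V C g U s l l' tb x y T).getD i 0) := by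
  intro T
  simp only [matB, mat, chBa, chBb, chain, mo1, mo2, mb1, mb2, dd1, dd2, dd3]
  interval_cases i <;> simp only [List.getD_cons_zero, List.getD_cons_succ] <;> ring

end

lemma matB_cast (V C : ℤ) (g : Gc ℤ) (U s : ℤ) (l l' : Lc ℤ) (tb x y T : ℤ) :
    rc (matB NI V C g U s l l' tb x y T) =
      matB NR V C (cG g) U s (cL l) (cL l') tb x y T := by
  simp only [matB, mat, chBa, chBb, chain, mo1, mo2, mb1, mb2, dd1, dd2, dd3, rc, List.map_cons,
    List.map_nil, cG, cL, NI, NR, Int.ofNat_eq_natCast]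
  push_cast
  repeat' (apply congrArg₂ List.cons)
  all_goals first | rfl | ring

lemma matB_scale (V C : ℝ) (g : Gc ℝ) (U s : ℝ) (l l' : Lc ℝ) (tb x y T : ℝ) :
    matB NR V C (sG C g) U s (sL C l) (sL C l') (C * tb) (U * x) (U * y) (V * T) =
      (matB NR 1 1 g 1 s l l' tb x y T).map (fun z => U ^ 3 * V * C ^ 3 * z) := by
  simp only [matB, mat, chBa, chBb, chain, mo1, mo2, mb1, mb2, dd1, dd2, dd3, List.map_cons,
    List.map_nil, sG, sL, NR]
  push_cast
  repeat' (apply congrArg₂ List.cons)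
  all_goals first | rfl | ring

end Pool.G1.NB
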