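import Pool.Agent.Work.MP_b5407d_nb.NBdeg
import Mathlib.Tactic.IntervalCases

/-!
# degrees, cast and scaling of `matK`
-/

set_option autoImplicit false
set_option maxRecDepth 4000

namespace Pool.G1.NB

section
variable (V C : ℝ) (g : Gc ℝ) (Ur Uu : ℝ) (l l' : Lc ℝ) (tb : ℝ)

lemma matK_quar (P Q T : ℝ) (i : ℕ) (hi : i < 21) :
    Qua (fun r => (matK NR V C g Ur Uu l l' tb r P Q T).getD i 0) := by
  apply Qua.of
  intro x
  simp only [matK, mat, chKa, chKb, chain, mo1, mo2, mb1, mb2, dd1, dd2, dd3]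
  interval_cases i <;> simp only [List.getD_cons_zero, List.getD_cons_succ] <;> ring

lemma matK_cubP (r Q T : ℝ) (i : ℕ) (hi : i < 21) :
    Cub (fun P => (matK NR V C g Ur Uu l l' tb r P Q T).getD i 0) := by
  apply Cub.of
  intro y
  simp only [matK, mat, chKa, chKb, chain, mo1, mo2, mb1, mb2, dd1, dd2, dd3]
  interval_cases i <;> simp only [List.getD_cons_zero, List.getD_cons_succ] <;> ring

lemma matK_cubQ (r P T : ℝ) (i : ℕ) (hi : i < 21) :
    Cub (fun Q => (matK NR V C g Ur Uu l l' tb r P Q T).getD i 0) := by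
  apply Cub.of
  intro y
  simp only [matK, mat, chKa, chKb, chain, mo1, mo2, mb1, mb2, dd1, dd2, dd3]
  interval_cases i <;> simp only [List.getD_cons_zero, List.getD_cons_succ] <;> ring

lemma matK_aff (r P Q : ℝ) (i : ℕ) (hi : i < 21) :
    Aff (fun T => (matK NR V C g Ur Uu l l' tb r P Q T).getD i 0) := by
  intro T
  simp only [matK, mat, chKa, chKb, chain, mo1, mo2, mb1, mb2, dd1, dd2, dd3]
  interval_cases i <;> simp only [List.getD_cons_zero, List.getD_cons_succ] <;> ring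

end

lemma matK_cast (V C : ℤ) (g : Gc ℤ) (Ur Uu : ℤ) (l l' : Lc ℤ) (tb r P Q T : ℤ) :
    rc (matK NI V C g Ur Uu l l' tb r P Q T) =
      matK NR V C (cG g) Ur Uu (cL l) (cL l') tb r P Q T := by
  simp only [matK, mat, chKa, chKb, chain, mo1, mo2, mb1, mb2, dd1, dd2, dd3, rc, List.map_cons,
    List.map_nil, cG, cL, NI, NR, Int.ofNat_eq_natCast]
  push_cast
  repeat' (apply congrArg₂ List.cons)
  all_goals first | rfl | ring

lemma matK_scale (V C : ℝ) (g : Gc ℝ) (Ur Uu : ℝ) (l l' : Lc ℝ) (tb r P Q T : ℝ) :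
    matK NR V C (sG C g) Ur Uu (sL C l) (sL C l') (C * tb) (Ur * r) (Uu * P) (Uu * Q) (V * T) =
      (matK NR 1 1 g 1 1 l l' tb r P Q T).map (fun z => Ur ^ 2 * Uu ^ 3 * V * C ^ 3 * z) := by
  simp only [matK, mat, chKa, chKb, chain, mo1, mo2, mb1, mb2, dd1, dd2, dd3, List.map_cons,
    List.map_nil, sG, sL, NR]
  push_cast
  repeat' (apply congrArg₂ List.cons)
  all_goals first | rfl | ring

end Pool.G1.NB
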