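import Pool.Agent.Work.MP_b5407d_nb.NBbridge

/-!
# certified charts give `CERTat` and `FIN6at`
-/

set_option autoImplicit false

namespace Pool.G1.NB

open Pool.G1.Gap

lemma wB {g : Gc ℝ} {s n n' τ : ℝ} {l l' : Lc ℝ} :
    (chBa NR 1 1 g 1 s n n' τ l).wo / 8 =
      (2 + n' - n) / 8 + s * (2 - n - n') * (g.cE0 - s * g.cE1) / 8 + l.t0 ∧
    (chBa NR 1 1 g 1 s n n' τ l).wm / 8 =
      (2 + n - n') / 8 + s * (2 - n - n') * (g.cE0 - s * g.cE1) / 8 + l.t1 ∧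
    (chBa NR 1 1 g 1 s n n' τ l).wf / 8 =
      (2 + n - n') / 8 + s * (2 - n - n') * (g.cE0 + s * g.cE1) / 8 + l.t2 ∧
    (chBb NR 1 1 g 1 s n n' τ l').wo / 8 =
      (2 + n - n') / 8 + s * (2 - n - n') * (g.cE0 - s * g.cE1) / 8 + l'.t0 ∧
    (chBb NR 1 1 g 1 s n n' τ l').wm / 8 =
      (2 + n' - n) / 8 + s * (2 - n - n') * (g.cE0 - s * g.cE1) / 8 + l'.t1 ∧
    (chBb NR 1 1 g 1 s n n' τ l').wf / 8 =
      (2 + n' - n) / 8 + s * (2 - n - n') * (g.cE0 + s * g.cE1) / 8 + l'.t2 := by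
  simp only [chBa, chBb, chain, NR]
  push_cast
  refine ⟨?_, ?_, ?_, ?_, ?_, ?_⟩ <;> ring

lemma wK {g : Gc ℝ} {r P Q τ : ℝ} {l l' : Lc ℝ} :
    (chKa NR 1 1 g 1 1 r P Q τ l).wo / 8 =
      (4 - r * (P + Q)) / 8 + (r * Q - r * P) * (g.cE0 - g.cE1) / 8 + l.t0 ∧
    r * (chKa NR 1 1 g 1 1 r P Q τ l).wm / 8 =
      r * (P + Q) / 8 + (r * Q - r * P) * (g.cE0 - g.cE1) / 8 + r * l.t1 ∧
    r * (chKa NR 1 1 g 1 1 r P Q τ l).wf / 8 =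
      r * (P + Q) / 8 + (r * Q - r * P) * (g.cE0 + g.cE1) / 8 + r * l.t2 ∧
    (chKb NR 1 1 g 1 1 r P Q τ l').wo / 8 =
      (4 - r * (P + Q)) / 8 + (r * Q - r * P) * (g.cE0 + g.cE1) / 8 + l'.t0 ∧
    r * (chKb NR 1 1 g 1 1 r P Q τ l').wm / 8 =
      r * (P + Q) / 8 + (r * Q - r * P) * (g.cE0 + g.cE1) / 8 + r * l'.t1 ∧
    r * (chKb NR 1 1 g 1 1 r P Q τ l').wf / 8 =
      r * (P + Q) / 8 + (r * Q - r * P) * (g.cE0 - g.cE1) / 8 + r * l'.t2 := by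
  simp only [chKa, chKb, chain, NR]
  push_cast
  refine ⟨?_, ?_, ?_, ?_, ?_, ?_⟩ <;> ring

/-- one pair of states in a chart `K` -/
lemma fin_K {g : Gc ℝ} {τ β r P Q a b : ℝ} (hτ0 : 0 < τ) (hτ1 : τ < 1) (hr : 0 ≤ r)
    (hG : GoodK g r P Q τ) (ha : a = 1 - r * P) (hb : b = -(1 - r * Q)) (n0 : 0 ≤ r * P)
    (n1 : r * P ≤ 1) (m0 : 0 ≤ r * Q) (m1 : r * Q ≤ 1) {N1 N2 N3 N1' N2' N3' : ℝ}
    (e1 : N1 = (1 - a) * (1 - τ * (1 + a) / 2)) (e2 : N2 = a * (1 - τ * a / 2)) (e3 : N3 = 1 + τ / 2)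
    (e1' : N1' = 1 - τ / 2) (e2' : N2' = -(b * (1 - τ * b / 2)))
    (e3' : N3' = (1 + b) * (1 + τ * (1 - b) / 2)) :
    ∃ t1 t2 t3 t1' t2' t3' tb tV : ℝ, 0 ≤ t1 ∧ 0 ≤ t2 ∧ 0 ≤ t3 ∧ 0 ≤ t1' ∧ 0 ≤ t2' ∧ 0 ≤ t3' ∧
      0 ≤ tb ∧ 0 ≤ tV ∧
      0 ≤ (2 + (a - b)) / 8 + (a + b) * ((cfOf g).cE0 - (cfOf g).cE1) / 8 + t1 ∧
      0 ≤ (2 - (a - b) + 2 * (a - b) * 0) / 8 +
        (a + b) * ((cfOf g).cE0 + (2 * 0 - 1) * (cfOf g).cE1) / 8 + t2 ∧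
      0 ≤ (2 - (a - b)) / 8 + (a + b) * ((cfOf g).cE0 + (cfOf g).cE1) / 8 + t3 ∧
      0 ≤ (2 - (a - b)) / 8 + (a + b) * ((cfOf g).cE0 - (cfOf g).cE1) / 8 + t1' ∧
      0 ≤ (2 + (a - b) - 2 * (a - b) * 1) / 8 +
        (a + b) * ((cfOf g).cE0 + (2 * 1 - 1) * (cfOf g).cE1) / 8 + t2' ∧
      0 ≤ (2 + (a - b)) / 8 + (a + b) * ((cfOf g).cE0 + (cfOf g).cE1) / 8 + t3' ∧
      ∀ V g1 g2 g3 h1 h2 h3 g1' g2' g3' h1' h2' h3' : ℝ,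
        N1 * g1 + N2 * g2 + N3 * g3 = 2 * β → N1' * g1' + N2' * g2' + N3' * g3' = 2 * β →
        0 ≤ FQ (cfOf g) τ a b g.b0 g.b1 N1 N2 N3 0 N1' N2' N3' 1 t1 t2 t3 t1' t2' t3' tb tV β V
          g1 g2 g3 h1 h2 h3 g1' g2' g3' h1' h2' h3' := by
  obtain ⟨l, l', tb, s1, s2, s3, s1', s2', s3', hb0, hk, hk', w1, w2, w3, w1', w2', w3', H⟩ := hG
  obtain ⟨z1, z2, z3, z1', z2', z3'⟩ := wK (g := g) (r := r) (P := P) (Q := Q) (τ := τ) (l := l)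
    (l' := l')
  have w1 : 0 ≤ (chKa NR 1 1 g 1 1 r P Q τ l).wo / 8 := by positivity
  have w2 : 0 ≤ r * (chKa NR 1 1 g 1 1 r P Q τ l).wm / 8 := by positivity
  have w3 : 0 ≤ r * (chKa NR 1 1 g 1 1 r P Q τ l).wf / 8 := by positivity
  have w1' : 0 ≤ (chKb NR 1 1 g 1 1 r P Q τ l').wo / 8 := by positivity
  have w2' : 0 ≤ r * (chKb NR 1 1 g 1 1 r P Q τ l').wm / 8 := by positivity
  have w3' : 0 ≤ r * (chKb NR 1 1 g 1 1 r P Q τ l').wf / 8 := by positivity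
  -- the weights of `FQ`
  have q1 : (2 + (a - b)) / 8 + (a + b) * (g.cE0 - g.cE1) / 8 + l.t0 =
      (chKa NR 1 1 g 1 1 r P Q τ l).wo / 8 := by rw [z1, ha, hb]; ring
  have q2 : (2 - (a - b) + 2 * (a - b) * 0) / 8 + (a + b) * (g.cE0 + (2 * 0 - 1) * g.cE1) / 8 +
      r * l.t1 = r * (chKa NR 1 1 g 1 1 r P Q τ l).wm / 8 := by rw [z2, ha, hb]; ring
  have q3 : (2 - (a - b)) / 8 + (a + b) * (g.cE0 + g.cE1) / 8 + r * l.t2 =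
      r * (chKa NR 1 1 g 1 1 r P Q τ l).wf / 8 := by rw [z3, ha, hb]; ring
  have q1' : (2 - (a - b)) / 8 + (a + b) * (g.cE0 - g.cE1) / 8 + r * l'.t2 =
      r * (chKb NR 1 1 g 1 1 r P Q τ l').wf / 8 := by rw [z3', ha, hb]; ring
  have q2' : (2 + (a - b) - 2 * (a - b) * 1) / 8 + (a + b) * (g.cE0 + (2 * 1 - 1) * g.cE1) / 8 +
      r * l'.t1 = r * (chKb NR 1 1 g 1 1 r P Q τ l').wm / 8 := by rw [z2', ha, hb]; ring
  have q3' : (2 + (a - b)) / 8 + (a + b) * (g.cE0 + g.cE1) / 8 + l'.t0 =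
      (chKb NR 1 1 g 1 1 r P Q τ l').wo / 8 := by rw [z1', ha, hb]; ring
  refine ⟨l.t0, r * l.t1, r * l.t2, r * l'.t2, r * l'.t1, l'.t0, r * tb, 0, s1, mul_nonneg hr s2,
    mul_nonneg hr s3, mul_nonneg hr s3', mul_nonneg hr s2', s1', mul_nonneg hr hb0, le_rfl, ?_, ?_, ?_,
    ?_, ?_, ?_, ?_⟩
  · show 0 ≤ (2 + (a - b)) / 8 + (a + b) * (g.cE0 - g.cE1) / 8 + l.t0
    rw [q1]; exact w1
  · show 0 ≤ (2 - (a - b) + 2 * (a - b) * 0) / 8 + (a + b) * (g.cE0 + (2 * 0 - 1) * g.cE1) / 8 +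
      r * l.t1
    rw [q2]; exact w2
  · show 0 ≤ (2 - (a - b)) / 8 + (a + b) * (g.cE0 + g.cE1) / 8 + r * l.t2
    rw [q3]; exact w3
  · show 0 ≤ (2 - (a - b)) / 8 + (a + b) * (g.cE0 - g.cE1) / 8 + r * l'.t2
    rw [q1']; exact w3'
  · show 0 ≤ (2 + (a - b) - 2 * (a - b) * 1) / 8 + (a + b) * (g.cE0 + (2 * 1 - 1) * g.cE1) / 8 +
      r * l'.t1
    rw [q2']; exact w2'
  · show 0 ≤ (2 + (a - b)) / 8 + (a + b) * (g.cE0 + g.cE1) / 8 + l'.t0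
    rw [q3']; exact w1'
  intro V g1 g2 g3 h1 h2 h3 g1' g2' g3' h1' h2' h3' hs hs'
  have c1 := chain_pos (K := V - β) (h1 := h1) (h2 := h2) (h3 := h3) (t1 := l.t0) (t2 := r * l.t1)
    (t3 := r * l.t2) l.q0 l.q1 l.q2 hτ0 hτ1 n0 n1
    (by rw [e1, ha]; ring) (by rw [e2, ha]) e3 hs w1 w2 w3 hk
  have c2 := chain_neg (K := V - β) (h1 := h1') (h2 := h2') (h3 := h3') (t1 := r * l'.t2)
    (t2 := r * l'.t1) (t3 := l'.t0) l'.q0 l'.q1 l'.q2 hτ0 hτ1 m0 m1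
    e1' (by rw [e2', hb]; ring) (by rw [e3', hb]; ring) hs' w3' w2' w1' hk'
  have key := NF_K g l l' tb r P Q τ β ((1 - τ * (2 - r * P) / 2) * g1) (N2 * g2)
    ((1 + τ * (2 - r * Q) / 2) * g3') (N2' * g2')
  have pos := mul_nonneg hr (H (vec β ((1 - τ * (2 - r * P) / 2) * g1) (N2 * g2)
    ((1 + τ * (2 - r * Q) / 2) * g3') (N2' * g2')))
  rw [← key] at pos
  have pos' := nonneg_of_mul_nonneg_right pos (by norm_num : (0 : ℝ) < 48)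
  refine pos'.trans ?_
  rw [← ha, ← hb]
  rw [← ha] at c1
  rw [← hb] at c2
  refine FQ_ge ?_ ?_ ?_ ?_ ?_
  · rw [e1, ha]; ring
  · have : N1' * g1' + 1 * (N2' * g2') = 2 * β - N3' * g3' := by linarith
    rw [this, e3', hb]; ring
  · unfold rC
    have x1 : N3 * g3 = 2 * β - N1 * g1 - N2 * g2 := by linarith
    have x2 : N1' * g1' = 2 * β - N2' * g2' - N3' * g3' := by linarith
    rw [x1, x2, e1, e3', ha, hb]; ring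
  · rw [q1, q2, q3]; exact c1
  · rw [q1', q2', q3']; exact c2

/-- both states of the sign `+` -/
lemma fin_B1 {g : Gc ℝ} {τ β a b k2 : ℝ} (hτ0 : 0 < τ) (hτ1 : τ < 1)
    (hG : GoodB g 1 (1 - a) (1 - b) τ) (ha0 : 0 ≤ a) (ha1 : a ≤ 1) (hb0 : 0 ≤ b) (hb1 : b ≤ 1)
    {N1 N2 N3 N1' N2' N3' : ℝ} (hk2 : k2 = 0 ∨ (a = 0 ∧ b = 0))
    (e1 : N1 = (1 - a) * (1 - τ * (1 + a) / 2)) (e2 : N2 = a * (1 - τ * a / 2)) (e3 : N3 = 1 + τ / 2)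
    (e1' : N1' = (1 - b) * (1 - τ * (1 + b) / 2)) (e2' : N2' = b * (1 - τ * b / 2))
    (e3' : N3' = 1 + τ / 2) :
    ∃ t1 t2 t3 t1' t2' t3' tb tV : ℝ, 0 ≤ t1 ∧ 0 ≤ t2 ∧ 0 ≤ t3 ∧ 0 ≤ t1' ∧ 0 ≤ t2' ∧ 0 ≤ t3' ∧
      0 ≤ tb ∧ 0 ≤ tV ∧
      0 ≤ (2 + (a - b)) / 8 + (a + b) * ((cfOf g).cE0 - (cfOf g).cE1) / 8 + t1 ∧
      0 ≤ (2 - (a - b) + 2 * (a - b) * k2) / 8 +
        (a + b) * ((cfOf g).cE0 + (2 * k2 - 1) * (cfOf g).cE1) / 8 + t2 ∧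
      0 ≤ (2 - (a - b)) / 8 + (a + b) * ((cfOf g).cE0 + (cfOf g).cE1) / 8 + t3 ∧
      0 ≤ (2 - (a - b)) / 8 + (a + b) * ((cfOf g).cE0 - (cfOf g).cE1) / 8 + t1' ∧
      0 ≤ (2 + (a - b) - 2 * (a - b) * 0) / 8 +
        (a + b) * ((cfOf g).cE0 + (2 * 0 - 1) * (cfOf g).cE1) / 8 + t2' ∧
      0 ≤ (2 + (a - b)) / 8 + (a + b) * ((cfOf g).cE0 + (cfOf g).cE1) / 8 + t3' ∧
      ∀ V g1 g2 g3 h1 h2 h3 g1' g2' g3' h1' h2' h3' : ℝ,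
        N1 * g1 + N2 * g2 + N3 * g3 = 2 * β → N1' * g1' + N2' * g2' + N3' * g3' = 2 * β →
        0 ≤ FQ (cfOf g) τ a b g.b0 g.b1 N1 N2 N3 k2 N1' N2' N3' 0 t1 t2 t3 t1' t2' t3' tb tV β V
          g1 g2 g3 h1 h2 h3 g1' g2' g3' h1' h2' h3' := by
  obtain ⟨l, l', tb, s1, s2, s3, s1', s2', s3', hb0', hk, hk', w1, w2, w3, w1', w2', w3', H⟩ := hG
  obtain ⟨z1, z2, z3, z1', z2', z3'⟩ := wB (g := g) (s := 1) (n := 1 - a) (n' := 1 - b) (τ := τ)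
    (l := l) (l' := l')
  have w1 : 0 ≤ (chBa NR 1 1 g 1 1 (1 - a) (1 - b) τ l).wo / 8 := by positivity
  have w2 : 0 ≤ (chBa NR 1 1 g 1 1 (1 - a) (1 - b) τ l).wm / 8 := by positivity
  have w3 : 0 ≤ (chBa NR 1 1 g 1 1 (1 - a) (1 - b) τ l).wf / 8 := by positivity
  have w1' : 0 ≤ (chBb NR 1 1 g 1 1 (1 - a) (1 - b) τ l').wo / 8 := by positivity
  have w2' : 0 ≤ (chBb NR 1 1 g 1 1 (1 - a) (1 - b) τ l').wm / 8 := by positivity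
  have w3' : 0 ≤ (chBb NR 1 1 g 1 1 (1 - a) (1 - b) τ l').wf / 8 := by positivity
  have q1 : (2 + (a - b)) / 8 + (a + b) * (g.cE0 - g.cE1) / 8 + l.t0 =
      (chBa NR 1 1 g 1 1 (1 - a) (1 - b) τ l).wo / 8 := by rw [z1]; ring
  have q2 : (2 - (a - b) + 2 * (a - b) * k2) / 8 + (a + b) * (g.cE0 + (2 * k2 - 1) * g.cE1) / 8 +
      l.t1 = (chBa NR 1 1 g 1 1 (1 - a) (1 - b) τ l).wm / 8 := by
    rcases hk2 with h | ⟨h, h'⟩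
    · rw [z2, h]; ring
    · rw [z2, h, h']; ring
  have q3 : (2 - (a - b)) / 8 + (a + b) * (g.cE0 + g.cE1) / 8 + l.t2 =
      (chBa NR 1 1 g 1 1 (1 - a) (1 - b) τ l).wf / 8 := by rw [z3]; ring
  have q1' : (2 - (a - b)) / 8 + (a + b) * (g.cE0 - g.cE1) / 8 + l'.t0 =
      (chBb NR 1 1 g 1 1 (1 - a) (1 - b) τ l').wo / 8 := by rw [z1']; ring
  have q2' : (2 + (a - b) - 2 * (a - b) * 0) / 8 + (a + b) * (g.cE0 + (2 * 0 - 1) * g.cE1) / 8 +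
      l'.t1 = (chBb NR 1 1 g 1 1 (1 - a) (1 - b) τ l').wm / 8 := by rw [z2']; ring
  have q3' : (2 + (a - b)) / 8 + (a + b) * (g.cE0 + g.cE1) / 8 + l'.t2 =
      (chBb NR 1 1 g 1 1 (1 - a) (1 - b) τ l').wf / 8 := by rw [z3']; ring
  have k2N : k2 * N2 = 0 := by
    rcases hk2 with h | ⟨h, h'⟩
    · rw [h]; ring
    · rw [e2, h]; ring
  refine ⟨l.t0, l.t1, l.t2, l'.t0, l'.t1, l'.t2, tb, 0, s1, s2, s3, s1', s2', s3', hb0', le_rfl, ?_, ?_,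
    ?_, ?_, ?_, ?_, ?_⟩
  · show 0 ≤ (2 + (a - b)) / 8 + (a + b) * (g.cE0 - g.cE1) / 8 + l.t0
    rw [q1]; exact w1
  · show 0 ≤ (2 - (a - b) + 2 * (a - b) * k2) / 8 + (a + b) * (g.cE0 + (2 * k2 - 1) * g.cE1) / 8 +
      l.t1
    rw [q2]; exact w2
  · show 0 ≤ (2 - (a - b)) / 8 + (a + b) * (g.cE0 + g.cE1) / 8 + l.t2
    rw [q3]; exact w3
  · show 0 ≤ (2 - (a - b)) / 8 + (a + b) * (g.cE0 - g.cE1) / 8 + l'.t0
    rw [q1']; exact w1'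
  · show 0 ≤ (2 + (a - b) - 2 * (a - b) * 0) / 8 + (a + b) * (g.cE0 + (2 * 0 - 1) * g.cE1) / 8 +
      l'.t1
    rw [q2']; exact w2'
  · show 0 ≤ (2 + (a - b)) / 8 + (a + b) * (g.cE0 + g.cE1) / 8 + l'.t2
    rw [q3']; exact w3'
  intro V g1 g2 g3 h1 h2 h3 g1' g2' g3' h1' h2' h3' hs hs'
  have c1 := chain_pos (K := V - β) (h1 := h1) (h2 := h2) (h3 := h3) (t1 := l.t0) (t2 := l.t1)
    (t3 := l.t2) l.q0 l.q1 l.q2 hτ0 hτ1 (n := 1 - a) (by linarith) (by linarith)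
    (by rw [e1]; ring) (by rw [e2]; ring) e3 hs w1 w2 w3 hk
  have c2 := chain_pos (K := V - β) (h1 := h1') (h2 := h2') (h3 := h3') (t1 := l'.t0)
    (t2 := l'.t1) (t3 := l'.t2) l'.q0 l'.q1 l'.q2 hτ0 hτ1 (n := 1 - b) (by linarith) (by linarith)
    (by rw [e1']; ring) (by rw [e2']; ring) e3' hs' w1' w2' w3' hk'
  have key := NF_B1 g l l' tb (1 - a) (1 - b) τ β ((1 - τ * (2 - (1 - a)) / 2) * g1) (N2 * g2)
    ((1 - τ * (2 - (1 - b)) / 2) * g1') (N2' * g2')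
  have pos := H (vec β ((1 - τ * (2 - (1 - a)) / 2) * g1) (N2 * g2)
    ((1 - τ * (2 - (1 - b)) / 2) * g1') (N2' * g2'))
  rw [← key] at pos
  have pos' := nonneg_of_mul_nonneg_right pos (by norm_num : (0 : ℝ) < 48)
  refine pos'.trans ?_
  have ra : 1 - (1 - a) = a := by ring
  have rb : 1 - (1 - b) = b := by ring
  rw [ra, rb]
  rw [ra] at c1
  rw [rb] at c2
  refine FQ_ge ?_ ?_ ?_ ?_ ?_
  · have : k2 * (N2 * g2) = 0 := by rw [← mul_assoc, k2N, zero_mul]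
    rw [this, e1]; ring
  · rw [e1']; ring
  · unfold rC
    have x1 : N3 * g3 = 2 * β - N1 * g1 - N2 * g2 := by linarith
    have x2 : N3' * g3' = 2 * β - N1' * g1' - N2' * g2' := by linarith
    have x3 : (2 * k2 - 1) * (N2 * g2) = -(N2 * g2) := by
      have : k2 * (N2 * g2) = 0 := by rw [← mul_assoc, k2N, zero_mul]
      linarith
    rw [x3, x1, x2, e1, e1']; ring
  · rw [q1, q2, q3]; exact c1
  · rw [q1', q2', q3']; exact c2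

/-- both states of the sign `-` -/
lemma fin_B2 {g : Gc ℝ} {τ β a b : ℝ} (hτ0 : 0 < τ) (hτ1 : τ < 1)
    (hG : GoodB g (-1) (1 + a) (1 + b) τ) (ha0 : a ≤ 0) (ha1 : -1 ≤ a) (hb0 : b ≤ 0) (hb1 : -1 ≤ b)
    {N1 N2 N3 N1' N2' N3' : ℝ}
    (e1 : N1 = 1 - τ / 2) (e2 : N2 = -(a * (1 - τ * a / 2))) (e3 : N3 = (1 + a) * (1 + τ * (1 - a) / 2))
    (e1' : N1' = 1 - τ / 2) (e2' : N2' = -(b * (1 - τ * b / 2)))
    (e3' : N3' = (1 + b) * (1 + τ * (1 - b) / 2)) :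
    ∃ t1 t2 t3 t1' t2' t3' tb tV : ℝ, 0 ≤ t1 ∧ 0 ≤ t2 ∧ 0 ≤ t3 ∧ 0 ≤ t1' ∧ 0 ≤ t2' ∧ 0 ≤ t3' ∧
      0 ≤ tb ∧ 0 ≤ tV ∧
      0 ≤ (2 + (a - b)) / 8 + (a + b) * ((cfOf g).cE0 - (cfOf g).cE1) / 8 + t1 ∧
      0 ≤ (2 - (a - b) + 2 * (a - b) * 1) / 8 +
        (a + b) * ((cfOf g).cE0 + (2 * 1 - 1) * (cfOf g).cE1) / 8 + t2 ∧
      0 ≤ (2 - (a - b)) / 8 + (a + b) * ((cfOf g).cE0 + (cfOf g).cE1) / 8 + t3 ∧
      0 ≤ (2 - (a - b)) / 8 + (a + b) * ((cfOf g).cE0 - (cfOf g).cE1) / 8 + t1' ∧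
      0 ≤ (2 + (a - b) - 2 * (a - b) * 1) / 8 +
        (a + b) * ((cfOf g).cE0 + (2 * 1 - 1) * (cfOf g).cE1) / 8 + t2' ∧
      0 ≤ (2 + (a - b)) / 8 + (a + b) * ((cfOf g).cE0 + (cfOf g).cE1) / 8 + t3' ∧
      ∀ V g1 g2 g3 h1 h2 h3 g1' g2' g3' h1' h2' h3' : ℝ,
        N1 * g1 + N2 * g2 + N3 * g3 = 2 * β → N1' * g1' + N2' * g2' + N3' * g3' = 2 * β →
        0 ≤ FQ (cfOf g) τ a b g.b0 g.b1 N1 N2 N3 1 N1' N2' N3' 1 t1 t2 t3 t1' t2' t3' tb tV β V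
          g1 g2 g3 h1 h2 h3 g1' g2' g3' h1' h2' h3' := by
  obtain ⟨l, l', tb, s1, s2, s3, s1', s2', s3', hb0', hk, hk', w1, w2, w3, w1', w2', w3', H⟩ := hG
  obtain ⟨z1, z2, z3, z1', z2', z3'⟩ := wB (g := g) (s := -1) (n := 1 + a) (n' := 1 + b) (τ := τ)
    (l := l) (l' := l')
  have w1 : 0 ≤ (chBa NR 1 1 g 1 (-1) (1 + a) (1 + b) τ l).wo / 8 := by positivity
  have w2 : 0 ≤ (chBa NR 1 1 g 1 (-1) (1 + a) (1 + b) τ l).wm / 8 := by positivity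
  have w3 : 0 ≤ (chBa NR 1 1 g 1 (-1) (1 + a) (1 + b) τ l).wf / 8 := by positivity
  have w1' : 0 ≤ (chBb NR 1 1 g 1 (-1) (1 + a) (1 + b) τ l').wo / 8 := by positivity
  have w2' : 0 ≤ (chBb NR 1 1 g 1 (-1) (1 + a) (1 + b) τ l').wm / 8 := by positivity
  have w3' : 0 ≤ (chBb NR 1 1 g 1 (-1) (1 + a) (1 + b) τ l').wf / 8 := by positivity
  have q1 : (2 + (a - b)) / 8 + (a + b) * (g.cE0 - g.cE1) / 8 + l.t2 =
      (chBa NR 1 1 g 1 (-1) (1 + a) (1 + b) τ l).wf / 8 := by rw [z3]; ring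
  have q2 : (2 - (a - b) + 2 * (a - b) * 1) / 8 + (a + b) * (g.cE0 + (2 * 1 - 1) * g.cE1) / 8 +
      l.t1 = (chBa NR 1 1 g 1 (-1) (1 + a) (1 + b) τ l).wm / 8 := by rw [z2]; ring
  have q3 : (2 - (a - b)) / 8 + (a + b) * (g.cE0 + g.cE1) / 8 + l.t0 =
      (chBa NR 1 1 g 1 (-1) (1 + a) (1 + b) τ l).wo / 8 := by rw [z1]; ring
  have q1' : (2 - (a - b)) / 8 + (a + b) * (g.cE0 - g.cE1) / 8 + l'.t2 =
      (chBb NR 1 1 g 1 (-1) (1 + a) (1 + b) τ l').wf / 8 := by rw [z3']; ring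
  have q2' : (2 + (a - b) - 2 * (a - b) * 1) / 8 + (a + b) * (g.cE0 + (2 * 1 - 1) * g.cE1) / 8 +
      l'.t1 = (chBb NR 1 1 g 1 (-1) (1 + a) (1 + b) τ l').wm / 8 := by rw [z2']; ring
  have q3' : (2 + (a - b)) / 8 + (a + b) * (g.cE0 + g.cE1) / 8 + l'.t0 =
      (chBb NR 1 1 g 1 (-1) (1 + a) (1 + b) τ l').wo / 8 := by rw [z1']; ring
  refine ⟨l.t2, l.t1, l.t0, l'.t2, l'.t1, l'.t0, tb, 0, s3, s2, s1, s3', s2', s1', hb0', le_rfl, ?_, ?_,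
    ?_, ?_, ?_, ?_, ?_⟩
  · show 0 ≤ (2 + (a - b)) / 8 + (a + b) * (g.cE0 - g.cE1) / 8 + l.t2
    rw [q1]; exact w3
  · show 0 ≤ (2 - (a - b) + 2 * (a - b) * 1) / 8 + (a + b) * (g.cE0 + (2 * 1 - 1) * g.cE1) / 8 +
      l.t1
    rw [q2]; exact w2
  · show 0 ≤ (2 - (a - b)) / 8 + (a + b) * (g.cE0 + g.cE1) / 8 + l.t0
    rw [q3]; exact w1
  · show 0 ≤ (2 - (a - b)) / 8 + (a + b) * (g.cE0 - g.cE1) / 8 + l'.t2
    rw [q1']; exact w3'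
  · show 0 ≤ (2 + (a - b) - 2 * (a - b) * 1) / 8 + (a + b) * (g.cE0 + (2 * 1 - 1) * g.cE1) / 8 +
      l'.t1
    rw [q2']; exact w2'
  · show 0 ≤ (2 + (a - b)) / 8 + (a + b) * (g.cE0 + g.cE1) / 8 + l'.t0
    rw [q3']; exact w1'
  intro V g1 g2 g3 h1 h2 h3 g1' g2' g3' h1' h2' h3' hs hs'
  have c1 := chain_neg (K := V - β) (h1 := h1) (h2 := h2) (h3 := h3) (t1 := l.t2) (t2 := l.t1)
    (t3 := l.t0) l.q0 l.q1 l.q2 hτ0 hτ1 (n := 1 + a) (by linarith) (by linarith)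
    e1 (by rw [e2]; ring) (by rw [e3]; ring) hs w3 w2 w1 hk
  have c2 := chain_neg (K := V - β) (h1 := h1') (h2 := h2') (h3 := h3') (t1 := l'.t2)
    (t2 := l'.t1) (t3 := l'.t0) l'.q0 l'.q1 l'.q2 hτ0 hτ1 (n := 1 + b) (by linarith) (by linarith)
    e1' (by rw [e2']; ring) (by rw [e3']; ring) hs' w3' w2' w1' hk'
  have key := NF_B2 g l l' tb (1 + a) (1 + b) τ β ((1 + τ * (2 - (1 + a)) / 2) * g3) (N2 * g2)
    ((1 + τ * (2 - (1 + b)) / 2) * g3') (N2' * g2')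
  have pos := H (vec β ((1 + τ * (2 - (1 + a)) / 2) * g3) (N2 * g2)
    ((1 + τ * (2 - (1 + b)) / 2) * g3') (N2' * g2'))
  rw [← key] at pos
  have pos' := nonneg_of_mul_nonneg_right pos (by norm_num : (0 : ℝ) < 48)
  refine pos'.trans ?_
  have ra : -(1 - (1 + a)) = a := by ring
  have rb : -(1 - (1 + b)) = b := by ring
  rw [ra, rb]
  rw [ra] at c1
  rw [rb] at c2
  refine FQ_ge ?_ ?_ ?_ ?_ ?_
  · have : N1 * g1 + 1 * (N2 * g2) = 2 * β - N3 * g3 := by linarith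
    rw [this, e3]; ring
  · have : N1' * g1' + 1 * (N2' * g2') = 2 * β - N3' * g3' := by linarith
    rw [this, e3']; ring
  · unfold rC
    have x1 : N1 * g1 = 2 * β - N2 * g2 - N3 * g3 := by linarith
    have x2 : N1' * g1' = 2 * β - N2' * g2' - N3' * g3' := by linarith
    rw [x1, x2, e3, e3']; ring
  · rw [q1, q2, q3]; exact c1
  · rw [q1', q2', q3']; exact c2

theorem CERTat_of_good {g : Gc ℝ} {τ β : ℝ} (hτ0 : 0 < τ) (hτ1 : τ < 1) (hb0 : g.b0 ≤ β)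
    (hb1 : β ≤ g.b1) (H1 : ∀ x y : ℝ, 0 ≤ x → x ≤ y → y ≤ 1 → GoodB g 1 x y τ)
    (H2 : ∀ x y : ℝ, 0 ≤ x → x ≤ y → y ≤ 1 → GoodB g (-1) y x τ)
    (H3 : ∀ x y : ℝ, 0 ≤ x → x ≤ 1 → 0 ≤ y → y ≤ 1 → GoodK g x 1 y τ)
    (H4 : ∀ x y : ℝ, 0 ≤ x → x ≤ 1 → 0 ≤ y → y ≤ 1 → GoodK g x y 1 τ) : CERTat τ β := by
  refine ⟨cfOf g, g.b0, g.b1, hb0, hb1, ?_⟩
  intro a b bm hab a1 N1 N2 N3 k2 N1' N2' N3' k2' G G'
  rcases G with ⟨ha, e1, e2, e3, ek⟩ | ⟨ha, e1, e2, e3, ek⟩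
  · rcases G' with ⟨hb, e1', e2', e3', ek'⟩ | ⟨hb, e1', e2', e3', ek'⟩
    · rw [ek']
      exact fin_B1 hτ0 hτ1 (H1 (1 - a) (1 - b) (by linarith) (by linarith) (by linarith)) ha a1 hb
        (hab.trans a1) (Or.inl ek) e1 e2 e3 e1' e2' e3'
    · rw [ek, ek']
      rcases le_total (1 + b) (1 - a) with h | h
      · rcases (show 0 ≤ 1 - a by linarith).eq_or_lt with h0 | h0
        · have hb' : b = -1 := by linarith
          refine fin_K (r := 1 - a) (P := 1) (Q := 0) hτ0 hτ1 (by linarith)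
            (H3 (1 - a) 0 (by linarith) (by linarith) le_rfl zero_le_one) (by ring)
            (by rw [hb']; ring) (by linarith) (by linarith) (by linarith) (by linarith) e1 e2 e3 e1'
            e2' e3'
        · have hm : (1 - a) * ((1 + b) / (1 - a)) = 1 + b := by field_simp
          have q0 : 0 ≤ (1 + b) / (1 - a) := div_nonneg (by linarith) h0.le
          have q1 : (1 + b) / (1 - a) ≤ 1 := by rw [div_le_one h0]; exact h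
          refine fin_K (r := 1 - a) (P := 1) (Q := (1 + b) / (1 - a)) hτ0 hτ1 h0.le
            (H3 (1 - a) _ h0.le (by linarith) q0 q1) (by ring)
            (by rw [hm]; ring) (by linarith) (by linarith) (by rw [hm]; linarith)
            (by rw [hm]; linarith) e1 e2 e3 e1' e2' e3'
      · rcases (show 0 ≤ 1 + b by linarith).eq_or_lt with h0 | h0
        · have ha' : a = 1 := by linarith
          refine fin_K (r := 1 + b) (P := 0) (Q := 1) hτ0 hτ1 (by linarith)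
            (H4 (1 + b) 0 (by linarith) (by linarith) le_rfl zero_le_one) (by rw [ha']; ring)
            (by ring) (by linarith) (by linarith) (by linarith) (by linarith) e1 e2 e3 e1'
            e2' e3'
        · have hm : (1 + b) * ((1 - a) / (1 + b)) = 1 - a := by field_simp
          have q0 : 0 ≤ (1 - a) / (1 + b) := div_nonneg (by linarith) h0.le
          have q1 : (1 - a) / (1 + b) ≤ 1 := by rw [div_le_one h0]; exact h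
          refine fin_K (r := 1 + b) (P := (1 - a) / (1 + b)) (Q := 1) hτ0 hτ1 h0.le
            (H4 (1 + b) _ h0.le (by linarith) q0 q1) (by rw [hm]; ring)
            (by ring) (by rw [hm]; linarith) (by rw [hm]; linarith) (by linarith)
            (by linarith) e1 e2 e3 e1' e2' e3'
  · rcases G' with ⟨hb, e1', e2', e3', ek'⟩ | ⟨hb, e1', e2', e3', ek'⟩
    · have ha' : a = 0 := by linarith
      have hb' : b = 0 := by linarith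
      rw [ek']
      exact fin_B1 hτ0 hτ1 (H1 (1 - a) (1 - b) (by linarith) (by linarith) (by linarith)) ha'.ge a1 hb
        (hab.trans a1) (Or.inr ⟨ha', hb'⟩) (by rw [e1, ha']; ring) (by rw [e2, ha']; ring)
        (by rw [e3, ha']; ring) e1' e2' e3'
    · rw [ek, ek']
      exact fin_B2 hτ0 hτ1 (H2 (1 + b) (1 + a) (by linarith) (by linarith) (by linarith)) ha
        (bm.trans hab) hb bm e1 e2 e3 e1' e2' e3'

/-- **a certified zone gives `FIN6at`** -/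
theorem Zone.fin6 {g : Gc ℤ} {t0 t1 : ℕ} (h : Zone g t0 t1) {τ β : ℝ} (hτ0 : 0 < τ) (hτ1 : τ < 1)
    (c1 : (t0 : ℝ) ≤ 1024 * τ) (c2 : 1024 * τ ≤ (t1 : ℝ)) (b0 : (g.b0 : ℝ) ≤ 65536 * β)
    (b1 : 65536 * β ≤ (g.b1 : ℝ)) (hβ0 : 0 ≤ β) (hβ1 : β ≤ 2 / 3) : FIN6at 0 τ β := by
  obtain ⟨H1, H2, H3, H4⟩ := h.good c1 c2
  refine FIN6at_of_CERTat hτ0 hτ1 hβ0 hβ1 (CERTat_of_good (g := gR g) hτ0 hτ1 ?_ ?_ H1 H2 H3 H4)
  · simp only [gR, sG, cG]; linarith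
  · simp only [gR, sG, cG]; linarith

end Pool.G1.NB
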