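import Pool.Agent.Work.MP_b5407d_nb.NBsound

/-!
# soundness of the leaf tests
-/

set_option autoImplicit false

namespace Pool.G1.NB

lemma bil_chBa (g : Gc ℝ) (U C s : ℝ) (l : Lc ℝ) (T : ℝ) :
    Bil (fun x y => (chBa NR U C g U s x y T l).wo) ∧ Bil (fun x y => (chBa NR U C g U s x y T l).wm) ∧
    Bil (fun x y => (chBa NR U C g U s x y T l).wf) := by
  refine ⟨?_, ?_, ?_⟩
  · refine ⟨(2 * U) * C + 8 * U * l.t0 + s * (2 * U) * (g.cE0 - s * g.cE1),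
      -C - s * (g.cE0 - s * g.cE1), C - s * (g.cE0 - s * g.cE1), 0, fun x y => ?_⟩
    simp only [chBa, chain, NR]; push_cast; ring
  · refine ⟨(2 * U) * C + 8 * U * l.t1 + s * (2 * U) * (g.cE0 - s * g.cE1),
      C - s * (g.cE0 - s * g.cE1), -C - s * (g.cE0 - s * g.cE1), 0, fun x y => ?_⟩
    simp only [chBa, chain, NR]; push_cast; ring
  · refine ⟨(2 * U) * C + 8 * U * l.t2 + s * (2 * U) * (g.cE0 + s * g.cE1),
      C - s * (g.cE0 + s * g.cE1), -C - s * (g.cE0 + s * g.cE1), 0, fun x y => ?_⟩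
    simp only [chBa, chain, NR]; push_cast; ring

lemma bil_chBb (g : Gc ℝ) (U C s : ℝ) (l : Lc ℝ) (T : ℝ) :
    Bil (fun x y => (chBb NR U C g U s x y T l).wo) ∧ Bil (fun x y => (chBb NR U C g U s x y T l).wm) ∧
    Bil (fun x y => (chBb NR U C g U s x y T l).wf) := by
  refine ⟨?_, ?_, ?_⟩
  · refine ⟨(2 * U) * C + 8 * U * l.t0 + s * (2 * U) * (g.cE0 - s * g.cE1),
      C - s * (g.cE0 - s * g.cE1), -C - s * (g.cE0 - s * g.cE1), 0, fun x y => ?_⟩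
    simp only [chBb, chain, NR]; push_cast; ring
  · refine ⟨(2 * U) * C + 8 * U * l.t1 + s * (2 * U) * (g.cE0 - s * g.cE1),
      -C - s * (g.cE0 - s * g.cE1), C - s * (g.cE0 - s * g.cE1), 0, fun x y => ?_⟩
    simp only [chBb, chain, NR]; push_cast; ring
  · refine ⟨(2 * U) * C + 8 * U * l.t2 + s * (2 * U) * (g.cE0 + s * g.cE1),
      -C - s * (g.cE0 + s * g.cE1), C - s * (g.cE0 + s * g.cE1), 0, fun x y => ?_⟩
    simp only [chBb, chain, NR]; push_cast; ring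

lemma kap_real {l : Lc ℤ} {x0 x1 : ℤ} (h0 : kchk CC0 GG (2 * GG - x0) l = true)
    (h1 : kchk CC0 GG (2 * GG - x1) l = true) (hk : 0 ≤ l.k1) {x : ℝ} (a1 : (x0 : ℝ) ≤ 1024 * x)
    (a2 : 1024 * x ≤ (x1 : ℝ)) :
    1 ≤ ((lR l).k0 - (lR l).k1 * (2 - x)) * (2 - x) := by
  have e := kchk_sound (Y := 1024 * (2 - x)) h0 h1 hk (by simp only [GG]; push_cast; linarith)
    (by simp only [GG]; push_cast; linarith)
  simp only [CC0, GG] at e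
  push_cast at e
  simp only [lR, sL, cL]
  nlinarith

theorem leafB_sound {g : Gc ℤ} {s : ℤ} {l l' : Lc ℤ} {tb x0 x1 y0 y1 t0 t1 : ℤ} (hl : Lnn l)
    (hl' : Lnn l') (htb : 0 ≤ tb) (h : leafB g s l l' tb x0 x1 y0 y1 t0 t1 = true) {x y T : ℝ}
    (a1 : (x0 : ℝ) ≤ 1024 * x) (a2 : 1024 * x ≤ (x1 : ℝ)) (b1 : (y0 : ℝ) ≤ 1024 * y)
    (b2 : 1024 * y ≤ (y1 : ℝ)) (c1 : (t0 : ℝ) ≤ 1024 * T) (c2 : 1024 * T ≤ (t1 : ℝ)) :
    GoodB (gR g) s x y T := by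
  simp only [leafB, Bool.and_eq_true] at h
  obtain ⟨⟨⟨⟨⟨⟨⟨⟨⟨⟨⟨⟨⟨k1, k2⟩, k3⟩, k4⟩, w1⟩, w2⟩, w3⟩, w4⟩, w5⟩, w6⟩, w7⟩, w8⟩, p0⟩, p1⟩ := h
  obtain ⟨s1, s2, s3, s4⟩ := hl
  obtain ⟨s1', s2', s3', s4'⟩ := hl'
  have nnR : ∀ z : ℤ, 0 ≤ z → (0 : ℝ) ≤ 1 / 65536 * (z : ℝ) := fun z hz =>
    mul_nonneg (by norm_num) (by exact_mod_cast hz)
  have W1 := wchk_sound w1
  have W2 := wchk_sound w2
  have W3 := wchk_sound w3
  have W4 := wchk_sound w4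
  have W5 := wchk_sound w5
  have W6 := wchk_sound w6
  have W7 := wchk_sound w7
  have W8 := wchk_sound w8
  rw [(chBa_c g s l x0 y0).1, (chBa_c g s l x0 y0).2.1, (chBa_c g s l x0 y0).2.2] at W1
  rw [(chBa_c g s l x0 y1).1, (chBa_c g s l x0 y1).2.1, (chBa_c g s l x0 y1).2.2] at W2
  rw [(chBa_c g s l x1 y0).1, (chBa_c g s l x1 y0).2.1, (chBa_c g s l x1 y0).2.2] at W3
  rw [(chBa_c g s l x1 y1).1, (chBa_c g s l x1 y1).2.1, (chBa_c g s l x1 y1).2.2] at W4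
  rw [(chBb_c g s l' x0 y0).1, (chBb_c g s l' x0 y0).2.1, (chBb_c g s l' x0 y0).2.2] at W5
  rw [(chBb_c g s l' x0 y1).1, (chBb_c g s l' x0 y1).2.1, (chBb_c g s l' x0 y1).2.2] at W6
  rw [(chBb_c g s l' x1 y0).1, (chBb_c g s l' x1 y0).2.1, (chBb_c g s l' x1 y0).2.2] at W7
  rw [(chBb_c g s l' x1 y1).1, (chBb_c g s l' x1 y1).2.1, (chBb_c g s l' x1 y1).2.2] at W8
  have pos : (0 : ℝ) < 1024 * 65536 := by norm_num
  have V1 := (bil_chBa (cG g) GG CC0 s (cL l) 0).1.nn W1.1 W2.1 W3.1 W4.1 a1 a2 b1 b2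
  have V2 := (bil_chBa (cG g) GG CC0 s (cL l) 0).2.1.nn W1.2.1 W2.2.1 W3.2.1 W4.2.1 a1 a2 b1 b2
  have V3 := (bil_chBa (cG g) GG CC0 s (cL l) 0).2.2.nn W1.2.2 W2.2.2 W3.2.2 W4.2.2 a1 a2 b1 b2
  have V4 := (bil_chBb (cG g) GG CC0 s (cL l') 0).1.nn W5.1 W6.1 W7.1 W8.1 a1 a2 b1 b2
  have V5 := (bil_chBb (cG g) GG CC0 s (cL l') 0).2.1.nn W5.2.1 W6.2.1 W7.2.1 W8.2.1 a1 a2 b1 b2
  have V6 := (bil_chBb (cG g) GG CC0 s (cL l') 0).2.2.nn W5.2.2 W6.2.2 W7.2.2 W8.2.2 a1 a2 b1 b2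
  rw [(chBa_w g s l x y T).1] at V1
  rw [(chBa_w g s l x y T).2.1] at V2
  rw [(chBa_w g s l x y T).2.2] at V3
  rw [(chBb_w g s l' x y T).1] at V4
  rw [(chBb_w g s l' x y T).2.1] at V5
  rw [(chBb_w g s l' x y T).2.2] at V6
  refine ⟨lR l, lR l', 1 / 65536 * (tb : ℝ), nnR _ s1, nnR _ s2, nnR _ s3, nnR _ s1', nnR _ s2',
    nnR _ s3', nnR _ htb, kap_real k1 k2 s4 a1 a2, kap_real k3 k4 s4' b1 b2,
    nonneg_of_mul_nonneg_right V1 pos, nonneg_of_mul_nonneg_right V2 pos,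
    nonneg_of_mul_nonneg_right V3 pos, nonneg_of_mul_nonneg_right V4 pos,
    nonneg_of_mul_nonneg_right V5 pos, nonneg_of_mul_nonneg_right V6 pos, fun v => ?_⟩
  -- the form
  have len : ∀ (x y T : ℤ), (matB NI GG CC0 g (3 * GG) s l l' tb x y T).length = 21 :=
    fun _ _ _ => rfl
  have q : ∀ t : ℤ, chk2 (fun f => bern4 f x0 x1)
      (fun x y => matB NI GG CC0 g (3 * GG) s l l' tb x y t) y0 y1 = true →
      0 ≤ dotL (matB NR ((GG : ℤ) : ℝ) ((CC0 : ℤ) : ℝ) (cG g) ((3 * GG : ℤ) : ℝ) s (cL l) (cL l') tb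
        (3 * (1024 * x)) (3 * (1024 * y)) t) (mono v) := by
    intro t ht
    refine chk2_sound4 (n := 21) v (fr := fun X Y => dotL (matB NR ((GG : ℤ) : ℝ) ((CC0 : ℤ) : ℝ)
      (cG g) ((3 * GG : ℤ) : ℝ) s (cL l) (cL l') tb X Y t) (mono v)) (fun _ _ => rfl) ?_ ?_ ?_ ht
      (by linarith) (by linarith) (by linarith) (by linarith)
    · intro X Y
      rw [matB_cast]
    · intro Y
      exact Cub.dot _ 21 (fun X => matB NR _ _ _ _ _ _ _ _ X Y _) (fun _ => rfl)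
        (fun i hi => matB_cubx _ _ _ _ _ _ _ _ Y _ i hi)
    · intro X
      exact Cub.dot _ 21 (fun Y => matB NR _ _ _ _ _ _ _ _ X Y _) (fun _ => rfl)
        (fun i hi => matB_cuby _ _ _ _ _ _ _ _ X _ i hi)
  have q0 := q t0 p0
  have q1 := q t1 p1
  have q2 : 0 ≤ dotL (matB NR ((GG : ℤ) : ℝ) ((CC0 : ℤ) : ℝ) (cG g) ((3 * GG : ℤ) : ℝ) s (cL l) (cL l')
      tb (3 * (1024 * x)) (3 * (1024 * y)) (1024 * T)) (mono v) :=
    (Aff.dot (mono v) 21 (fun T => matB NR _ _ _ _ _ _ _ _ _ _ T) (fun _ => rfl)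
      (fun i hi => matB_aff _ _ _ _ _ _ _ _ _ _ i hi)).nn q0 q1 c1 c2
  have e : matB NR ((GG : ℤ) : ℝ) ((CC0 : ℤ) : ℝ) (cG g) ((3 * GG : ℤ) : ℝ) s (cL l) (cL l')
      tb (3 * (1024 * x)) (3 * (1024 * y)) (1024 * T) =
      (matB NR 1 1 (gR g) 1 s (lR l) (lR l') (1 / 65536 * (tb : ℝ)) x y T).map
        (fun z => (3072 : ℝ) ^ 3 * 1024 * 65536 ^ 3 * z) := by
    rw [← matB_scale, gR_s, lR_s, lR_s]
    simp only [GG, CC0]
    push_cast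
    congr 1 <;> ring
  rw [e, dotL_map] at q2
  exact nonneg_of_mul_nonneg_right q2 (by positivity)

end Pool.G1.NB
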