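import Pool.Agent.Work.MP_b5407d_nb.NBchk
import Mathlib.Tactic.Linarith
import Mathlib.Tactic.Ring
import Mathlib.Tactic.Positivity
import Mathlib.Tactic.FieldSimp
import Mathlib.Tactic.LinearCombination
import Mathlib.Data.Real.Basic

/-!
# soundness of `psd`
-/

set_option autoImplicit false

namespace Pool.G1.NB

def dotL : List ℝ → List ℝ → ℝ
  | a :: as, b :: bs => a * b + dotL as bs
  | _, _ => 0

/-- quadratic form of a symmetric matrix given by the rows of its upper triangle -/
def qfL : List (List ℝ) → List ℝ → ℝ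
  | (d :: r) :: rest, x :: xs => d * x ^ 2 + 2 * x * dotL r xs + qfL rest xs
  | _, _ => 0

def rc (l : List ℤ) : List ℝ := l.map (fun z : ℤ => (z : ℝ))

/-- row lengths `n, n - 1, .., 1` -/
def Tri : ℕ → List (List ℤ) → Prop
  | 0, M => M = []
  | n + 1, M => ∃ row rest, M = row :: rest ∧ row.length = n + 1 ∧ Tri n rest

lemma elimR_length (d ri : ℤ) : ∀ (m r : List ℤ), m.length = r.length → (elimR d ri m r).length = m.length
  | [], [], _ => rfl
  | a :: m, b :: r, h => by
    simp only [elimR, List.length_cons, Nat.add_right_cancel_iff]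
    exact elimR_length d ri m r (by simpa using h)
  | [], b :: r, h => by simp at h
  | a :: m, [], h => by simp at h

lemma elim_tri (d : ℤ) : ∀ (n : ℕ) (r : List ℤ) (M : List (List ℤ)), r.length = n → Tri n M →
    Tri n (elim d r M)
  | 0, [], M, _, h => by
    have h' : M = [] := h
    subst h'; rfl
  | n + 1, ri :: r, M, hr, h => by
    obtain ⟨row, rest, rfl, h1, h2⟩ := h
    refine ⟨elimR d ri row (ri :: r), elim d r rest, rfl, ?_, elim_tri d n r rest (by simpa using hr) h2⟩
    rw [elimR_length, h1]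
    rw [h1]; simpa using hr.symm
  | 0, ri :: r, _, hr, _ => by simp at hr
  | n + 1, [], _, hr, _ => by simp at hr

lemma dot_elimR (d ri : ℤ) : ∀ (m r : List ℤ) (xs : List ℝ), m.length = r.length →
    dotL (rc (elimR d ri m r)) xs = d * dotL (rc m) xs - ri * dotL (rc r) xs
  | [], [], xs, _ => by simp [elimR, rc, dotL]
  | a :: m, b :: r, [], _ => by simp [elimR, rc, dotL]
  | a :: m, b :: r, x :: xs, h => by
    have ih := dot_elimR d ri m r xs (by simpa using h)
    simp only [rc] at ih
    simp only [elimR, rc, dotL, List.map_cons, Int.cast_sub, Int.cast_mul]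
    rw [ih]; ring
  | [], b :: r, _, h => by simp at h
  | a :: m, [], _, h => by simp at h

lemma qf_elim (d : ℤ) : ∀ (n : ℕ) (r : List ℤ) (M : List (List ℤ)) (xs : List ℝ), r.length = n →
    Tri n M → xs.length = n →
    qfL ((elim d r M).map rc) xs = d * qfL (M.map rc) xs - dotL (rc r) xs ^ 2
  | 0, [], M, xs, _, h, _ => by
    have h' : M = [] := h
    subst h'; simp [elim, qfL, rc, dotL]
  | n + 1, ri :: r, M, [], _, _, hx => by simp at hx
  | n + 1, ri :: r, M, x :: xs, hr, h, hx => by
    obtain ⟨row, rest, rfl, h1, h2⟩ := h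
    match row, h1 with
    | a :: row', h1 =>
      have ih := qf_elim d n r rest xs (by simpa using hr) h2 (by simpa using hx)
      have e1 := dot_elimR d ri row' r xs (by simp at h1 hr; omega)
      simp only [rc] at ih e1
      simp only [elim, elimR, List.map_cons, rc, qfL, dotL, Int.cast_sub, Int.cast_mul]
      rw [e1, ih]
      ring
  | 0, ri :: r, _, _, hr, _, _ => by simp at hr
  | n + 1, [], _, _, hr, _, _ => by simp at hr

lemma allZero_dot : ∀ (r : List ℤ) (xs : List ℝ), allZero r = true → dotL (rc r) xs = 0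
  | [], xs, _ => by simp [rc, dotL]
  | x :: r, [], _ => by simp [rc, dotL]
  | Int.ofNat 0 :: r, y :: ys, h => by
    have h' : allZero r = true := h
    have := allZero_dot r ys h'
    simp only [rc] at this
    simp [rc, dotL, this]
  | Int.ofNat (n + 1) :: r, y :: ys, h => by
    have h' : false = true := h
    exact absurd h' (by decide)
  | Int.negSucc n :: r, y :: ys, h => by
    have h' : false = true := h
    exact absurd h' (by decide)

theorem psd_sound : ∀ (n : ℕ) (M : List (List ℤ)), psd n M = true → Tri n M →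
    ∀ xs : List ℝ, xs.length = n → 0 ≤ qfL (M.map rc) xs
  | 0, M, _, h, xs, _ => by
    have h' : M = [] := h
    subst h'; simp [qfL]
  | n + 1, M, hp, h, [], hx => by simp at hx
  | n + 1, M, hp, h, x :: xs, hx => by
    obtain ⟨row, rest, rfl, h1, h2⟩ := h
    match row, h1 with
    | Int.ofNat 0 :: r, h1 =>
      simp only [psd, Bool.and_eq_true] at hp
      have e1 := allZero_dot r xs hp.1
      have ih := psd_sound n rest hp.2 h2 xs (by simpa using hx)
      simp only [rc] at e1 ih
      simp only [List.map_cons, rc, qfL]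
      rw [e1]
      simpa using ih
    | Int.ofNat (k + 1) :: r, h1 =>
      simp only [psd] at hp
      have hr : r.length = n := by simpa using h1
      have ih := psd_sound n _ hp (elim_tri _ n r rest hr h2) xs (by simpa using hx)
      rw [qf_elim _ n r rest xs hr h2 (by simpa using hx)] at ih
      have hd : (0 : ℝ) < ((Int.ofNat (k + 1) : ℤ) : ℝ) := by
        rw [Int.ofNat_eq_natCast, Int.cast_natCast]
        exact_mod_cast Nat.succ_pos k
      have e2 : ((Int.ofNat (k + 1) : ℤ) : ℝ) * qfL ((((Int.ofNat (k + 1)) :: r) :: rest).map rc) (x :: xs) =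
          (((Int.ofNat (k + 1) : ℤ) : ℝ) * x + dotL (rc r) xs) ^ 2 +
          (((Int.ofNat (k + 1) : ℤ) : ℝ) * qfL (rest.map rc) xs - dotL (rc r) xs ^ 2) := by
        simp only [List.map_cons, rc, qfL]
        ring
      have e3 : 0 ≤ ((Int.ofNat (k + 1) : ℤ) : ℝ) *
          qfL ((((Int.ofNat (k + 1)) :: r) :: rest).map rc) (x :: xs) := by
        rw [e2]; positivity
      exact nonneg_of_mul_nonneg_right e3 hd
    | Int.negSucc k :: r, h1 => simp [psd] at hp

/-- the 21 monomials -/
def mono (v : Fin 6 → ℝ) : List ℝ :=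
  [v 0 ^ 2, 2 * v 0 * v 1, 2 * v 0 * v 2, 2 * v 0 * v 3, 2 * v 0 * v 4, 2 * v 0 * v 5,
    v 1 ^ 2, 2 * v 1 * v 2, 2 * v 1 * v 3, 2 * v 1 * v 4, 2 * v 1 * v 5,
    v 2 ^ 2, 2 * v 2 * v 3, 2 * v 2 * v 4, 2 * v 2 * v 5,
    v 3 ^ 2, 2 * v 3 * v 4, 2 * v 3 * v 5,
    v 4 ^ 2, 2 * v 4 * v 5, v 5 ^ 2]

theorem psd21_sound (m : List ℤ) (h : psd21 m = true) (v : Fin 6 → ℝ) :
    0 ≤ dotL (rc m) (mono v) := by
  unfold psd21 at h
  match m, h with
  | [a0, a1, a2, a3, a4, a5, b1, b2, b3, b4, b5, c2, c3, c4, c5, d3, d4, d5, e4, e5, f5], h =>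
    have h1 := psd_sound 6 _ h ⟨_, _, rfl, rfl, _, _, rfl, rfl, _, _, rfl, rfl, _, _, rfl, rfl, _, _,
      rfl, rfl, _, _, rfl, rfl, rfl⟩ [v 0, v 1, v 2, v 3, v 4, v 5] rfl
    refine h1.trans (le_of_eq ?_)
    simp only [toRows, List.map_cons, List.map_nil, rc, qfL, dotL, mono]
    ring
end Pool.G1.NB
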