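import Pool.Agent.Work.MP_b5407d_nb.NBchk

/-!
# leaf tests and trees
-/

set_option autoImplicit false

namespace Pool.G1.NB

/-- `a = 1 - r`, `b = -1 + r u` -/
def leafK1 (g : Gc ℤ) (l l' : Lc ℤ) (tb r0 r1 u0 u1 t0 t1 : ℤ) : Bool :=
  kchk CC0 GG (2 * GG - r0) l && kchk CC0 GG (2 * GG - r1) l &&
  kchk CC0 (GG * GG) (2 * (GG * GG) - r0 * u0) l' && kchk CC0 (GG * GG) (2 * (GG * GG) - r1 * u1) l' &&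
  wchk (chKa NI GG CC0 g GG GG r0 GG u0 0 l) && wchk (chKa NI GG CC0 g GG GG r0 GG u1 0 l) &&
  wchk (chKa NI GG CC0 g GG GG r1 GG u0 0 l) && wchk (chKa NI GG CC0 g GG GG r1 GG u1 0 l) &&
  wchk (chKb NI GG CC0 g GG GG r0 GG u0 0 l') && wchk (chKb NI GG CC0 g GG GG r0 GG u1 0 l') &&
  wchk (chKb NI GG CC0 g GG GG r1 GG u0 0 l') && wchk (chKb NI GG CC0 g GG GG r1 GG u1 0 l') &&
  chk2 (fun f => bern3 f r0 r1)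
    (fun r u => matK NI GG CC0 g (2 * GG) (3 * GG) l l' tb r (3 * GG) u t0) u0 u1 &&
  chk2 (fun f => bern3 f r0 r1)
    (fun r u => matK NI GG CC0 g (2 * GG) (3 * GG) l l' tb r (3 * GG) u t1) u0 u1

/-- `a = 1 - r u`, `b = -1 + r` -/
def leafK2 (g : Gc ℤ) (l l' : Lc ℤ) (tb r0 r1 u0 u1 t0 t1 : ℤ) : Bool :=
  kchk CC0 (GG * GG) (2 * (GG * GG) - r0 * u0) l && kchk CC0 (GG * GG) (2 * (GG * GG) - r1 * u1) l &&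
  kchk CC0 GG (2 * GG - r0) l' && kchk CC0 GG (2 * GG - r1) l' &&
  wchk (chKa NI GG CC0 g GG GG r0 u0 GG 0 l) && wchk (chKa NI GG CC0 g GG GG r0 u1 GG 0 l) &&
  wchk (chKa NI GG CC0 g GG GG r1 u0 GG 0 l) && wchk (chKa NI GG CC0 g GG GG r1 u1 GG 0 l) &&
  wchk (chKb NI GG CC0 g GG GG r0 u0 GG 0 l') && wchk (chKb NI GG CC0 g GG GG r0 u1 GG 0 l') &&
  wchk (chKb NI GG CC0 g GG GG r1 u0 GG 0 l') && wchk (chKb NI GG CC0 g GG GG r1 u1 GG 0 l') &&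
  chk2 (fun f => bern3 f r0 r1)
    (fun r u => matK NI GG CC0 g (2 * GG) (3 * GG) l l' tb r u (3 * GG) t0) u0 u1 &&
  chk2 (fun f => bern3 f r0 r1)
    (fun r u => matK NI GG CC0 g (2 * GG) (3 * GG) l l' tb r u (3 * GG) t1) u0 u1

inductive Tr where
  | S : Tr
  | L : List ℕ → Tr
  | N : ℕ → ℕ → Tr → Tr → Tr

/-- the leaf test of the chart `c` (`0, 1`: `B` with sign `1, -1`; `2, 3`: `K1, K2`) -/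
def leafC (c : ℕ) (g : Gc ℤ) (l l' : Lc ℤ) (tb x0 x1 y0 y1 t0 t1 : ℤ) : Bool :=
  match c with
  | 0 => leafB g 1 l l' tb x0 x1 y0 y1 t0 t1
  | 1 => leafB g (-1) l l' tb y0 y1 x0 x1 t0 t1
  | 2 => leafK1 g l l' tb x0 x1 y0 y1 t0 t1
  | _ => leafK2 g l l' tb x0 x1 y0 y1 t0 t1

def leafL (c : ℕ) (g : Gc ℤ) (ls : List ℕ) (x0 x1 y0 y1 t0 t1 : ℕ) : Bool :=
  match ls with
  | [a0, a1, a2, a3, a4, a5, a6, a7, b0, b1, b2, b3, b4, b5, b6, b7, tb] =>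
    leafC c g ⟨NI a0, NI a1, NI a2, NI a3, NI a4, NI a5, NI a6, NI a7⟩
      ⟨NI b0, NI b1, NI b2, NI b3, NI b4, NI b5, NI b6, NI b7⟩ (NI tb) (NI x0) (NI x1) (NI y0) (NI y1)
      (NI t0) (NI t1)
  | _ => false

/-- the test of a tree of bisected boxes; `sk`: boxes with `y1 ≤ x0` may be skipped -/
def Chk (lf : List ℕ → ℕ → ℕ → ℕ → ℕ → ℕ → ℕ → Bool) (sk : Bool) :
    Tr → ℕ → ℕ → ℕ → ℕ → ℕ → ℕ → Prop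
  | Tr.S, x0, _, _, y1, _, _ => sk = true ∧ y1 ≤ x0
  | Tr.L ls, x0, x1, y0, y1, t0, t1 => lf ls x0 x1 y0 y1 t0 t1 = true
  | Tr.N 0 m a b, x0, x1, y0, y1, t0, t1 =>
    Chk lf sk a x0 m y0 y1 t0 t1 ∧ Chk lf sk b m x1 y0 y1 t0 t1
  | Tr.N 1 m a b, x0, x1, y0, y1, t0, t1 =>
    Chk lf sk a x0 x1 y0 m t0 t1 ∧ Chk lf sk b x0 x1 m y1 t0 t1
  | Tr.N _ m a b, x0, x1, y0, y1, t0, t1 =>
    Chk lf sk a x0 x1 y0 y1 t0 m ∧ Chk lf sk b x0 x1 y0 y1 m t1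

section
variable {lf : List ℕ → ℕ → ℕ → ℕ → ℕ → ℕ → ℕ → Bool} {sk : Bool}

theorem Chk.s {x0 x1 y0 y1 t0 t1 : ℕ} (h : Nat.ble y1 x0 = true) :
    Chk lf true Tr.S x0 x1 y0 y1 t0 t1 := ⟨rfl, Nat.le_of_ble_eq_true h⟩

theorem Chk.l {ls : List ℕ} {x0 x1 y0 y1 t0 t1 : ℕ} (h : lf ls x0 x1 y0 y1 t0 t1 = true) :
    Chk lf sk (Tr.L ls) x0 x1 y0 y1 t0 t1 := h

theorem Chk.n0 {m : ℕ} {a b : Tr} {x0 x1 y0 y1 t0 t1 : ℕ} (h : Chk lf sk a x0 m y0 y1 t0 t1)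
    (h' : Chk lf sk b m x1 y0 y1 t0 t1) : Chk lf sk (Tr.N 0 m a b) x0 x1 y0 y1 t0 t1 := ⟨h, h'⟩

theorem Chk.n1 {m : ℕ} {a b : Tr} {x0 x1 y0 y1 t0 t1 : ℕ} (h : Chk lf sk a x0 x1 y0 m t0 t1)
    (h' : Chk lf sk b x0 x1 m y1 t0 t1) : Chk lf sk (Tr.N 1 m a b) x0 x1 y0 y1 t0 t1 := ⟨h, h'⟩

theorem Chk.n2 {m : ℕ} {a b : Tr} {x0 x1 y0 y1 t0 t1 : ℕ} (h : Chk lf sk a x0 x1 y0 y1 t0 m)
    (h' : Chk lf sk b x0 x1 y0 y1 m t1) : Chk lf sk (Tr.N 2 m a b) x0 x1 y0 y1 t0 t1 := ⟨h, h'⟩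

end

end Pool.G1.NB
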