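import Pool.Agent.Work.MP_b5407d_nb.NBdegB
import Pool.Agent.Work.MP_b5407d_nb.NBdegK
import Pool.Agent.Work.MP_b5407d_nb.NBtree

/-!
# soundness of the leaf tests and of the trees
-/

set_option autoImplicit false

namespace Pool.G1.NB

def Bil (f : ℝ → ℝ → ℝ) : Prop := ∃ a b c d : ℝ, ∀ x y, f x y = a + b * x + c * y + d * (x * y)

lemma Bil.nn {f : ℝ → ℝ → ℝ} (hf : Bil f) {x0 x1 y0 y1 : ℝ} (h00 : 0 ≤ f x0 y0) (h01 : 0 ≤ f x0 y1)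
    (h10 : 0 ≤ f x1 y0) (h11 : 0 ≤ f x1 y1) {x y : ℝ} (a1 : x0 ≤ x) (a2 : x ≤ x1) (b1 : y0 ≤ y)
    (b2 : y ≤ y1) : 0 ≤ f x y := by
  obtain ⟨a, b, c, d, h⟩ := hf
  have A : ∀ z, Aff (fun x => f x z) := fun z x => by simp only [h]; ring
  have B : Aff (fun y => f x y) := fun y => by simp only [h]; ring
  exact B.nn ((A y0).nn h00 h10 a1 a2) ((A y1).nn h01 h11 a1 a2) b1 b2

lemma nn_sound {z : ℤ} (h : nn z = true) : (0 : ℝ) ≤ (z : ℝ) := by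
  match z, h with
  | Int.ofNat n, _ => simp

lemma kchk_sound {C U Y0 Y1 : ℤ} {l : Lc ℤ} (h0 : kchk C U Y0 l = true) (h1 : kchk C U Y1 l = true)
    (hk : 0 ≤ l.k1) {Y : ℝ} (a1 : (Y1 : ℝ) ≤ Y) (a2 : Y ≤ (Y0 : ℝ)) :
    (C : ℝ) * U * U ≤ ((l.k0 : ℝ) * U - l.k1 * Y) * Y := by
  have e0 := nn_sound h0
  have e1 := nn_sound h1
  push_cast at e0 e1
  have hk' : (0 : ℝ) ≤ (l.k1 : ℝ) := by exact_mod_cast hk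
  rcases (a1.trans a2).eq_or_lt with e | hlt
  · have : Y = Y0 := le_antisymm a2 (e ▸ a1)
    rw [this]; linarith
  have e2 := mul_nonneg (sub_nonneg.2 a2) e1
  have e3 := mul_nonneg (sub_nonneg.2 a1) e0
  have e4 : 0 ≤ (l.k1 : ℝ) * (((Y0 : ℝ) - Y) * (Y - Y1)) * ((Y0 : ℝ) - Y1) :=
    mul_nonneg (mul_nonneg hk' (mul_nonneg (sub_nonneg.2 a2) (sub_nonneg.2 a1)))
      (sub_nonneg.2 hlt.le)
  have key : 0 ≤ ((Y0 : ℝ) - Y1) * (((l.k0 : ℝ) * U - l.k1 * Y) * Y - C * U * U) := by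
    nlinarith
  have := nonneg_of_mul_nonneg_right key (sub_pos.2 hlt)
  linarith

lemma wchk_sound {c : Ch ℤ} (h : wchk c = true) : (0 : ℝ) ≤ (c.wo : ℝ) ∧ (0 : ℝ) ≤ (c.wm : ℝ) ∧
    (0 : ℝ) ≤ (c.wf : ℝ) := by
  simp only [wchk, Bool.and_eq_true] at h
  exact ⟨nn_sound h.1.1, nn_sound h.1.2, nn_sound h.2⟩

/-- signs of the local constants -/
def Lnn (l : Lc ℤ) : Prop := 0 ≤ l.t0 ∧ 0 ≤ l.t1 ∧ 0 ≤ l.t2 ∧ 0 ≤ l.k1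

noncomputable def gR (g : Gc ℤ) : Gc ℝ := sG (1 / 65536) (cG g)
noncomputable def lR (l : Lc ℤ) : Lc ℝ := sL (1 / 65536) (cL l)

lemma gR_s (g : Gc ℤ) : cG g = sG ((CC0 : ℤ) : ℝ) (gR g) := by
  simp only [cG, sG, gR, CC0]
  push_cast
  congr 1 <;> ring

lemma lR_s (l : Lc ℤ) : cL l = sL ((CC0 : ℤ) : ℝ) (lR l) := by
  simp only [cL, sL, lR, CC0]
  push_cast
  congr 1 <;> ring

def GoodB (g : Gc ℝ) (s x y T : ℝ) : Prop :=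
  ∃ (l l' : Lc ℝ) (tb : ℝ), 0 ≤ l.t0 ∧ 0 ≤ l.t1 ∧ 0 ≤ l.t2 ∧ 0 ≤ l'.t0 ∧ 0 ≤ l'.t1 ∧ 0 ≤ l'.t2 ∧
    0 ≤ tb ∧
    1 ≤ (l.k0 - l.k1 * (2 - x)) * (2 - x) ∧ 1 ≤ (l'.k0 - l'.k1 * (2 - y)) * (2 - y) ∧
    0 ≤ (chBa NR 1 1 g 1 s x y T l).wo ∧ 0 ≤ (chBa NR 1 1 g 1 s x y T l).wm ∧
    0 ≤ (chBa NR 1 1 g 1 s x y T l).wf ∧ 0 ≤ (chBb NR 1 1 g 1 s x y T l').wo ∧
    0 ≤ (chBb NR 1 1 g 1 s x y T l').wm ∧ 0 ≤ (chBb NR 1 1 g 1 s x y T l').wf ∧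
    ∀ v : Fin 6 → ℝ, 0 ≤ dotL (matB NR 1 1 g 1 s l l' tb x y T) (mono v)

def GoodK (g : Gc ℝ) (r P Q T : ℝ) : Prop :=
  ∃ (l l' : Lc ℝ) (tb : ℝ), 0 ≤ l.t0 ∧ 0 ≤ l.t1 ∧ 0 ≤ l.t2 ∧ 0 ≤ l'.t0 ∧ 0 ≤ l'.t1 ∧ 0 ≤ l'.t2 ∧
    0 ≤ tb ∧
    1 ≤ (l.k0 - l.k1 * (2 - r * P)) * (2 - r * P) ∧ 1 ≤ (l'.k0 - l'.k1 * (2 - r * Q)) * (2 - r * Q) ∧
    0 ≤ (chKa NR 1 1 g 1 1 r P Q T l).wo ∧ 0 ≤ (chKa NR 1 1 g 1 1 r P Q T l).wm ∧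
    0 ≤ (chKa NR 1 1 g 1 1 r P Q T l).wf ∧ 0 ≤ (chKb NR 1 1 g 1 1 r P Q T l').wo ∧
    0 ≤ (chKb NR 1 1 g 1 1 r P Q T l').wm ∧ 0 ≤ (chKb NR 1 1 g 1 1 r P Q T l').wf ∧
    ∀ v : Fin 6 → ℝ, 0 ≤ dotL (matK NR 1 1 g 1 1 l l' tb r P Q T) (mono v)

section
variable (g : Gc ℤ) (s : ℤ) (l : Lc ℤ)

lemma chBa_w (X Y : ℝ) (T : ℝ) :
    (chBa NR GG CC0 (cG g) GG s (1024 * X) (1024 * Y) 0 (cL l)).wo =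
      1024 * 65536 * (chBa NR 1 1 (gR g) 1 s X Y T (lR l)).wo ∧
    (chBa NR GG CC0 (cG g) GG s (1024 * X) (1024 * Y) 0 (cL l)).wm =
      1024 * 65536 * (chBa NR 1 1 (gR g) 1 s X Y T (lR l)).wm ∧
    (chBa NR GG CC0 (cG g) GG s (1024 * X) (1024 * Y) 0 (cL l)).wf =
      1024 * 65536 * (chBa NR 1 1 (gR g) 1 s X Y T (lR l)).wf := by
  rw [gR_s, lR_s]
  simp only [chBa, chain, NR, GG, CC0, sG, sL]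
  push_cast
  refine ⟨?_, ?_, ?_⟩ <;> ring

lemma chBb_w (X Y : ℝ) (T : ℝ) :
    (chBb NR GG CC0 (cG g) GG s (1024 * X) (1024 * Y) 0 (cL l)).wo =
      1024 * 65536 * (chBb NR 1 1 (gR g) 1 s X Y T (lR l)).wo ∧
    (chBb NR GG CC0 (cG g) GG s (1024 * X) (1024 * Y) 0 (cL l)).wm =
      1024 * 65536 * (chBb NR 1 1 (gR g) 1 s X Y T (lR l)).wm ∧
    (chBb NR GG CC0 (cG g) GG s (1024 * X) (1024 * Y) 0 (cL l)).wf =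
      1024 * 65536 * (chBb NR 1 1 (gR g) 1 s X Y T (lR l)).wf := by
  rw [gR_s, lR_s]
  simp only [chBb, chain, NR, GG, CC0, sG, sL]
  push_cast
  refine ⟨?_, ?_, ?_⟩ <;> ring

lemma chBa_c (x y : ℤ) :
    (((chBa NI GG CC0 g GG s x y 0 l).wo : ℤ) : ℝ) = (chBa NR GG CC0 (cG g) GG s x y 0 (cL l)).wo ∧
    (((chBa NI GG CC0 g GG s x y 0 l).wm : ℤ) : ℝ) = (chBa NR GG CC0 (cG g) GG s x y 0 (cL l)).wm ∧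
    (((chBa NI GG CC0 g GG s x y 0 l).wf : ℤ) : ℝ) =
      (chBa NR GG CC0 (cG g) GG s x y 0 (cL l)).wf := by
  simp only [chBa, chain, NR, NI, cG, cL, Int.ofNat_eq_natCast]
  push_cast
  exact ⟨rfl, rfl, rfl⟩

lemma chBb_c (x y : ℤ) :
    (((chBb NI GG CC0 g GG s x y 0 l).wo : ℤ) : ℝ) = (chBb NR GG CC0 (cG g) GG s x y 0 (cL l)).wo ∧
    (((chBb NI GG CC0 g GG s x y 0 l).wm : ℤ) : ℝ) = (chBb NR GG CC0 (cG g) GG s x y 0 (cL l)).wm ∧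
    (((chBb NI GG CC0 g GG s x y 0 l).wf : ℤ) : ℝ) =
      (chBb NR GG CC0 (cG g) GG s x y 0 (cL l)).wf := by
  simp only [chBb, chain, NR, NI, cG, cL, Int.ofNat_eq_natCast]
  push_cast
  exact ⟨rfl, rfl, rfl⟩

end

end Pool.G1.NB
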