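import Pool.Agent.Work.MP_b5407d_nb.P2A_g

/-! leaves of the zone P2A -/

set_option autoImplicit false

namespace Pool.G1.NB.P2A

theorem lf0 : leafL 0 g [69905, 71736, 63550, 67723, 17477, 17586, 31, 4, 69905, 76434, 63550, 70219, 18725, 18307, 32, 5, 26338] 0 128 0 256 0 128 = true := by decide +kernel

theorem lf1 : leafL 0 g [69615, 82443, 63550, 72403, 19973, 16338, 45, 5, 69905, 76434, 63550, 70219, 18725, 17216, 39, 4, 7758] 128 256 0 256 0 128 = true := by decide +kernel

theorem lf2 : leafL 0 g [79892, 81049, 59919, 70219, 18725, 21035, 123, 17, 79892, 81049, 59919, 70219, 18725, 21035, 123, 17, 37324] 0 256 0 256 128 256 = true := by decide +kernel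

theorem lf3 : leafL 0 g [69905, 76434, 63550, 70219, 18725, 12962, 14, 4, 69327, 106185, 63550, 81142, 24967, 12941, 21, 5, 249] 0 256 256 512 0 128 = true := by decide +kernel

theorem lf4 : leafL 0 g [79892, 81049, 59919, 70219, 18725, 18767, 83, 15, 77672, 110741, 59919, 81142, 24967, 16476, 143, 23, 4498] 0 256 256 512 128 256 = true := by decide +kernel

theorem lf5 : leafL 0 g [69327, 97048, 63550, 77781, 23046, 11911, 15, 4, 69327, 97048, 63550, 77781, 23046, 11911, 15, 4, 663] 256 384 256 384 0 128 = true := by decide +kernel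

theorem lf6 : leafL 0 g [69327, 97048, 63550, 77781, 23046, 11010, 14, 4, 69042, 118149, 63550, 84022, 26887, 10502, 19, 5, 15888] 256 384 384 512 0 128 = true := by decide +kernel

theorem lf7 : leafL 0 g [69042, 118149, 63550, 84022, 26887, 9581, 19, 5, 69042, 118149, 63550, 84022, 26887, 9581, 19, 5, 33897] 384 512 384 512 0 128 = true := by decide +kernel

theorem lf8 : leafL 0 g [77672, 110741, 59919, 81142, 24967, 12062, 16, 4, 77672, 110741, 59919, 81142, 24967, 12062, 16, 4, 18738] 256 512 256 512 128 256 = true := by decide +kernel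

theorem lf9 : leafL 0 g [74898, 73665, 61681, 67723, 17477, 12917, 11, 4, 72316, 176602, 61681, 96121, 34953, 11016, 37, 8, 14398] 0 128 512 768 0 256 = true := by decide +kernel

theorem lf10 : leafL 0 g [74235, 84308, 61681, 72403, 19973, 10489, 3, 1, 72316, 176602, 61681, 96121, 34953, 9252, 6, 2, 23746] 128 256 512 768 0 256 = true := by decide +kernel

theorem lf11 : leafL 0 g [74898, 78034, 61681, 70219, 18725, 18125, 80, 16, 71090, 374491, 61681, 117966, 52429, 7304, 3762, 777, 100353] 0 256 768 1024 0 256 = true := by decide +kernel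

theorem lf12 : leafL 0 g [69327, 106185, 63550, 81142, 24967, 9403, 16, 4, 68759, 187246, 63550, 109228, 43691, 8060, 35, 7, 59776] 256 512 512 1024 0 128 = true := by decide +kernel

theorem lf13 : leafL 0 g [77672, 110741, 59919, 81142, 24967, 12299, 90, 16, 74898, 193286, 59919, 109228, 43691, 9848, 316, 29, 84224] 256 512 512 1024 128 256 = true := by decide +kernel

theorem lf14 : leafL 0 g [72316, 187246, 61681, 109228, 43691, 6426, 116, 13, 72316, 187246, 61681, 109228, 43691, 6426, 116, 13, 119792] 512 1024 512 1024 0 256 = true := by decide +kernel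

theorem lf15 : leafL 1 g [58254, 65536, 69905, 67723, 17477, 17901, 27, 4, 58254, 65536, 69905, 67723, 17477, 17901, 27, 4, 38227] 0 128 0 128 0 256 = true := by decide +kernel

end Pool.G1.NB.P2A
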