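import Pool.Agent.Work.MP_b5407d_nb.P2B_g

/-! leaves of the zone P2B -/

set_option autoImplicit false

namespace Pool.G1.NB.P2B

theorem lf0 : leafL 0 g [102300, 88301, 55188, 70219, 18725, 13737, 10, 560, 99864, 99864, 55188, 76461, 21846, 13545, 15, 569, 6425] 0 256 0 512 256 512 = true := by decide +kernel

theorem lf1 : leafL 0 g [95325, 117323, 55188, 81142, 24967, 10910, 14, 4, 99864, 99864, 55188, 76461, 21846, 11882, 13, 496, 35317] 256 512 0 512 256 512 = true := by decide +kernel

theorem lf2 : leafL 0 g [99864, 99864, 55188, 76461, 21846, 12953, 11, 423, 87381, 199729, 55188, 109228, 43691, 10037, 32, 7, 61206] 0 512 512 1024 256 512 = true := by decide +kernel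

theorem lf3 : leafL 0 g [87381, 199729, 55188, 109228, 43691, 11095, 1636, 52, 87381, 199729, 55188, 109228, 43691, 11095, 1636, 52, 163204] 512 1024 512 1024 256 512 = true := by decide +kernel

theorem lf4 : leafL 1 g [48771, 73584, 80660, 76461, 21846, 11421, 4, 555, 47935, 59023, 80660, 67723, 17477, 6062, 3, 551, 2139] 0 128 0 512 256 512 = true := by decide +kernel

theorem lf5 : leafL 1 g [48771, 73584, 80660, 76461, 21846, 10516, 11, 540, 48771, 69471, 80660, 72403, 19973, 6206, 10, 5, 261] 128 256 0 512 256 512 = true := by decide +kernel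

theorem lf6 : leafL 1 g [48771, 73584, 80660, 76461, 21846, 9424, 11, 502, 49637, 83781, 80660, 77781, 23046, 5297, 11, 6, 9594] 256 384 0 512 256 512 = true := by decide +kernel

theorem lf7 : leafL 1 g [48771, 73584, 80660, 76461, 21846, 8480, 11, 468, 50534, 104531, 80660, 84022, 26887, 4167, 14, 7, 31476] 384 512 0 512 256 512 = true := by decide +kernel

theorem lf8 : leafL 1 g [52429, 166441, 80660, 109228, 43691, 3795, 176, 165, 48771, 73584, 80660, 76461, 21846, 8197, 60, 529, 103128] 0 512 512 1024 256 512 = true := by decide +kernel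

theorem lf9 : leafL 1 g [52429, 166441, 80660, 109228, 43691, 5878, 2595, 398, 52429, 166441, 80660, 109228, 43691, 5878, 2595, 398, 232666] 512 1024 512 1024 256 512 = true := by decide +kernel

theorem lf10 : leafL 2 g [102300, 88301, 55188, 70219, 18725, 9394, 543, 24, 48210, 63310, 80660, 70219, 18725, 3961, 27, 473, 87999] 0 256 0 1024 256 512 = true := by decide +kernel

theorem lf11 : leafL 2 g [95325, 117323, 55188, 81142, 24967, 7862, 395, 7, 48771, 73584, 80660, 76461, 21846, 7132, 9, 323, 85952] 256 512 0 1024 256 512 = true := by decide +kernel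

theorem lf12 : leafL 2 g [87381, 199729, 55188, 109228, 43691, 6690, 7556, 90, 48771, 73584, 80660, 76461, 21846, 9199, 72, 806, 149424] 512 1024 0 512 256 512 = true := by decide +kernel

theorem lf13 : leafL 2 g [87381, 199729, 55188, 109228, 43691, 9835, 5527, 144, 51150, 105120, 80660, 102988, 37450, 8825, 980, 195, 199707] 512 1024 512 1024 256 512 = true := by decide +kernel

theorem lf14 : leafL 3 g [102300, 88301, 55188, 70219, 18725, 17032, 62, 707, 48210, 63310, 80660, 70219, 18725, 3715, 807, 61, 125743] 0 256 0 1024 256 512 = true := by decide +kernel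

theorem lf15 : leafL 3 g [99864, 99864, 55188, 76461, 21846, 16138, 353, 1303, 49932, 92183, 80660, 81142, 24967, 3763, 7141, 302, 256470] 256 512 0 1024 256 512 = true := by decide +kernel

end Pool.G1.NB.P2B
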