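import Pool.Agent.Work.MP_b5407d_nb.P2C_g

/-! leaves of the zone P2C -/

set_option autoImplicit false

namespace Pool.G1.NB.P2C

theorem lf0 : leafL 0 g [123362, 111107, 51782, 76461, 21846, 20062, 20, 151, 110376, 124830, 51782, 98305, 32768, 18568, 56, 228, 42792] 0 512 0 1024 512 576 = true := by decide +kernel

theorem lf1 : leafL 0 g [98690, 213995, 51782, 109228, 43691, 12610, 273, 32, 110376, 124830, 51782, 98305, 32768, 15858, 54, 168, 87552] 512 1024 0 1024 512 576 = true := by decide +kernel

theorem lf2 : leafL 0 g [119837, 130258, 50534, 98305, 32768, 15246, 80, 231, 119837, 130258, 50534, 98305, 32768, 15246, 80, 231, 81580] 0 1024 0 1024 576 640 = true := by decide +kernel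

theorem lf3 : leafL 0 g [155345, 118987, 49345, 76461, 21846, 43567, 14, 137, 131072, 136179, 49345, 98305, 32768, 10361, 152, 1613, 92092] 0 512 0 1024 640 704 = true := by decide +kernel

theorem lf4 : leafL 0 g [111848, 221921, 49345, 109228, 43691, 14412, 8191, 119, 131072, 136179, 49345, 98305, 32768, 17217, 1549, 522, 179147] 512 1024 0 1024 640 704 = true := by decide +kernel

theorem lf5 : leafL 0 g [178481, 123362, 48210, 76461, 21846, 33921, 117, 303, 178481, 123362, 48210, 76461, 21846, 33921, 117, 303, 120959] 0 512 0 512 704 768 = true := by decide +kernel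

theorem lf6 : leafL 0 g [142663, 142663, 48210, 98305, 32768, 16085, 1872, 531, 119837, 226108, 48210, 109228, 43691, 14116, 8664, 115, 180517] 0 1024 512 1024 704 768 = true := by decide +kernel

theorem lf7 : leafL 0 g [213995, 131072, 45590, 76461, 21846, 31549, 140, 303, 213995, 131072, 45590, 76461, 21846, 31549, 140, 303, 110370] 0 512 0 512 768 1024 = true := by decide +kernel

theorem lf8 : leafL 0 g [213995, 131072, 45590, 76461, 21846, 35723, 140, 243, 167772, 209715, 45590, 96121, 34953, 19090, 935, 51, 21611] 0 512 512 768 768 1024 = true := by decide +kernel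

theorem lf9 : leafL 0 g [213995, 131072, 45590, 76461, 21846, 45608, 190, 224, 131072, 413232, 45590, 117966, 52429, 12201, 15691, 109, 88892] 0 512 768 1024 768 1024 = true := by decide +kernel

theorem lf10 : leafL 0 g [167772, 209715, 45590, 96121, 34953, 19936, 7502, 92, 149797, 149797, 45590, 98305, 32768, 17470, 1090, 495, 140914] 512 768 0 1024 768 1024 = true := by decide +kernel

theorem lf11 : leafL 0 g [131072, 413232, 45590, 117966, 52429, 11168, 16814, 108, 149797, 149797, 45590, 98305, 32768, 18244, 204, 232, 113296] 768 1024 0 1024 768 1024 = true := by decide +kernel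

theorem lf12 : leafL 1 g [38836, 62415, 104858, 76461, 21846, 6596, 51, 331, 38836, 62415, 104858, 76461, 21846, 6596, 51, 331, 35495] 0 512 0 512 512 1024 = true := by decide +kernel

theorem lf13 : leafL 1 g [43691, 149797, 104858, 109228, 43691, 4120, 5993, 1634, 38836, 62415, 104858, 76461, 21846, 10173, 237, 2974, 253993] 0 512 512 1024 512 1024 = true := by decide +kernel

theorem lf14 : leafL 1 g [43691, 149797, 104858, 109228, 43691, 1500, 10792, 4762, 43691, 149797, 104858, 109228, 43691, 1500, 10792, 4762, 291111] 512 1024 512 1024 512 1024 = true := by decide +kernel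

theorem lf15 : leafL 2 g [124830, 124830, 47663, 98305, 32768, 10764, 9241, 15, 38836, 62415, 104858, 76461, 21846, 6433, 13, 297, 104371] 0 1024 0 512 512 1024 = true := by decide +kernel

end Pool.G1.NB.P2C
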