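import Pool.Agent.Work.MP_b5407d_nb.NBtree

/-! global constants of the zone P2C -/

set_option autoImplicit false

namespace Pool.G1.NB.P2C

def g : Gc ℤ := ⟨0, 0, (-69855), 0, 0, 0, (-2187), (-39607), 0, 0, (-66042), 8192, 16384⟩

end Pool.G1.NB.P2C
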